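import Pool.Agent.NOC.SysC
import Pool.Agent.TBM.Main
import Pool.Agent.TUQ.Vl

/-!
# Families of embeddings which are stable under the automorphisms fixing `L`
-/

set_option autoImplicit false

namespace Pool.Agent.NOC

open Pool.Agent.TBR Pool.Agent.TUQ

/-- a homomorphism of quotients from a relation -/
theorem hom_of_rel {A B : Type*} [Group A] [Group B] (A' : Subgroup A) [A'.Normal]
    (B' : Subgroup B) [B'.Normal] (R : A → B → Prop) (htot : ∀ a, ∃ b, R a b)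
    (hmul : ∀ a b a' b', R a b → R a' b' → R (a * a') (b * b'))
    (hinv : ∀ a b, R a b → R a⁻¹ b⁻¹) (htri : ∀ a b, R a b → a ∈ A' → b ∈ B') :
    ∃ f : A ⧸ A' →* B ⧸ B', ∀ a b, R a b → f (QuotientGroup.mk a) = QuotientGroup.mk b := by
  choose φ hφ using htot
  have key : ∀ a b, R a b → ∀ a' b', R a' b' → a⁻¹ * a' ∈ A' →
      (QuotientGroup.mk b : B ⧸ B') = QuotientGroup.mk b' := by
    intro a b h a' b' h' ha
    rw [QuotientGroup.eq]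
    exact htri _ _ (hmul _ _ _ _ (hinv _ _ h) h') ha
  let g : A →* B ⧸ B' := MonoidHom.mk' (fun a => QuotientGroup.mk (φ a)) (by
    intro a a'
    rw [← QuotientGroup.mk_mul]
    exact key _ _ (hφ _) _ _ (hmul _ _ _ _ (hφ a) (hφ a')) (by
      rw [inv_mul_cancel]
      exact A'.one_mem))
  have hg : ∀ a, g a = QuotientGroup.mk (φ a) := fun _ => rfl
  refine ⟨QuotientGroup.lift A' g fun a ha => ?_, fun a b h => ?_⟩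
  · rw [MonoidHom.mem_ker, hg]
    exact (QuotientGroup.eq_one_iff _).2 (htri _ _ (hφ a) ha)
  · rw [QuotientGroup.lift_mk, hg]
    exact key _ _ (hφ a) _ _ h (by
      rw [inv_mul_cancel]
      exact A'.one_mem)

universe u

variable {k Ω : Type u} [Field k] [Field Ω] [Algebra k Ω]

section

variable {ι : Type} [Fintype ι]

/-- the product of the conjugates -/
def pc (ψ : ι → (Ω ≃ₐ[k] Ω)) (e : ι → ℤ) (C : (Ω ≃ₐ[k] Ω) → (Ω ≃ₐ[k] Ω) → Ωˣ)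
    (σ τ : Ω ≃ₐ[k] Ω) : Ωˣ := ∏ i, cj (ψ i) C σ τ ^ e i

/-- the field of definition of the family -/
def fd (K L : Set Ω) (ψ : ι → (Ω ≃ₐ[k] Ω)) : Set Ω := L ∪ ⋃ i, ψ i '' K

omit [Fintype ι] in
theorem fd_image {K L : Set Ω} (ψ : ι → (Ω ≃ₐ[k] Ω)) (i : ι) : ψ i '' K ⊆ fd K L ψ :=
  fun _ hx => Or.inr (Set.mem_iUnion.2 ⟨i, hx⟩)

theorem sys_pc {K : Set Ω} (L : Set Ω) (ψ : ι → (Ω ≃ₐ[k] Ω)) (e : ι → ℤ) {ℓ : ℕ}
    {C : ℕ → (Ω ≃ₐ[k] Ω) → (Ω ≃ₐ[k] Ω) → Ωˣ} (hC : SysU K ℓ C) :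
    SysU (fd K L ψ) ℓ (fun n => pc ψ e (C n)) :=
  SysU.prod Finset.univ fun i =>
    SysU.zpow (SysU.res (Fx_mono (fd_image ψ i)) (SysU.cj hC (ψ i))) (e i)

theorem cj_pc (g : Ω ≃ₐ[k] Ω) (ψ : ι → (Ω ≃ₐ[k] Ω)) (e : ι → ℤ)
    (C : (Ω ≃ₐ[k] Ω) → (Ω ≃ₐ[k] Ω) → Ωˣ) (σ τ : Ω ≃ₐ[k] Ω) :
    cj g (pc ψ e C) σ τ = ∏ i, cj (g * ψ i) C σ τ ^ e i := by
  show g • ∏ i, cj (ψ i) C (g⁻¹ * σ * g) (g⁻¹ * τ * g) ^ e i = _
  rw [Finset.smul_prod']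
  refine Finset.prod_congr rfl fun i _ => ?_
  rw [smul_zpow_units, ← cj_cj]
  rfl

theorem inv_pc {K : Set Ω} (L : Set Ω) (ψ : ι → (Ω ≃ₐ[k] Ω)) (e : ι → ℤ) {ℓ : ℕ}
    {C : ℕ → (Ω ≃ₐ[k] Ω) → (Ω ≃ₐ[k] Ω) → Ωˣ} (hC : SysU K ℓ C) {g : Ω ≃ₐ[k] Ω}
    (π : Equiv.Perm ι) (hπ : ∀ i, e (π i) = e i ∧ ∀ x ∈ K, g (ψ i x) = ψ (π i) x) (n : ℕ) :
    Tri (Ge k (fd K L ψ)) (fun σ τ => cj g (pc ψ e (C n)) σ τ * (pc ψ e (C n) σ τ)⁻¹) := by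
  have h1 : ∀ i, Tri (Ge k (fd K L ψ)) (fun σ τ =>
      (cj (g * ψ i) (C n) σ τ * (cj (ψ (π i)) (C n) σ τ)⁻¹) ^ e i) := by
    intro i
    refine Tri.zpow ?_ (e i)
    have h2 : (ψ (π i))⁻¹ * (g * ψ i) ∈ Fx k K := by
      intro x hx
      show (ψ (π i))⁻¹ (g (ψ i x)) = x
      rw [(hπ i).2 x hx]
      exact (ψ (π i)).symm_apply_apply x
    have h3 : Tri (Ge k (ψ (π i) '' K)) (cj (ψ (π i))
        (fun σ τ => cj ((ψ (π i))⁻¹ * (g * ψ i)) (C n) σ τ * (C n σ τ)⁻¹)) :=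
      Tri.cj (ψ (π i)) (fun _ hσ => mem_Ge_image hσ) (hC.inv n _ h2)
    refine (h3.mono (Ge_mono (fd_image ψ (π i)))).congr fun σ _ τ _ => ?_
    rw [cj_mul (ψ (π i)) (cj ((ψ (π i))⁻¹ * (g * ψ i)) (C n)) (fun σ τ => (C n σ τ)⁻¹), cj_inv,
      cj_cj, mul_inv_cancel_left]
  refine (Tri.prod Finset.univ h1).congr fun σ _ τ _ => ?_
  rw [cj_pc]
  have h4 : pc ψ e (C n) σ τ = ∏ i, cj (ψ (π i)) (C n) σ τ ^ e i := by
    unfold pc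
    rw [← Equiv.prod_comp π]
    exact Finset.prod_congr rfl fun i _ => by rw [(hπ i).1]
  rw [h4, ← Finset.prod_inv_distrib, ← Finset.prod_mul_distrib]
  refine Finset.prod_congr rfl fun i _ => ?_
  rw [mul_zpow, inv_zpow]

theorem pc_mul (ψ : ι → (Ω ≃ₐ[k] Ω)) (e : ι → ℤ) (C C' : (Ω ≃ₐ[k] Ω) → (Ω ≃ₐ[k] Ω) → Ωˣ) :
    pc ψ e (fun σ τ => C σ τ * C' σ τ) = fun σ τ => pc ψ e C σ τ * pc ψ e C' σ τ := by
  funext σ τ
  unfold pc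
  rw [← Finset.prod_mul_distrib]
  refine Finset.prod_congr rfl fun i _ => ?_
  rw [cj_mul, mul_zpow]

theorem pc_inv (ψ : ι → (Ω ≃ₐ[k] Ω)) (e : ι → ℤ) (C : (Ω ≃ₐ[k] Ω) → (Ω ≃ₐ[k] Ω) → Ωˣ) :
    pc ψ e (fun σ τ => (C σ τ)⁻¹) = fun σ τ => (pc ψ e C σ τ)⁻¹ := by
  funext σ τ
  unfold pc
  rw [← Finset.prod_inv_distrib]
  refine Finset.prod_congr rfl fun i _ => ?_
  rw [cj_inv, inv_zpow]

theorem tri_pc {K : Set Ω} (L : Set Ω) (ψ : ι → (Ω ≃ₐ[k] Ω)) (e : ι → ℤ)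
    {C : (Ω ≃ₐ[k] Ω) → (Ω ≃ₐ[k] Ω) → Ωˣ} (hC : Tri (Ge k K) C) :
    Tri (Ge k (fd K L ψ)) (pc ψ e C) :=
  Tri.prod Finset.univ fun i =>
    ((Tri.cj (ψ i) (fun _ hσ => mem_Ge_image hσ) hC).mono (Ge_mono (fd_image ψ i))).zpow (e i)

omit [Fintype ι] in
theorem nor_fd {K L : Set Ω} (ψ : ι → (Ω ≃ₐ[k] Ω)) {g : Ω ≃ₐ[k] Ω} (hg : g ∈ Fx k L)
    (π : Equiv.Perm ι) (hπ : ∀ i, ∀ x ∈ K, g (ψ i x) = ψ (π i) x) {σ : Ω ≃ₐ[k] Ω}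
    (hσ : σ ∈ Fx k (fd K L ψ)) : g⁻¹ * σ * g ∈ Fx k (fd K L ψ) := by
  rintro x (hx | hx)
  · exact (Fx k L).mul_mem ((Fx k L).mul_mem ((Fx k L).inv_mem hg)
      (Fx_mono Set.subset_union_left hσ)) hg x hx
  · obtain ⟨i, y, hy, rfl⟩ := Set.mem_iUnion.1 hx
    show g⁻¹ (σ (g (ψ i y))) = ψ i y
    rw [hπ i y hy, hσ _ (fd_image ψ (π i) ⟨y, hy, rfl⟩), ← hπ i y hy]
    exact g.symm_apply_apply _

end

/-- a system over `L` gives a system of cochains of the absolute Galois group of `L` -/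
theorem sysG_of (L : IntermediateField k Ω) (halg : ∀ x : Ω, IsAlgebraic L x) (ℓ : ℕ)
    {C : ℕ → (Ω ≃ₐ[k] Ω) → (Ω ≃ₐ[k] Ω) → Ωˣ} (hC : SysU (L : Set Ω) ℓ C) :
    T1B.Sys k ℓ (fun n (σ τ : Ω ≃ₐ[L] Ω) => C n (rsh L σ) (rsh L τ)) := by
  have hle : Ge k (L : Set Ω) ≤ Fx k (L : Set Ω) := inf_le_left
  have hg : (Ge k (L : Set Ω)).comap (rsh L) = T1B.geo k L Ω := by
    ext σ
    constructor
    · intro h
      exact h.2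
    · intro h
      exact ⟨fun x hx => σ.commutes (⟨x, hx⟩ : L), h⟩
  have hgV : ∀ V : ValuationSubring Ω,
      (Ge k (L : Set Ω) ⊓ St k V).comap (rsh L) = T1B.geo k L Ω ⊓ T1B.stab V := by
    intro V
    rw [Subgroup.comap_inf, hg]
    rfl
  refine ⟨fun n => ?_, fun n => ?_, ?_, fun n => ?_, fun n g => ?_, fun n V hV hV' => ?_⟩
  · obtain ⟨S, -, h⟩ := hC.lc n
    refine ⟨IntermediateField.adjoin L (S : Set Ω),
      IntermediateField.finiteDimensional_adjoin fun x _ => (halg x).isIntegral, ?_⟩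
    intro σ σ' τ τ' h1 h2
    exact h _ _ _ _ (fun x hx => h1 x (IntermediateField.subset_adjoin L _ hx))
      (fun x hx => h2 x (IntermediateField.subset_adjoin L _ hx))
  · intro σ hσ τ hτ ρ hρ
    rw [← hg] at hσ hτ hρ
    have h := hC.coc n _ hσ _ hτ _ hρ
    simp only [map_mul]
    exact h
  · rw [← hg]
    exact (tri_iff L halg _ hle _).1 hC.zero
  · rw [← hg]
    exact (tri_iff L halg _ hle _).1 (hC.step n)
  · rw [← hg]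
    have h := (tri_iff L halg _ hle _).1 (hC.inv n (rsh L g)
      (fun x hx => g.commutes (⟨x, hx⟩ : L)))
    simp only [map_mul, map_inv]
    exact h
  · rw [← hgV]
    exact (tri_iff L halg _ (inf_le_left.trans hle) _).1 (hC.unr n V hV hV')

theorem triv_iff (L : IntermediateField k Ω) (halg : ∀ x : Ω, IsAlgebraic L x)
    (C : (Ω ≃ₐ[k] Ω) → (Ω ≃ₐ[k] Ω) → Ωˣ) :
    Tri (Ge k (L : Set Ω)) C ↔
      T1B.Triv (T1B.geo k L Ω) (fun σ τ => C (rsh L σ) (rsh L τ)) := by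
  have hg : (Ge k (L : Set Ω)).comap (rsh L) = T1B.geo k L Ω := by
    ext σ
    constructor
    · intro h
      exact h.2
    · intro h
      exact ⟨fun x hx => σ.commutes (⟨x, hx⟩ : L), h⟩
  rw [← hg]
  exact tri_iff L halg _ inf_le_left C

theorem rsh_mem (L : IntermediateField k Ω) {σ : Ω ≃ₐ[L] Ω} (h : σ ∈ T1B.geo k L Ω) :
    rsh L σ ∈ Ge k (L : Set Ω) := ⟨fun x hx => σ.commutes (⟨x, hx⟩ : L), h⟩

/-- **Families of embeddings.** -/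
theorem inv_fam (K L : IntermediateField k Ω) (hKfg : K.FG) (hLfg : L.FG)
    (hK : ∀ x : Ω, IsAlgebraic K x) (hL : ∀ x : Ω, IsAlgebraic L x) {ι : Type} [Fintype ι]
    (ψ : ι → (Ω ≃ₐ[k] Ω)) (e : ι → ℤ)
    (hπ : ∀ g ∈ Fx k (L : Set Ω), ∃ π : Equiv.Perm ι, ∀ i, e (π i) = e i ∧
      ∀ x ∈ K, g (ψ i x) = ψ (π i) x) :
    ∃ (m : ℕ) (S : Finset Ω), 0 < m ∧ ∀ ℓ : ℕ, ∃ f : Vl k K Ω ℓ →* Vl k L Ω ℓ,
      ∀ (c : sysG k K Ω ℓ) (C : ℕ → (Ω ≃ₐ[k] Ω) → (Ω ≃ₐ[k] Ω) → Ωˣ), SysU (K : Set Ω) ℓ C →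
        (∀ n σ τ, C n (rsh K σ) (rsh K τ) =
          (c : ℕ → (Ω ≃ₐ[K] Ω) → (Ω ≃ₐ[K] Ω) → Ωˣ) n σ τ) →
        f (QuotientGroup.mk c) = 1 →
          ∀ n, Tri (Ge k (S : Set Ω)) (fun σ τ => (∏ i, cj (ψ i) (C n) σ τ ^ e i) ^ m) := by
  classical
  obtain ⟨GK, hGK⟩ := hKfg
  obtain ⟨HL, hHL⟩ := hLfg
  obtain ⟨S', hS'⟩ : ∃ S', S' = fd (K : Set Ω) (L : Set Ω) ψ := ⟨_, rfl⟩
  obtain ⟨T, hTd⟩ : ∃ T : Finset Ω, T = Finset.univ.biUnion fun i => GK.image (fun y => ψ i y) :=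
    ⟨_, rfl⟩
  -- the families of generators
  have hTi : ∀ σ ∈ Fx k (T : Set Ω), ∀ i, σ ∈ Fx k (ψ i '' (K : Set Ω)) := by
    intro σ hσ i
    rw [mem_Fx_image, ← hGK, Fx_adjoin, ← mem_Fx_image]
    rintro _ ⟨y, hy, rfl⟩
    refine hσ _ ?_
    rw [hTd, Finset.coe_biUnion]
    refine Set.mem_iUnion₂.2 ⟨i, Finset.mem_coe.2 (Finset.mem_univ i), ?_⟩
    rw [Finset.coe_image]
    exact ⟨y, hy, rfl⟩
  have hfix : ∀ σ ∈ Fx k (L : Set Ω), (∀ i, σ ∈ Fx k (ψ i '' (K : Set Ω))) → σ ∈ Fx k S' := by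
    intro σ hσ h x hx
    rw [hS'] at hx
    rcases hx with hx | hx
    · exact hσ x hx
    · obtain ⟨i, hi⟩ := Set.mem_iUnion.1 hx
      exact h i x hi
  have hT : ∀ σ ∈ Ge k (L : Set Ω), σ ∈ Fx k (T : Set Ω) → σ ∈ Fx k S' := fun σ hσ h =>
    hfix σ hσ.1 (hTi σ h)
  have hle : Fx k S' ≤ Fx k (L : Set Ω) := by
    rw [hS']
    exact Fx_mono Set.subset_union_left
  have hnor : ∀ g ∈ Fx k (L : Set Ω), ∀ σ ∈ Fx k S', g⁻¹ * σ * g ∈ Fx k S' := by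
    intro g hg σ hσ
    obtain ⟨π, hp⟩ := hπ g hg
    rw [hS'] at hσ ⊢
    exact nor_fd ψ hg π (fun i => (hp i).2) hσ
  -- finite index
  choose! P hP using hπ
  have hfin : Finite (QX (Ge k (L : Set Ω)) (Ge k S')) := by
    refine Finite.of_injective
      (fun q => P (qs (Ge k (L : Set Ω)) (Ge k S') q)) fun q q' hq => ?_
    have hm := qs_mem (Ge k (L : Set Ω)) (Ge k S') q
    have hm' := qs_mem (Ge k (L : Set Ω)) (Ge k S') q'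
    rw [← qm_qs (Ge k (L : Set Ω)) (Ge k S') q, ← qm_qs (Ge k (L : Set Ω)) (Ge k S') q', qm_eq]
    have h1 : (qs (Ge k (L : Set Ω)) (Ge k S') q)⁻¹ * qs (Ge k (L : Set Ω)) (Ge k S') q' ∈
        Ge k (L : Set Ω) := (Ge k (L : Set Ω)).mul_mem ((Ge k (L : Set Ω)).inv_mem hm) hm'
    refine ⟨hfix _ h1.1 fun i => ?_, h1.2⟩
    rintro _ ⟨y, hy, rfl⟩
    have h2 : qs (Ge k (L : Set Ω)) (Ge k S') q (ψ i y) =
        qs (Ge k (L : Set Ω)) (Ge k S') q' (ψ i y) := by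
      rw [(hP _ hm.1 i).2 y hy, (hP _ hm'.1 i).2 y hy]
      have h3 : P (qs (Ge k (L : Set Ω)) (Ge k S') q) =
        P (qs (Ge k (L : Set Ω)) (Ge k S') q') := hq
      rw [h3]
    show (qs (Ge k (L : Set Ω)) (Ge k S') q)⁻¹ (qs (Ge k (L : Set Ω)) (Ge k S') q' (ψ i y)) = _
    rw [← h2]
    exact (qs (Ge k (L : Set Ω)) (Ge k S') q).symm_apply_apply _
  obtain ⟨S, hS⟩ : ∃ S : Finset Ω, S = HL ∪ T := ⟨_, rfl⟩
  have hSS : Ge k (S : Set Ω) ≤ Ge k S' := by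
    intro σ hσ
    rw [hS, Finset.coe_union] at hσ
    refine ⟨hfix σ ?_ (hTi σ (Fx_mono Set.subset_union_right hσ.1)), hσ.2⟩
    rw [← hHL, Fx_adjoin]
    exact Fx_mono Set.subset_union_left hσ.1
  have hcard : 0 < Nat.card (QX (Ge k (L : Set Ω)) (Ge k S')) := Nat.card_pos
  refine ⟨Nat.card (QX (Ge k (L : Set Ω)) (Ge k S')), S, hcard, fun ℓ => ?_⟩
  have := Fintype.ofFinite (QX (Ge k (L : Set Ω)) (Ge k S'))
  have hsc := (sec_qs (D := Ge k (L : Set Ω)) (F := Ge k S')).sct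
  have ha := loa_qa (k := k) (L := (L : Set Ω)) (S' := S') T hT
  -- the relation
  let R : sysG k K Ω ℓ → sysG k L Ω ℓ → Prop := fun c b => ∃ C, SysU (K : Set Ω) ℓ C ∧
    (∀ n σ τ, C n (rsh K σ) (rsh K τ) =
      (c : ℕ → (Ω ≃ₐ[K] Ω) → (Ω ≃ₐ[K] Ω) → Ωˣ) n σ τ) ∧
    ∀ n, ∀ σ ∈ T1B.geo k L Ω, ∀ τ ∈ T1B.geo k L Ω,
      (b : ℕ → (Ω ≃ₐ[L] Ω) → (Ω ≃ₐ[L] Ω) → Ωˣ) n σ τ =
        cr (qa (Ge k (L : Set Ω)) (Ge k S')) (qs (Ge k (L : Set Ω)) (Ge k S')) (pc ψ e (C n))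
          (rsh L σ) (rsh L τ)
  have htot : ∀ (c : sysG k K Ω ℓ) (C : ℕ → (Ω ≃ₐ[k] Ω) → (Ω ≃ₐ[k] Ω) → Ωˣ),
      SysU (K : Set Ω) ℓ C → (∀ n σ τ, C n (rsh K σ) (rsh K τ) =
          (c : ℕ → (Ω ≃ₐ[K] Ω) → (Ω ≃ₐ[K] Ω) → Ωˣ) n σ τ) →
      ∃ b : sysG k L Ω ℓ, R c b ∧ (b ∈ (triG k L Ω).subgroupOf (sysG k L Ω ℓ) →
        ∀ n, Tri (Ge k (S : Set Ω)) (fun σ τ => pc ψ e (C n) σ τ ^
          Nat.card (QX (Ge k (L : Set Ω)) (Ge k S')))) := by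
    intro c C hC hCc
    have hC' : SysU S' ℓ (fun n => pc ψ e (C n)) := by
      rw [hS']
      exact sys_pc (L : Set Ω) ψ e hC
    obtain ⟨B, hB, hBe, hBr⟩ := sys_cores hle hnor T hT hC' (fun n g hg => by
      rw [hS']
      exact inv_pc (L : Set Ω) ψ e hC (P g) (hP g hg) n)
    refine ⟨⟨fun n σ τ => B n (rsh L σ) (rsh L τ), sysG_of L hL ℓ hB⟩,
      ⟨C, hC, hCc, fun n σ hσ τ hτ => hBe n _ (rsh_mem L hσ) _ (rsh_mem L hτ)⟩, fun hb n => ?_⟩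
    have h1 : Tri (Ge k (L : Set Ω)) (B n) := (triv_iff L hL (B n)).2 (hb n)
    have hle' : Ge k S' ≤ Ge k (L : Set Ω) := fun σ hσ => ⟨hle hσ.1, hσ.2⟩
    have h2 : Tri (Ge k S') (B n) := h1.mono hle'
    refine (((h2.mul (hBr n).inv)).mono hSS).congr fun σ _ τ _ => ?_
    show B n σ τ * (B n σ τ * (pc ψ e (C n) σ τ ^ _)⁻¹)⁻¹ = _
    rw [mul_inv, inv_inv, mul_inv_cancel_left]
  obtain ⟨f, hf⟩ := hom_of_rel ((triG k K Ω).subgroupOf (sysG k K Ω ℓ))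
    ((triG k L Ω).subgroupOf (sysG k L Ω ℓ)) R (fun c => by
      obtain ⟨C, hC, hCc⟩ := sysK K hK ℓ c c.2
      obtain ⟨b, hb, -⟩ := htot c C hC hCc
      exact ⟨b, hb⟩) (by
      rintro c b c' b' ⟨C, hC, hCc, hCb⟩ ⟨C', hC', hCc', hCb'⟩
      refine ⟨fun n σ τ => C n σ τ * C' n σ τ, SysU.mul hC hC', fun n σ τ => ?_,
        fun n σ hσ τ hτ => ?_⟩
      · show C n (rsh K σ) (rsh K τ) * C' n (rsh K σ) (rsh K τ) = _
        rw [hCc, hCc']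
        rfl
      · rw [pc_mul, cr_mul, ← hCb n σ hσ τ hτ, ← hCb' n σ hσ τ hτ]
        rfl) (by
      rintro c b ⟨C, hC, hCc, hCb⟩
      refine ⟨fun n σ τ => (C n σ τ)⁻¹, ?_, fun n σ τ => ?_, fun n σ hσ τ hτ => ?_⟩
      · have h := SysU.zpow hC (-1)
        have e : (fun n (σ τ : Ω ≃ₐ[k] Ω) => C n σ τ ^ (-1 : ℤ)) =
            fun n (σ τ : Ω ≃ₐ[k] Ω) => (C n σ τ)⁻¹ := by
          funext n σ τ
          rw [zpow_neg_one]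
        rwa [e] at h
      · show (C n (rsh K σ) (rsh K τ))⁻¹ = _
        rw [hCc]
        rfl
      · rw [pc_inv, cr_inv, ← hCb n σ hσ τ hτ]
        rfl) (by
      rintro c b ⟨C, hC, hCc, hCb⟩ hc n
      have h1 : Tri (Ge k (K : Set Ω)) (C n) := by
        rw [triv_iff K hK]
        refine (hc n).congr fun σ _ τ _ => ?_
        exact (hCc n σ τ).symm
      have h2 : Tri (Ge k S') (pc ψ e (C n)) := by
        rw [hS']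
        exact tri_pc (L : Set Ω) ψ e h1
      have h3 := (triv_iff L hL _).1 (tri_cr hsc ha h2)
      exact h3.congr fun σ hσ τ hτ => (hCb n σ hσ τ hτ).symm)
  refine ⟨f, fun c C hC hCc h1 => ?_⟩
  obtain ⟨b, hb, hbt⟩ := htot c C hC hCc
  rw [hf c b hb] at h1
  exact hbt ((QuotientGroup.eq_one_iff b).1 h1)

end Pool.Agent.NOC
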