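import Pool.Agent.TBM.Main
import Pool.Agent.T1B.Dominated

/-!
# Generic points of the plane: automorphisms, orbits, transcendence degrees
-/

set_option autoImplicit false

namespace Pool.Agent.NOC

open Pool.Agent.TBR Cardinal

universe u

section

variable {k M : Type u} [Field k] [Field M] [Algebra k M]

theorem alg_mono {A B : IntermediateField k M} (h : A ≤ B) {x : M} (hx : IsAlgebraic A x) :
    IsAlgebraic B x := by
  obtain ⟨p, hp0, hp⟩ := hx
  refine ⟨p.map (IntermediateField.inclusion h : A →+* B),
    (Polynomial.map_ne_zero_iff (IntermediateField.inclusion_injective h)).2 hp0, ?_⟩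
  rw [Polynomial.aeval_def, Polynomial.eval₂_map]
  exact hp

theorem alg_trans {A : IntermediateField k M} {S : Set M} (hS : ∀ x ∈ S, IsAlgebraic A x) {x : M}
    (hx : IsAlgebraic (IntermediateField.adjoin k S) x) : IsAlgebraic A x := by
  have h1 : IntermediateField.adjoin k S ≤ (algebraicClosure A M).restrictScalars k := by
    rw [IntermediateField.adjoin_le_iff]
    intro y hy
    exact mem_algebraicClosure_iff.2 (hS y hy)
  have h2 : IsAlgebraic ((algebraicClosure A M).restrictScalars k) x := alg_mono h1 hx
  have h3 : IsAlgebraic (algebraicClosure A M) x := h2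
  have : Algebra.IsAlgebraic A (algebraicClosure A M) := inferInstance
  exact IsAlgebraic.restrictScalars A h3

open scoped IntermediateField.algebraAdjoinAdjoin in
theorem alg_field_iff (S : Set M) :
    (∀ x : M, IsAlgebraic (IntermediateField.adjoin k S) x) ↔
      Algebra.IsAlgebraic (Algebra.adjoin k S) M := by
  rw [IsFractionRing.comap_isAlgebraic_iff (A := Algebra.adjoin k S)
    (K := IntermediateField.adjoin k S) (C := M)]
  exact ⟨fun h => ⟨h⟩, fun h => h.isAlgebraic⟩

/-- two independent elements generate a field over which everything is algebraic -/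
theorem alg_of_indep (htr : Algebra.trdeg k M ≤ 2) {Q : Fin 2 → M}
    (hQ : AlgebraicIndependent k Q) (x : M) :
    IsAlgebraic (IntermediateField.adjoin k (Set.range Q)) x := by
  have h1 : IsTranscendenceBasis k Q := by
    refine hQ.isTranscendenceBasis_of_lift_trdeg_le_of_finite ?_
    rw [Cardinal.mk_fin, Cardinal.lift_natCast]
    have := Cardinal.lift_le.{0}.2 htr
    rw [Cardinal.lift_ofNat] at this
    exact_mod_cast this
  have h2 := h1.isAlgebraic
  exact (alg_field_iff (Set.range Q)).2 h2 x

theorem trdeg_ge {P : Fin 2 → M} (hP : AlgebraicIndependent k P) : 2 ≤ Algebra.trdeg k M := by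
  have := hP.lift_cardinalMk_le_trdeg
  rw [Cardinal.mk_fin, Cardinal.lift_natCast, Cardinal.lift_id'] at this
  exact_mod_cast this

/-- two elements over which everything is algebraic are independent -/
theorem indep_of_alg {P : Fin 2 → M} (hP : AlgebraicIndependent k P) {Q : Fin 2 → M}
    (hQ : ∀ x : M, IsAlgebraic (IntermediateField.adjoin k (Set.range Q)) x) :
    AlgebraicIndependent k Q := by
  have h1 : Algebra.IsAlgebraic (Algebra.adjoin k (Set.range Q)) M :=
    (alg_field_iff (Set.range Q)).1 hQ
  have h2 : IsTranscendenceBasis k Q := by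
    refine Algebra.IsAlgebraic.isTranscendenceBasis_of_lift_le_trdeg_of_finite k Q ?_
    rw [Cardinal.mk_fin, Cardinal.lift_natCast]
    have := Cardinal.lift_le.{0}.2 (trdeg_ge hP)
    rw [Cardinal.lift_ofNat] at this
    exact_mod_cast this
  exact h2.1

/-- two generic points are conjugate -/
theorem exists_aut [IsAlgClosed M] (htr : Algebra.trdeg k M ≤ 2) {P Q : Fin 2 → M}
    (hP : AlgebraicIndependent k P) (hQ : AlgebraicIndependent k Q) :
    ∃ t : M ≃ₐ[k] M, ∀ i, t (P i) = Q i := by
  have hA : ∀ R : Fin 2 → M, AA (⊥ : IntermediateField k M) (Set.range R) =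
      IntermediateField.adjoin k (Set.range R) := fun R => bot_sup_eq _
  have hev : ∀ R : Fin 2 → M, AlgebraicIndependent k R → ∀ u : MvPolynomial (Fin 2) M,
      Cf ((⊥ : IntermediateField k M) : Set M) u → (MvPolynomial.eval R u = 0 ↔ u = 0) := by
    intro R hR u hu
    obtain ⟨v, rfl⟩ : ∃ v : MvPolynomial (Fin 2) k, MvPolynomial.map (algebraMap k M) v = u := by
      have h1 : u ∈ Set.range (MvPolynomial.map (σ := Fin 2) (algebraMap k M)) := by
        rw [MvPolynomial.mem_range_map_iff_coeffs_subset]
        intro x hx
        rw [Finset.mem_coe, MvPolynomial.mem_coeffs_iff] at hx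
        obtain ⟨m, -, rfl⟩ := hx
        have h2 := hu m
        rw [SetLike.mem_coe, IntermediateField.mem_bot] at h2
        exact h2
      exact h1
    rw [MvPolynomial.eval_map, ← MvPolynomial.aeval_def,
      map_eq_zero_iff _ (MvPolynomial.map_injective _ (algebraMap k M).injective)]
    exact map_eq_zero_iff _ hR
  obtain ⟨t, -, ht⟩ := ext_aut (⊥ : IntermediateField k M) AlgEquiv.refl (fun _ => Iff.rfl) P Q
    (fun x => by rw [hA]; exact alg_of_indep htr hP x)
    (fun x => by rw [hA]; exact alg_of_indep htr hQ x) (by
      intro u hu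
      have h3 : MvPolynomial.map ((AlgEquiv.refl : M ≃ₐ[k] M) : M →+* M) u = u := by
        have : ((AlgEquiv.refl : M ≃ₐ[k] M) : M →+* M) = RingHom.id M := rfl
        rw [this, MvPolynomial.map_id]
      rw [h3, hev P hP u hu, hev Q hQ u hu])
  exact ⟨t, ht⟩

/-- orbits of algebraic elements are finite -/
theorem orbit_finite {S : Set M} {x : M} (hx : IsAlgebraic (IntermediateField.adjoin k S) x) :
    {y : M | ∃ σ ∈ Fx k S, σ x = y}.Finite := by
  obtain ⟨p, hp0, hp⟩ := hx
  let q : Polynomial M := p.map (algebraMap (IntermediateField.adjoin k S) M)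
  have hq0 : q ≠ 0 := (Polynomial.map_ne_zero_iff
    (algebraMap (IntermediateField.adjoin k S) M).injective).2 hp0
  refine (q.rootSet_finite M).subset ?_
  rintro y ⟨σ, hσ, rfl⟩
  rw [Polynomial.mem_rootSet]
  refine ⟨hq0, ?_⟩
  rw [Polynomial.aeval_def, Polynomial.eval₂_map]
  have h1 : ((algebraMap M M).comp (algebraMap (IntermediateField.adjoin k S) M)) =
      ((σ : M →+* M).comp (algebraMap (IntermediateField.adjoin k S) M)) := by
    refine RingHom.ext fun a => ?_
    have h2 : σ ∈ Fx k (IntermediateField.adjoin k S : Set M) := by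
      rw [Fx_adjoin]
      exact hσ
    exact (h2 _ a.2).symm
  rw [h1]
  have h3 : Polynomial.eval₂ ((σ : M →+* M).comp (algebraMap (IntermediateField.adjoin k S) M))
      (σ x) p = σ (Polynomial.eval₂ (algebraMap (IntermediateField.adjoin k S) M) x p) :=
    (Polynomial.hom_eval₂ p (algebraMap (IntermediateField.adjoin k S) M) (σ : M →+* M) x).symm
  rw [h3]
  have h4 : Polynomial.eval₂ (algebraMap (IntermediateField.adjoin k S) M) x p = 0 := hp
  rw [h4, map_zero]

theorem indep_pair {a b : M} (ha : Transcendental k a)
    (hb : Transcendental (IntermediateField.adjoin k {a}) b) : AlgebraicIndependent k ![a, b] := by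
  rw [AlgebraicIndependent.iff_transcendental_adjoin_image (1 : Fin 2)]
  have e1 : (![a, b] : Fin 2 → M) '' {1}ᶜ = {a} := by
    ext x
    simp only [Set.mem_image, Set.mem_compl_iff, Set.mem_singleton_iff]
    constructor
    · rintro ⟨i, hi, rfl⟩
      fin_cases i
      · rfl
      · exact absurd rfl hi
    · rintro rfl
      exact ⟨0, by decide, rfl⟩
  constructor
  · have : Unique {j : Fin 2 // j ≠ 1} :=
      { default := ⟨0, by decide⟩
        uniq := by
          rintro ⟨j, hj⟩
          apply Subtype.ext
          show j = 0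
          fin_cases j
          · rfl
          · exact absurd rfl hj }
    rw [algebraicIndependent_unique_type_iff]
    have h2 : ((default : {j : Fin 2 // j ≠ 1}) : Fin 2) = 0 := by
      have := (default : {j : Fin 2 // j ≠ 1}).2
      revert this
      generalize ((default : {j : Fin 2 // j ≠ 1}) : Fin 2) = j
      fin_cases j
      · intro _; rfl
      · intro h; exact absurd rfl h
    rw [h2]
    exact ha
  · rw [e1]
    intro h
    apply hb
    obtain ⟨p, hp0, hp⟩ := h
    have hle : Algebra.adjoin k {a} ≤ (IntermediateField.adjoin k {a}).toSubalgebra :=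
      IntermediateField.algebra_adjoin_le_adjoin k {a}
    let f : Algebra.adjoin k {a} →+* IntermediateField.adjoin k {a} :=
      (Subalgebra.inclusion hle : _ →+* (IntermediateField.adjoin k {a}).toSubalgebra)
    have hf : Function.Injective f := Subalgebra.inclusion_injective hle
    refine ⟨p.map f, (Polynomial.map_ne_zero_iff hf).2 hp0, ?_⟩
    rw [Polynomial.aeval_def, Polynomial.eval₂_map]
    exact hp

theorem trdeg_one_of_single (E : IntermediateField k M) (b : M)
    (h : ∀ x ∈ E, IsAlgebraic (IntermediateField.adjoin k {b}) x) : Algebra.trdeg k E ≤ 1 := by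
  refine (T1B.trdeg_le_mk {b} E h).trans ?_
  rw [Cardinal.mk_singleton]

/-- dependent pairs generate small fields -/
theorem trdeg_pair {a b : M} (h : ¬ AlgebraicIndependent k ![a, b]) :
    Algebra.trdeg k (IntermediateField.adjoin k {a, b}) ≤ 1 := by
  have key : IsAlgebraic k a ∨ IsAlgebraic (IntermediateField.adjoin k {a}) b := by
    by_contra hcon
    push Not at hcon
    exact h (indep_pair hcon.1 hcon.2)
  rcases key with ha | hb
  · refine trdeg_one_of_single _ b fun x hx => ?_
    have h1 : IsAlgebraic (IntermediateField.adjoin k {b}) a := ha.tower_top _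
    refine alg_trans (S := {a, b}) ?_ (isAlgebraic_algebraMap
      (⟨x, hx⟩ : IntermediateField.adjoin k {a, b}))
    rintro y (rfl | hy)
    · exact h1
    · rw [Set.mem_singleton_iff] at hy
      subst hy
      exact isAlgebraic_algebraMap
        (⟨y, IntermediateField.mem_adjoin_simple_self k y⟩ : IntermediateField.adjoin k {y})
  · refine trdeg_one_of_single _ a fun x hx => ?_
    refine alg_trans (S := {a, b}) ?_ (isAlgebraic_algebraMap
      (⟨x, hx⟩ : IntermediateField.adjoin k {a, b}))
    rintro y (rfl | hy)
    · exact isAlgebraic_algebraMap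
        (⟨y, IntermediateField.mem_adjoin_simple_self k y⟩ : IntermediateField.adjoin k {y})
    · rw [Set.mem_singleton_iff] at hy
      rw [hy]
      exact hb

end

end Pool.Agent.NOC
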