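import Pool.Agent.NOC.Fam
import Pool.Agent.NOC.Aut

set_option maxSynthPendingDepth 3

private theorem noc_asm_tf_field (K L : Type*) [Field K] [Field L] [Algebra K L] :
    Module.IsTorsionFree K L := inferInstance

private theorem noc_asm_fs_field (K L : Type*) [Field K] [Field L] [Algebra K L] :
    FaithfulSMul K L := inferInstance

attribute [local instance 5000] noc_asm_tf_field noc_asm_fs_field


/-!
# Injective homomorphisms from families of embeddings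
-/

set_option autoImplicit false

namespace Pool.Agent.NOC

open Pool.Agent.TBR Pool.Agent.TUQ

universe u

variable {k Ω : Type u} [Field k] [Field Ω] [Algebra k Ω] [IsAlgClosed Ω]

/-- a class which is torsion after a finite extension is zero -/
theorem mk_one_of_tors (K : IntermediateField k Ω) (hK : ∀ x : Ω, IsAlgebraic K x) {ℓ : ℕ}
    (hℓ : ℓ.Prime) (m : ℤ) (hm : m ≠ 0) (S : Finset Ω) (c : sysG k K Ω ℓ)
    (C : ℕ → (Ω ≃ₐ[k] Ω) → (Ω ≃ₐ[k] Ω) → Ωˣ)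
    (hCc : ∀ n σ τ, C n (rsh K σ) (rsh K τ) =
      (c : ℕ → (Ω ≃ₐ[K] Ω) → (Ω ≃ₐ[K] Ω) → Ωˣ) n σ τ)
    (H : ∀ n, Tri (Ge k (S : Set Ω)) (fun σ τ => C n σ τ ^ m)) :
    (QuotientGroup.mk c : Vl k K Ω ℓ) = 1 := by
  have hKalg : Algebra.IsAlgebraic K Ω := ⟨hK⟩
  have hNor : Normal K Ω := by
    have hcl : IsAlgClosure K Ω := ⟨inferInstance, hKalg⟩
    exact IsAlgClosure.normal K Ω
  let E' : IntermediateField K Ω := IntermediateField.adjoin K (S : Set Ω)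
  have hEfin : FiniteDimensional K E' :=
    IntermediateField.finiteDimensional_adjoin (fun x _ => (hK x).isIntegral)
  rw [QuotientGroup.eq_one_iff]
  intro n
  refine fin9 K hℓ _ c.2 E' m hm 1 (Nat.coprime_one_left ℓ) (fun _ => 0) (fun n => ?_) n
  obtain ⟨D, hD⟩ : ∃ D, D = Ge k (K : Set Ω) ⊓ Fx k (S : Set Ω) := ⟨_, rfl⟩
  have hDS : D ≤ Ge k (S : Set Ω) := by
    rw [hD]
    exact fun σ hσ => ⟨hσ.2, hσ.1.2⟩
  have h6 := (H n).mono hDS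
  have hDK : D ≤ Fx k (K : Set Ω) := by
    rw [hD]
    exact inf_le_left.trans inf_le_left
  rw [tri_iff K hK D hDK] at h6
  have h7 : T1B.geo k K Ω ⊓ E'.fixingSubgroup ≤ D.comap (rsh K) := by
    intro σ hσ
    rw [Subgroup.mem_comap, hD]
    refine ⟨⟨fun x hx => σ.commutes ⟨x, hx⟩, hσ.1⟩, fun x hx => ?_⟩
    have h8 := hσ.2
    have h9 : σ ∈ E'.fixingSubgroup := h8
    rw [IntermediateField.mem_fixingSubgroup_iff] at h9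
    exact h9 x (IntermediateField.subset_adjoin K _ hx)
  obtain ⟨b, hb, hbe⟩ := h6
  refine ⟨b, hb, fun σ hσ τ hτ => ?_⟩
  have h10 := hbe σ (h7 hσ) τ (h7 hτ)
  rw [← h10]
  show (c : ℕ → (Ω ≃ₐ[K] Ω) → (Ω ≃ₐ[K] Ω) → Ωˣ) n σ τ ^ (m * ((1 : ℕ) : ℤ) ^ 0) * b (σ * τ) =
    C n (rsh K σ) (rsh K τ) ^ m * b (σ * τ)
  rw [pow_zero, mul_one, hCc]

/-- a field fixed by the automorphisms which fix `L` -/
theorem inj_one (K L : IntermediateField k Ω) (hKfg : K.FG) (hLfg : L.FG)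
    (hK : ∀ x : Ω, IsAlgebraic K x) (hL : ∀ x : Ω, IsAlgebraic L x)
    (h : Fx k (L : Set Ω) ≤ Fx k (K : Set Ω)) {ℓ : ℕ} (hℓ : ℓ.Prime) :
    ∃ f : Vl k K Ω ℓ →* Vl k L Ω ℓ, Function.Injective f := by
  obtain ⟨m, S, hm, hf⟩ := inv_fam K L hKfg hLfg hK hL (ι := Unit) (fun _ => 1) (fun _ => 1)
    (fun g hg => ⟨1, fun _ => ⟨rfl, fun x hx => h hg x hx⟩⟩)
  obtain ⟨f, hf⟩ := hf ℓ
  refine ⟨f, (injective_iff_map_eq_one f).2 fun a ha => ?_⟩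
  obtain ⟨c, rfl⟩ := QuotientGroup.mk_surjective a
  obtain ⟨C, hC, hCc⟩ := sysK K hK ℓ c c.2
  have h1 := hf c C hC hCc ha
  refine mk_one_of_tors K hK hℓ m (by exact_mod_cast hm.ne') S c C hCc fun n => ?_
  refine (h1 n).congr fun σ _ τ _ => ?_
  rw [Fintype.prod_unique, zpow_one, zpow_natCast]
  rfl

/-- the automorphisms which fix `L` preserve the pair of embeddings `s`, `t` of `K` -/
def Prs (L K : Set Ω) (s t : Ω ≃ₐ[k] Ω) : Prop := ∀ g ∈ Fx k L,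
  (∀ x ∈ K, g (s x) = s x ∧ g (t x) = t x) ∨ (∀ x ∈ K, g (s x) = t x ∧ g (t x) = s x)

omit [IsAlgClosed Ω] in
theorem inv_pair (K L : IntermediateField k Ω) (hKfg : K.FG) (hLfg : L.FG)
    (hK : ∀ x : Ω, IsAlgebraic K x) (hL : ∀ x : Ω, IsAlgebraic L x) (s t : Ω ≃ₐ[k] Ω)
    (h : Prs (L : Set Ω) (K : Set Ω) s t) :
    ∃ (m : ℕ) (S : Finset Ω), 0 < m ∧ ∀ ℓ : ℕ, ∃ f : Vl k K Ω ℓ →* Vl k L Ω ℓ,
      ∀ (c : sysG k K Ω ℓ) (C : ℕ → (Ω ≃ₐ[k] Ω) → (Ω ≃ₐ[k] Ω) → Ωˣ), SysU (K : Set Ω) ℓ C →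
        (∀ n σ τ, C n (rsh K σ) (rsh K τ) =
          (c : ℕ → (Ω ≃ₐ[K] Ω) → (Ω ≃ₐ[K] Ω) → Ωˣ) n σ τ) →
        f (QuotientGroup.mk c) = 1 →
          ∀ n, Tri (Ge k (S : Set Ω)) (fun σ τ => (cj s (C n) σ τ * cj t (C n) σ τ) ^ m) := by
  obtain ⟨m, S, hm, hf⟩ := inv_fam K L hKfg hLfg hK hL (ι := Bool)
    (fun b => if b then s else t) (fun _ => 1) (fun g hg => by
      rcases h g hg with h1 | h1
      · refine ⟨1, fun b => ⟨rfl, fun x hx => ?_⟩⟩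
        cases b
        · exact (h1 x hx).2
        · exact (h1 x hx).1
      · refine ⟨Equiv.boolNot, fun b => ⟨rfl, fun x hx => ?_⟩⟩
        cases b
        · exact (h1 x hx).2
        · exact (h1 x hx).1)
  refine ⟨m, S, hm, fun ℓ => ?_⟩
  obtain ⟨f, hf⟩ := hf ℓ
  refine ⟨f, fun c C hC hCc h1 n => ?_⟩
  refine (hf c C hC hCc h1 n).congr fun σ _ τ _ => ?_
  congr 1
  rw [Fintype.prod_bool, zpow_one, zpow_one]
  rfl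

theorem inj_three (K : IntermediateField k Ω) (L : Fin 3 → IntermediateField k Ω) (hKfg : K.FG)
    (hLfg : ∀ i, (L i).FG) (hK : ∀ x : Ω, IsAlgebraic K x)
    (hL : ∀ i, ∀ x : Ω, IsAlgebraic (L i) x) (t₁ t₂ : Ω ≃ₐ[k] Ω)
    (h₀ : Prs (L 0 : Set Ω) (K : Set Ω) 1 t₁) (h₁ : Prs (L 1 : Set Ω) (K : Set Ω) 1 t₂)
    (h₂ : Prs (L 2 : Set Ω) (K : Set Ω) t₁ t₂) {ℓ : ℕ} (hℓ : ℓ.Prime) :
    ∃ f : Vl k K Ω ℓ →* (∀ i, Vl k (L i) Ω ℓ), Function.Injective f := by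
  classical
  obtain ⟨m₀, S₀, hm₀, hf₀⟩ := inv_pair K (L 0) hKfg (hLfg 0) hK (hL 0) 1 t₁ h₀
  obtain ⟨m₁, S₁, hm₁, hf₁⟩ := inv_pair K (L 1) hKfg (hLfg 1) hK (hL 1) 1 t₂ h₁
  obtain ⟨m₂, S₂, hm₂, hf₂⟩ := inv_pair K (L 2) hKfg (hLfg 2) hK (hL 2) t₁ t₂ h₂
  obtain ⟨f₀, hf₀⟩ := hf₀ ℓ
  obtain ⟨f₁, hf₁⟩ := hf₁ ℓ
  obtain ⟨f₂, hf₂⟩ := hf₂ ℓ
  let g : ∀ i, Vl k K Ω ℓ →* Vl k (L i) Ω ℓ := Fin.cons f₀ (Fin.cons f₁ (Fin.cons f₂ finZeroElim))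
  refine ⟨MonoidHom.mk' (fun a i => g i a) fun a b => funext fun i => map_mul (g i) a b,
    (injective_iff_map_eq_one _).2 fun a ha => ?_⟩
  obtain ⟨c, rfl⟩ := QuotientGroup.mk_surjective a
  obtain ⟨C, hC, hCc⟩ := sysK K hK ℓ c c.2
  have ha₀ : f₀ (QuotientGroup.mk c) = 1 := congrFun ha 0
  have ha₁ : f₁ (QuotientGroup.mk c) = 1 := congrFun ha 1
  have ha₂ : f₂ (QuotientGroup.mk c) = 1 := congrFun ha 2
  have e₀ := hf₀ c C hC hCc ha₀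
  have e₁ := hf₁ c C hC hCc ha₁
  have e₂ := hf₂ c C hC hCc ha₂
  have hmm : 0 < m₀ * m₁ * m₂ := Nat.mul_pos (Nat.mul_pos hm₀ hm₁) hm₂
  refine mk_one_of_tors K hK hℓ (2 * ((m₀ * m₁ * m₂ : ℕ) : ℤ))
    (mul_ne_zero two_ne_zero (by exact_mod_cast hmm.ne')) (S₀ ∪ S₁ ∪ S₂) c C hCc fun n => ?_
  have hG : ∀ T : Finset Ω, T ⊆ S₀ ∪ S₁ ∪ S₂ →
      Ge k ((S₀ ∪ S₁ ∪ S₂ : Finset Ω) : Set Ω) ≤ Ge k (T : Set Ω) := fun T hT =>
    Ge_mono (Finset.coe_subset.2 hT)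
  have e₀' := ((e₀ n).mono (hG S₀ (Finset.subset_union_left.trans
    Finset.subset_union_left))).zpow ((m₁ * m₂ : ℕ) : ℤ)
  have e₁' := ((e₁ n).mono (hG S₁ (Finset.subset_union_right.trans
    Finset.subset_union_left))).zpow ((m₀ * m₂ : ℕ) : ℤ)
  have e₂' := ((e₂ n).mono (hG S₂ Finset.subset_union_right)).zpow (-((m₀ * m₁ : ℕ) : ℤ))
  refine ((e₀'.mul e₁').mul e₂').congr fun σ _ τ _ => ?_
  have e1 : cj (1 : Ω ≃ₐ[k] Ω) (C n) σ τ = C n σ τ := by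
    show (1 : Ω ≃ₐ[k] Ω) • C n ((1 : Ω ≃ₐ[k] Ω)⁻¹ * σ * 1) ((1 : Ω ≃ₐ[k] Ω)⁻¹ * τ * 1) = _
    rw [inv_one, one_mul, mul_one, one_mul, mul_one, one_smul]
  rw [e1]
  generalize cj t₁ (C n) σ τ = x
  generalize cj t₂ (C n) σ τ = y
  generalize C n σ τ = w
  have h1 : ((w * x) ^ m₀) ^ ((m₁ * m₂ : ℕ) : ℤ) = (w * x) ^ ((m₀ * m₁ * m₂ : ℕ) : ℤ) := by
    rw [zpow_natCast, zpow_natCast, ← pow_mul]
    congr 1
    ring
  have h2 : ((w * y) ^ m₁) ^ ((m₀ * m₂ : ℕ) : ℤ) = (w * y) ^ ((m₀ * m₁ * m₂ : ℕ) : ℤ) := by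
    rw [zpow_natCast, zpow_natCast, ← pow_mul]
    congr 1
    ring
  have h3 : ((x * y) ^ m₂) ^ (-((m₀ * m₁ : ℕ) : ℤ)) =
      ((x * y) ^ ((m₀ * m₁ * m₂ : ℕ) : ℤ))⁻¹ := by
    rw [zpow_neg, zpow_natCast, zpow_natCast, ← pow_mul]
    congr 2
    ring
  rw [h1, h2, h3, ← mul_zpow, ← inv_zpow, ← mul_zpow, zpow_mul]
  congr 1
  rw [zpow_ofNat, pow_two, mul_inv]
  calc w * x * (w * y) * (x⁻¹ * y⁻¹) = w * w * (x * x⁻¹) * (y * y⁻¹) := by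
        apply Additive.ofMul.injective
        simp only [ofMul_mul, ofMul_inv]
        abel
    _ = w * w := by rw [mul_inv_cancel, mul_inv_cancel, mul_one, mul_one]

end Pool.Agent.NOC
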