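import Pool.Agent.NOC.Iso

/-!
# Kummer covers branched over a small number of points of each line
-/

set_option autoImplicit false

namespace Pool.Agent.NOC

open Pool.Agent.TBR Cardinal Algebra

universe u

section

variable {k M : Type u} [Field k] [Field M] [Algebra k M]

/-- the restriction of a polynomial to a line -/
theorem exists_restrict (κ : IntermediateField k M) (y α β : Fin 2 → M) (u : M)
    (hα : ∀ i, α i ∈ κ) (hβ : ∀ i, β i ∈ κ) (hyu : ∀ i, y i = α i + β i * u)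
    (h : MvPolynomial (Fin 2) k) :
    ∃ p : Polynomial κ, p.natDegree ≤ h.totalDegree ∧
      Polynomial.aeval u p = MvPolynomial.aeval y h := by
  let f : Fin 2 → Polynomial κ := fun i =>
    Polynomial.C ⟨α i, hα i⟩ + Polynomial.C ⟨β i, hβ i⟩ * Polynomial.X
  have hf : ∀ i, (f i).natDegree ≤ 1 := by
    intro i
    refine (Polynomial.natDegree_add_le _ _).trans (max_le ?_ ?_)
    · rw [Polynomial.natDegree_C]
      exact Nat.zero_le _
    · exact (Polynomial.natDegree_C_mul_le _ _).trans Polynomial.natDegree_X_le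
  refine ⟨MvPolynomial.aeval f (MvPolynomial.map (algebraMap k κ) h), ?_, ?_⟩
  · have h0 : (MvPolynomial.map (algebraMap k κ) h).totalDegree ≤ h.totalDegree := by
      unfold MvPolynomial.totalDegree
      exact Finset.sup_mono (MvPolynomial.support_map_subset _ _)
    have h1 := MvPolynomial.aeval_natDegree_le (m := h.totalDegree) (n := 1)
      (MvPolynomial.map (algebraMap k κ) h) h0 f hf
    rwa [mul_one] at h1
  · have h1 := MvPolynomial.comp_aeval_apply (R := κ) (f := f) (Polynomial.aeval u)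
      (MvPolynomial.map (algebraMap k κ) h)
    have h2 : (Polynomial.aeval u) (MvPolynomial.aeval f (MvPolynomial.map (algebraMap k κ) h)) =
        MvPolynomial.aeval (fun i => Polynomial.aeval u (f i))
          (MvPolynomial.map (algebraMap k κ) h) := h1
    rw [h2, MvPolynomial.aeval_map_algebraMap]
    congr 2
    funext i
    rw [hyu]
    simp only [f, map_add, map_mul, Polynomial.aeval_C, Polynomial.aeval_X]
    rfl

theorem prod_two (u ρ₁ ρ₂ : M) (s : Multiset M) (hs : ∀ ρ ∈ s, ρ = ρ₁ ∨ ρ = ρ₂) :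
    ∃ a b : ℕ, (s.map (fun ρ => u - ρ)).prod = (u - ρ₁) ^ a * (u - ρ₂) ^ b := by
  induction s using Multiset.induction_on with
  | empty => exact ⟨0, 0, by simp⟩
  | cons ρ s ih =>
    obtain ⟨a, b, hab⟩ := ih fun ρ' h => hs ρ' (Multiset.mem_cons_of_mem h)
    rw [Multiset.map_cons, Multiset.prod_cons, hab]
    rcases hs ρ (Multiset.mem_cons_self _ _) with h | h
    · exact ⟨a + 1, b, by rw [h]; ring⟩
    · exact ⟨a, b + 1, by rw [h]; ring⟩

theorem prod_three (u ρ₁ ρ₂ ρ₃ : M) (s : Multiset M)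
    (hs : ∀ ρ ∈ s, ρ = ρ₁ ∨ ρ = ρ₂ ∨ ρ = ρ₃) :
    ∃ a b c : ℕ, a + b + c = s.card ∧
      (s.map (fun ρ => u - ρ)).prod = (u - ρ₁) ^ a * (u - ρ₂) ^ b * (u - ρ₃) ^ c := by
  induction s using Multiset.induction_on with
  | empty => exact ⟨0, 0, 0, by simp, by simp⟩
  | cons ρ s ih =>
    obtain ⟨a, b, c, h1, hab⟩ := ih fun ρ' h => hs ρ' (Multiset.mem_cons_of_mem h)
    rw [Multiset.map_cons, Multiset.prod_cons, hab, Multiset.card_cons]
    rcases hs ρ (Multiset.mem_cons_self _ _) with h | h | h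
    · exact ⟨a + 1, b, c, by omega, by rw [h]; ring⟩
    · exact ⟨a, b + 1, c, by omega, by rw [h]; ring⟩
    · exact ⟨a, b, c + 1, by omega, by rw [h]; ring⟩

theorem aeval_roots (κ : IntermediateField k M) (hκ : IsAlgClosed κ) (p : Polynomial κ) (u : M) :
    Polynomial.aeval u p = (p.leadingCoeff : M) *
      ((p.roots.map (fun ρ : κ => (ρ : M))).map (fun ρ => u - ρ)).prod := by
  conv_lhs => rw [(IsAlgClosed.splits p).eq_prod_roots]
  rw [map_mul, Polynomial.aeval_C, map_multiset_prod, Multiset.map_map, Multiset.map_map]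
  congr 2
  refine Multiset.map_congr rfl fun ρ _ => ?_
  show Polynomial.aeval u (Polynomial.X - Polynomial.C ρ) = u - ρ
  rw [map_sub, Polynomial.aeval_X, Polynomial.aeval_C]
  rfl

/-- the normal form of the polynomials which are restricted to a line -/
theorem exists_normal (κ : IntermediateField k M) (hκ : IsAlgClosed κ) (G₀ : Finset M)
    (hG₀ : ∀ x ∈ G₀, x ∈ κ) (u : M) (hu : u ∉ κ) {n : ℕ} (p : Fin n → Polynomial κ)
    (hp0 : ∀ i, p i ≠ 0) (hdeg : ∑ i, (p i).natDegree ≤ 3) :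
    ∃ (G : Finset M) (r w : M) (lam : Fin n → M) (a b D : Fin n → ℕ), G₀ ⊆ G ∧
      (∀ x ∈ G, x ∈ κ) ∧ r ≠ 0 ∧ r - 1 ≠ 0 ∧ w ≠ 0 ∧
      u ∈ IntermediateField.adjoin k ((G : Set M) ∪ {r}) ∧
      w ∈ IntermediateField.adjoin k ((G : Set M) ∪ {r}) ∧
      (∀ i, lam i ∈ κ) ∧ (∀ i, lam i ≠ 0) ∧
      (∀ i, Polynomial.aeval u (p i) = lam i * r ^ a i * (r - 1) ^ b i * w ^ D i) ∧
      ((∀ i, D i = 0) ∨ (∀ i, D i = (p i).natDegree) ∧ ∑ i, (p i).natDegree = 3) := by
  classical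
  have hlc : ∀ i, ((p i).leadingCoeff : M) ≠ 0 := fun i h =>
    hp0 i (Polynomial.leadingCoeff_eq_zero.1 (Subtype.ext h))
  have huκ : ∀ ρ : κ, u - ρ ≠ 0 := fun ρ h => hu (by rw [sub_eq_zero.1 h]; exact ρ.2)
  obtain ⟨R, hR⟩ : ∃ R : Finset κ, R = Finset.univ.biUnion fun i => (p i).roots.toFinset :=
    ⟨_, rfl⟩
  have hcard : R.card ≤ ∑ i, (p i).natDegree := by
    rw [hR]
    refine Finset.card_biUnion_le.trans (Finset.sum_le_sum fun i _ => ?_)
    exact (Multiset.toFinset_card_le _).trans (Polynomial.card_roots' _)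
  have hmem : ∀ i, ∀ ρ ∈ (p i).roots, ρ ∈ R := by
    intro i ρ hρ
    rw [hR]
    exact Finset.mem_biUnion.2 ⟨i, Finset.mem_univ _, Multiset.mem_toFinset.2 hρ⟩
  by_cases h2 : R.card ≤ 2
  · have : Infinite κ := IsAlgClosed.instInfinite
    obtain ⟨T, hRT, hT⟩ := Infinite.exists_superset_card_eq R 2 h2
    obtain ⟨ρ₁, ρ₂, hne, rfl⟩ := Finset.card_eq_two.1 hT
    have hc : (ρ₂ : M) - ρ₁ ≠ 0 := by
      intro h
      exact hne (Subtype.ext (sub_eq_zero.1 h).symm)
    have hpi : ∀ i, ∃ a b : ℕ, Polynomial.aeval u (p i) =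
        (p i).leadingCoeff * ((u - ρ₁) ^ a * (u - ρ₂) ^ b) := by
      intro i
      obtain ⟨a, b, hab⟩ := prod_two u (ρ₁ : M) ρ₂ ((p i).roots.map (fun ρ : κ => (ρ : M))) (by
        intro ρ hρ
        obtain ⟨ρ', hρ', rfl⟩ := Multiset.mem_map.1 hρ
        have h3 := hRT (hmem i ρ' hρ')
        rw [Finset.mem_insert, Finset.mem_singleton] at h3
        rcases h3 with h3 | h3
        · exact Or.inl (congrArg Subtype.val h3)
        · exact Or.inr (congrArg Subtype.val h3))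
      exact ⟨a, b, by rw [aeval_roots κ hκ, hab]⟩
    choose a b hab using hpi
    obtain ⟨r, hr⟩ : ∃ r, r = (u - ρ₁) / ((ρ₂ : M) - ρ₁) := ⟨_, rfl⟩
    have e1 : u - ρ₁ = ((ρ₂ : M) - ρ₁) * r := by
      rw [hr]
      field_simp
    have e2 : u - ρ₂ = ((ρ₂ : M) - ρ₁) * (r - 1) := by
      rw [mul_sub, ← e1]
      ring
    have hr0 : r ≠ 0 := by
      intro h
      rw [h, mul_zero] at e1
      exact huκ ρ₁ e1
    have hr1 : r - 1 ≠ 0 := by
      intro h
      rw [h, mul_zero] at e2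
      exact huκ ρ₂ e2
    refine ⟨G₀ ∪ {(ρ₁ : M), (ρ₂ : M)}, r, 1, fun i => (p i).leadingCoeff *
      ((ρ₂ : M) - ρ₁) ^ (a i + b i), a, b, fun _ => 0, Finset.subset_union_left, ?_, hr0, hr1,
      one_ne_zero, ?_, one_mem _, fun i => ?_, fun i => mul_ne_zero (hlc i) (pow_ne_zero _ hc),
      fun i => ?_, Or.inl fun _ => rfl⟩
    · intro x hx
      rw [Finset.mem_union, Finset.mem_insert, Finset.mem_singleton] at hx
      rcases hx with hx | rfl | rfl
      · exact hG₀ x hx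
      · exact ρ₁.2
      · exact ρ₂.2
    · have h1 : (ρ₁ : M) ∈ IntermediateField.adjoin k
          (((G₀ ∪ {(ρ₁ : M), (ρ₂ : M)} : Finset M) : Set M) ∪ {r}) :=
        IntermediateField.subset_adjoin k _ (Or.inl (by simp))
      have h2 : (ρ₂ : M) ∈ IntermediateField.adjoin k
          (((G₀ ∪ {(ρ₁ : M), (ρ₂ : M)} : Finset M) : Set M) ∪ {r}) :=
        IntermediateField.subset_adjoin k _ (Or.inl (by simp))
      have h3 : r ∈ IntermediateField.adjoin k
          (((G₀ ∪ {(ρ₁ : M), (ρ₂ : M)} : Finset M) : Set M) ∪ {r}) :=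
        IntermediateField.subset_adjoin k _ (Or.inr rfl)
      have h4 : u = ρ₁ + ((ρ₂ : M) - ρ₁) * r := by
        rw [← e1]
        ring
      rw [h4]
      exact add_mem h1 (mul_mem (sub_mem h2 h1) h3)
    · exact mul_mem (SetLike.coe_mem _) (pow_mem (sub_mem ρ₂.2 ρ₁.2) _)
    · show _ = _ * ((ρ₂ : M) - ρ₁) ^ (a i + b i) * r ^ a i * (r - 1) ^ b i * 1 ^ 0
      rw [hab, e1, e2, mul_pow, mul_pow, pow_add]
      ring
  · have h3 : ∑ i, (p i).natDegree = 3 := by omega
    have h3' : R.card = 3 := by omega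
    obtain ⟨ρ₁, ρ₂, ρ₃, h12, h13, h23, hR3⟩ := Finset.card_eq_three.1 h3'
    have hc12 : (ρ₂ : M) - ρ₁ ≠ 0 := fun h => h12 (Subtype.ext (sub_eq_zero.1 h).symm)
    have hc23 : (ρ₂ : M) - ρ₃ ≠ 0 := fun h => h23 (Subtype.ext (sub_eq_zero.1 h))
    have hc13 : (ρ₁ : M) - ρ₃ ≠ 0 := fun h => h13 (Subtype.ext (sub_eq_zero.1 h))
    have hpi : ∀ i, ∃ a b c : ℕ, a + b + c = (p i).natDegree ∧ Polynomial.aeval u (p i) =
        (p i).leadingCoeff * ((u - ρ₁) ^ a * (u - ρ₂) ^ b * (u - ρ₃) ^ c) := by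
      intro i
      obtain ⟨a, b, c, habc, hab⟩ := prod_three u (ρ₁ : M) ρ₂ ρ₃
        ((p i).roots.map (fun ρ : κ => (ρ : M))) (by
          intro ρ hρ
          obtain ⟨ρ', hρ', rfl⟩ := Multiset.mem_map.1 hρ
          have h4 := hmem i ρ' hρ'
          rw [hR3, Finset.mem_insert, Finset.mem_insert, Finset.mem_singleton] at h4
          rcases h4 with h4 | h4 | h4
          · exact Or.inl (congrArg Subtype.val h4)
          · exact Or.inr (Or.inl (congrArg Subtype.val h4))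
          · exact Or.inr (Or.inr (congrArg Subtype.val h4)))
      refine ⟨a, b, c, ?_, by rw [aeval_roots κ hκ, hab]⟩
      rw [habc, Multiset.card_map, (IsAlgClosed.splits (p i)).natDegree_eq_card_roots]
    choose a b c habc hab using hpi
    have hw0 : u - ρ₃ ≠ 0 := huκ ρ₃
    obtain ⟨r, hr⟩ : ∃ r, r = (u - ρ₁) * ((ρ₂ : M) - ρ₃) / ((u - ρ₃) * ((ρ₂ : M) - ρ₁)) :=
      ⟨_, rfl⟩
    obtain ⟨c₁, hc₁⟩ : ∃ c₁, c₁ = ((ρ₂ : M) - ρ₁) / ((ρ₂ : M) - ρ₃) := ⟨_, rfl⟩
    obtain ⟨c₂, hc₂⟩ : ∃ c₂, c₂ = ((ρ₂ : M) - ρ₁) / ((ρ₁ : M) - ρ₃) := ⟨_, rfl⟩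
    have e1 : u - ρ₁ = c₁ * r * (u - ρ₃) := by
      rw [hr, hc₁]
      field_simp
    have e2 : u - ρ₂ = c₂ * (r - 1) * (u - ρ₃) := by
      rw [hr, hc₂]
      field_simp
      ring
    have hr0 : r ≠ 0 := by
      intro h
      rw [h, mul_zero, zero_mul] at e1
      exact huκ ρ₁ e1
    have hr1 : r - 1 ≠ 0 := by
      intro h
      rw [h, mul_zero, zero_mul] at e2
      exact huκ ρ₂ e2
    have hc₁0 : c₁ ≠ 0 := by
      rw [hc₁]
      exact div_ne_zero hc12 hc23
    have hc₂0 : c₂ ≠ 0 := by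
      rw [hc₂]
      exact div_ne_zero hc12 hc13
    have e3 : (u - ρ₃) * (c₁ * r - 1) = (ρ₃ : M) - ρ₁ := by linear_combination -e1
    have hcr : c₁ * r - 1 ≠ 0 := by
      intro h
      rw [h, mul_zero] at e3
      apply hc13
      linear_combination e3
    have hsub : ∀ x ∈ ({(ρ₁ : M), (ρ₂ : M), (ρ₃ : M)} : Finset M), x ∈ IntermediateField.adjoin k
          (((G₀ ∪ {(ρ₁ : M), (ρ₂ : M), (ρ₃ : M)} : Finset M) : Set M) ∪ {r}) := fun x hx =>
      IntermediateField.subset_adjoin k _ (Or.inl (Finset.mem_coe.2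
        (Finset.mem_union_right _ hx)))
    have m1 := hsub (ρ₁ : M) (by simp)
    have m2 := hsub (ρ₂ : M) (by simp)
    have m3 := hsub (ρ₃ : M) (by simp)
    have mr : r ∈ IntermediateField.adjoin k
          (((G₀ ∪ {(ρ₁ : M), (ρ₂ : M), (ρ₃ : M)} : Finset M) : Set M) ∪ {r}) :=
      IntermediateField.subset_adjoin k _ (Or.inr rfl)
    have mw : u - ρ₃ ∈ IntermediateField.adjoin k
          (((G₀ ∪ {(ρ₁ : M), (ρ₂ : M), (ρ₃ : M)} : Finset M) : Set M) ∪ {r}) := by
      rw [eq_div_of_mul_eq hcr e3, hc₁]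
      exact div_mem (sub_mem m3 m1)
        (sub_mem (mul_mem (div_mem (sub_mem m2 m1) (sub_mem m2 m3)) mr) (one_mem _))
    refine ⟨G₀ ∪ {(ρ₁ : M), (ρ₂ : M), (ρ₃ : M)}, r, u - ρ₃, fun i => (p i).leadingCoeff *
      (c₁ ^ a i * c₂ ^ b i), a, b, fun i => (p i).natDegree, Finset.subset_union_left, ?_, hr0,
      hr1, hw0, ?_, mw, fun i => ?_,
      fun i => mul_ne_zero (hlc i) (mul_ne_zero (pow_ne_zero _ hc₁0) (pow_ne_zero _ hc₂0)),
      fun i => ?_, Or.inr ⟨fun _ => rfl, h3⟩⟩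
    · intro x hx
      rw [Finset.mem_union, Finset.mem_insert, Finset.mem_insert, Finset.mem_singleton] at hx
      rcases hx with hx | rfl | rfl | rfl
      · exact hG₀ x hx
      · exact ρ₁.2
      · exact ρ₂.2
      · exact ρ₃.2
    · have h4 := add_mem mw m3
      rwa [sub_add_cancel] at h4
    · rw [hc₁, hc₂]
      exact mul_mem (SetLike.coe_mem _) (mul_mem
        (pow_mem (div_mem (sub_mem ρ₂.2 ρ₁.2) (sub_mem ρ₂.2 ρ₃.2)) _)
        (pow_mem (div_mem (sub_mem ρ₂.2 ρ₁.2) (sub_mem ρ₁.2 ρ₃.2)) _))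
    · show _ = _ * r ^ a i * (r - 1) ^ b i * (u - (ρ₃ : M)) ^ (p i).natDegree
      rw [hab, ← habc]
      have e1' : (u - ρ₁) ^ a i = c₁ ^ a i * r ^ a i * (u - ρ₃) ^ a i := by
        rw [e1, mul_pow, mul_pow]
      have e2' : (u - ρ₂) ^ b i = c₂ ^ b i * (r - 1) ^ b i * (u - ρ₃) ^ b i := by
        rw [e2, mul_pow, mul_pow]
      rw [e1', e2', pow_add, pow_add]
      ring

theorem prod_zpow_sum {ι : Type*} (s : Finset ι) {x : M} (hx : x ≠ 0) (f : ι → ℤ) :
    ∏ i ∈ s, x ^ f i = x ^ ∑ i ∈ s, f i := by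
  classical
  induction s using Finset.induction_on with
  | empty => simp
  | insert i s hi ih => rw [Finset.prod_insert hi, Finset.sum_insert hi, ih, zpow_add₀ hx]

/-- **Kummer covers.** -/
theorem isoC_kummer [IsAlgClosed M] {ι : Type} [Fintype ι] {n : ℕ} {y : Fin 2 → M}
    (hy : AlgebraicIndependent k y) (h : Fin n → MvPolynomial (Fin 2) k) (h0 : ∀ i, h i ≠ 0)
    (e : ι → Fin n → ℤ) (N : ι → ℕ) (hN : ∀ j, 0 < N j) (z : ι → M)
    (hz : ∀ j, z j ^ N j = ∏ i, MvPolynomial.aeval y (h i) ^ e j i)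
    (hdeg : ∑ i, (h i).totalDegree ≤ 3)
    (hdiv : ∑ i, (h i).totalDegree ≤ 2 ∨
      ∀ j, (N j : ℤ) ∣ ∑ i, e j i * ((h i).totalDegree : ℤ)) : IsoC (k := k) y z := by
  classical
  intro κ hκ a ha0 ha hrel
  obtain ⟨α, β, u, hα, hβ, hyu⟩ := exists_param κ y a ha0 ha hrel
  by_cases hu : u ∈ κ
  · have hyκ : ∀ i, y i ∈ κ := fun i => by
      rw [hyu]
      exact add_mem (hα i) (mul_mem (hβ i) hu)
    have hzκ : ∀ j, z j ∈ κ := by
      intro j
      refine mem_of_pow_mem κ hκ (hN j) ?_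
      rw [hz]
      refine prod_mem fun i _ => zpow_mem ?_ _
      have h1 : IntermediateField.adjoin k (Set.range y) ≤ κ := by
        rw [IntermediateField.adjoin_le_iff]
        rintro _ ⟨i, rfl⟩
        exact hyκ i
      refine h1 (IntermediateField.algebra_adjoin_le_adjoin k _ ?_)
      rw [Algebra.adjoin_range_eq_range_aeval]
      exact ⟨h i, rfl⟩
    refine ⟨IntermediateField.adjoin k (Set.range y ∪ Set.range z), ⊥,
      IntermediateField.fg_adjoin_of_finite ((Set.finite_range y).union (Set.finite_range z)), ?_,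
      IntermediateField.fg_bot, ?_, fun i => ?_, fun j => ?_⟩
    · rw [IntermediateField.adjoin_le_iff]
      rintro _ (⟨i, rfl⟩ | ⟨j, rfl⟩)
      · exact hyκ i
      · exact hzκ j
    · have h1 : Algebra.trdeg k (⊥ : IntermediateField k M) = 0 := by
        have : Algebra.IsAlgebraic k (⊥ : IntermediateField k M) := inferInstance
        exact trdeg_eq_zero
      rw [h1]
      exact zero_le_one
    · exact (le_sup_left : IntermediateField.adjoin k (Set.range y ∪ Set.range z) ≤ _)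
        (IntermediateField.subset_adjoin k _ (Or.inl ⟨i, rfl⟩))
    · exact (le_sup_left : IntermediateField.adjoin k (Set.range y ∪ Set.range z) ≤ _)
        (IntermediateField.subset_adjoin k _ (Or.inr ⟨j, rfl⟩))
  · choose p hpd hp using fun i => exists_restrict κ y α β u hα hβ hyu (h i)
    have hpu : ∀ i, Polynomial.aeval u (p i) ≠ 0 := by
      intro i h1
      rw [hp] at h1
      exact h0 i ((map_eq_zero_iff _ hy).1 h1)
    have hp0 : ∀ i, p i ≠ 0 := by
      intro i h1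
      apply hpu i
      rw [h1, map_zero]
    have hsum : ∑ i, (p i).natDegree ≤ ∑ i, (h i).totalDegree :=
      Finset.sum_le_sum fun i _ => hpd i
    obtain ⟨G, r, w, lam, A, B, D, hG₀, hG, hr0, hr1, hw0, hu', hw, hl, hl0, hpl, hD⟩ :=
      exists_normal κ hκ (Finset.univ.image α ∪ Finset.univ.image β) (by
        intro x hx
        rw [Finset.mem_union, Finset.mem_image, Finset.mem_image] at hx
        rcases hx with ⟨i, -, rfl⟩ | ⟨i, -, rfl⟩
        · exact hα i
        · exact hβ i) u hu p hp0 (hsum.trans hdeg)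
    have hdvd : ∀ j, (N j : ℤ) ∣ ∑ i, e j i * (D i : ℤ) := by
      intro j
      rcases hD with hD | ⟨hD, hD3⟩
      · have h1 : ∑ i, e j i * (D i : ℤ) = 0 := by
          refine Finset.sum_eq_zero fun i _ => ?_
          rw [hD i, Nat.cast_zero, mul_zero]
        rw [h1]
        exact dvd_zero _
      · have h1 : ∀ i, (p i).natDegree = (h i).totalDegree := by
          have h2 : ∑ i, (p i).natDegree = ∑ i, (h i).totalDegree :=
            le_antisymm hsum (by rw [hD3]; exact hdeg)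
          intro i
          exact (Finset.sum_eq_sum_iff_of_le fun i _ => hpd i).1 h2 i (Finset.mem_univ i)
        rcases hdiv with h2 | h2
        · omega
        · have h3 : ∑ i, e j i * (D i : ℤ) = ∑ i, e j i * ((h i).totalDegree : ℤ) :=
            Finset.sum_congr rfl fun i _ => by rw [hD i, h1 i]
          rw [h3]
          exact h2 j
    choose q hq using hdvd
    refine iso_finish κ hκ G hG r w hr0 hr1 hw0 y (fun i => ?_) hw z N hN
      (fun j => ∏ i, lam i ^ e j i) (fun j => prod_mem fun i _ => zpow_mem (hl i) _)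
      (fun j => Finset.prod_ne_zero_iff.2 fun i _ => zpow_ne_zero _ (hl0 i))
      (fun j => ∑ i, (A i : ℤ) * e j i) (fun j => ∑ i, (B i : ℤ) * e j i) q (fun j => ?_)
    · have h1 : ∀ x ∈ Finset.univ.image α ∪ Finset.univ.image β,
          x ∈ IntermediateField.adjoin k ((G : Set M) ∪ {r}) := fun x hx =>
        IntermediateField.subset_adjoin k _ (Or.inl (Finset.mem_coe.2 (hG₀ hx)))
      rw [hyu]
      exact add_mem (h1 _ (by simp)) (mul_mem (h1 _ (by simp)) hu')
    · rw [hz]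
      have h1 : ∀ i, MvPolynomial.aeval y (h i) ^ e j i = lam i ^ e j i *
          r ^ ((A i : ℤ) * e j i) * (r - 1) ^ ((B i : ℤ) * e j i) * w ^ (e j i * (D i : ℤ)) := by
        intro i
        rw [← hp, hpl, mul_zpow, mul_zpow, mul_zpow, ← zpow_natCast r, ← zpow_natCast (r - 1),
          ← zpow_natCast w, ← zpow_mul, ← zpow_mul, ← zpow_mul, mul_comm (e j i) (D i : ℤ)]
      rw [Finset.prod_congr rfl fun i _ => h1 i, Finset.prod_mul_distrib,
        Finset.prod_mul_distrib, Finset.prod_mul_distrib, prod_zpow_sum _ hr0,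
        prod_zpow_sum _ hr1, prod_zpow_sum _ hw0, hq, mul_comm (N j : ℤ), zpow_mul, zpow_natCast]

end

end Pool.Agent.NOC
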