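import Pool.Agent.NOC.Conf
import Pool.Agent.NOC.Asm
import Pool.Agent.NOC.Kum

set_option maxSynthPendingDepth 3

private theorem noc_main_tf_field (K L : Type*) [Field K] [Field L] [Algebra K L] :
    Module.IsTorsionFree K L := inferInstance

private theorem noc_main_fs_field (K L : Type*) [Field K] [Field L] [Algebra K L] :
    FaithfulSMul K L := inferInstance

attribute [local instance 5000] noc_main_tf_field noc_main_fs_field


/-!
# The main theorem for nets of conics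
-/

set_option autoImplicit false

namespace Pool.Agent.NOC

open Pool.Agent.TBR Pool.Agent.TUQ Cardinal Algebra

universe u

section

variable {k M : Type u} [Field k] [Field M] [Algebra k M]

theorem trdeg_of_alg (E K : IntermediateField k M) (h : ∀ x ∈ K, IsAlgebraic E x) :
    Algebra.trdeg k K ≤ Algebra.trdeg k E := by
  set A := algebraicClosure E M with hA
  have h1 : Algebra.trdeg k A = Algebra.trdeg k E := by
    have h3 := trdeg_add_eq k E (A := A)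
    have h4 : Algebra.trdeg E A = 0 := trdeg_eq_zero
    rw [← h3, h4, add_zero]
  have h2 : K ≤ A.restrictScalars k := fun a ha => mem_algebraicClosure_iff.2 (h a ha)
  rw [← h1]
  exact trdeg_le_of_injective (IntermediateField.inclusion h2)
    (IntermediateField.inclusion_injective h2)

theorem trdeg_le_two {P : Fin 2 → M}
    (hM : ∀ x : M, IsAlgebraic (IntermediateField.adjoin k (Set.range P)) x) :
    Algebra.trdeg k M ≤ 2 := by
  have h1 := T1B.trdeg_le_mk (Set.range P) (⊤ : IntermediateField k M) fun x _ => hM x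
  have h2 : #(Set.range P) ≤ 2 := by
    have h3 := Cardinal.mk_range_le_lift (f := P)
    rw [Cardinal.mk_fin, Cardinal.lift_natCast, Cardinal.lift_id'] at h3
    exact_mod_cast h3
  refine le_trans ?_ (h1.trans h2)
  exact trdeg_le_of_injective (IntermediateField.topEquiv (F := k) (E := M)).symm.toAlgHom
    (IntermediateField.topEquiv (F := k) (E := M)).symm.injective

/-- the two curves of a line -/
theorem exists_curves [IsAlgClosed M] {ι : Type} {y : Fin 2 → M} {z : ι → M}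
    (hiso : IsoC (k := k) y z) (E : IntermediateField k M) (hfg : E.FG)
    (htr : Algebra.trdeg k E ≤ 1)
    (hker : ∃ a : Fin 3 → M, a ≠ 0 ∧ (∀ i, a i ∈ E) ∧ a 0 + a 1 * y 0 + a 2 * y 1 = 0) :
    ∃ K₁ K₂ : IntermediateField k M, K₁.FG ∧ K₂.FG ∧ Algebra.trdeg k K₁ ≤ 1 ∧
      Algebra.trdeg k K₂ ≤ 1 ∧ E ≤ K₁ ⊔ K₂ ∧ (∀ i, y i ∈ K₁ ⊔ K₂) ∧ ∀ j, z j ∈ K₁ ⊔ K₂ := by
  obtain ⟨a, ha0, ha, hrel⟩ := hker
  obtain ⟨κ, hκ⟩ : ∃ κ, κ = (algebraicClosure E M).restrictScalars k := ⟨_, rfl⟩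
  have hEκ : E ≤ κ := by
    intro x hx
    rw [hκ]
    exact mem_algebraicClosure_iff.2 (isAlgebraic_algebraMap (⟨x, hx⟩ : E))
  have hcl : IsAlgClosed κ := by
    rw [hκ]
    exact (algebraicClosure.isAlgClosure E M).isAlgClosed
  obtain ⟨K₁, K₂, h1, h2, h3, h4, h5, h6⟩ := hiso κ hcl a ha0 (fun i => hEκ (ha i)) hrel
  have hle : K₁ ⊔ K₂ ≤ (K₁ ⊔ E) ⊔ K₂ := sup_le_sup_right le_sup_left _
  refine ⟨K₁ ⊔ E, K₂, IntermediateField.fg_sup h1 hfg, h3, ?_, h4, ?_, fun i => hle (h5 i),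
    fun j => hle (h6 j)⟩
  · refine (trdeg_of_alg E (K₁ ⊔ E) fun x hx => ?_).trans htr
    have h7 : K₁ ⊔ E ≤ κ := sup_le h2 hEκ
    have h8 := h7 hx
    rw [hκ] at h8
    exact mem_algebraicClosure_iff.1 h8
  · exact le_sup_right.trans le_sup_left

theorem agree_adjoin (s t g : M ≃ₐ[k] M) (S : Set M) (h : ∀ x ∈ S, g (s x) = t x) :
    ∀ x ∈ IntermediateField.adjoin k S, g (s x) = t x := by
  have h1 : t⁻¹ * (g * s) ∈ Fx k S := by
    intro x hx
    show t⁻¹ (g (s x)) = x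
    rw [h x hx]
    exact t.symm_apply_apply x
  rw [← Fx_adjoin] at h1
  intro x hx
  have h2 : t⁻¹ (g (s x)) = x := h1 x hx
  conv_rhs => rw [← h2]
  exact (t.apply_symm_apply _).symm

/-- **Main theorem.** -/
theorem main_abs [IsAlgClosed M] (htr : Algebra.trdeg k M ≤ 2) {c : Fin 3 → Fin 6 → k}
    {y P : Fin 2 → M} (hy : AlgebraicIndependent k y) (hP : Fb c y P) {ι : Type} [Finite ι]
    (z : ι → M) (hiso : IsoC (k := k) y z) :
    ∃ (m : ℕ) (K₁ K₂ : Fin m → IntermediateField k M),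
      (∀ i, (K₁ i).FG ∧ (K₂ i).FG ∧ Algebra.trdeg k (K₁ i) ≤ 1 ∧ Algebra.trdeg k (K₂ i) ≤ 1 ∧
        ∀ x : M, IsAlgebraic (K₁ i ⊔ K₂ i : IntermediateField k M) x) ∧
      ∀ ℓ : ℕ, ℓ.Prime →
        ∃ f : Vl k (IntermediateField.adjoin k (Set.range P ∪ Set.range z)) M ℓ →*
            (∀ i, Vl k (K₁ i ⊔ K₂ i : IntermediateField k M) M ℓ),
          Function.Injective f := by
  classical
  obtain ⟨K, hK⟩ : ∃ K, K = IntermediateField.adjoin k (Set.range P ∪ Set.range z) := ⟨_, rfl⟩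
  have hKfg : K.FG := by
    rw [hK]
    exact IntermediateField.fg_adjoin_of_finite ((Set.finite_range P).union (Set.finite_range z))
  have hPind : AlgebraicIndependent k P := hP.indep htr hy
  have hKalg : ∀ x : M, IsAlgebraic K x := fun x => by
    refine alg_mono ?_ (alg_of_indep htr hPind x)
    rw [hK]
    exact IntermediateField.adjoin.mono k _ _ Set.subset_union_left
  rw [← hK]
  -- the field of a line
  have halg : ∀ L : IntermediateField k M, (∀ i, y i ∈ L) → ∀ x : M, IsAlgebraic L x := by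
    intro L hL x
    refine alg_mono ?_ (alg_of_indep htr hy x)
    rw [IntermediateField.adjoin_le_iff]
    rintro _ ⟨i, rfl⟩
    exact hL i
  -- the first case
  have hone : ∀ E : IntermediateField k M, E.FG → Algebra.trdeg k E ≤ 1 →
      (∃ a : Fin 3 → M, a ≠ 0 ∧ (∀ i, a i ∈ E) ∧ a 0 + a 1 * y 0 + a 2 * y 1 = 0) →
      (∀ g ∈ Fx k (E : Set M), (∀ i, g (y i) = y i) → (∀ j, g (z j) = z j) →
        ∀ i, g (P i) = P i) →
      ∃ (m : ℕ) (K₁ K₂ : Fin m → IntermediateField k M),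
      (∀ i, (K₁ i).FG ∧ (K₂ i).FG ∧ Algebra.trdeg k (K₁ i) ≤ 1 ∧ Algebra.trdeg k (K₂ i) ≤ 1 ∧
        ∀ x : M, IsAlgebraic (K₁ i ⊔ K₂ i : IntermediateField k M) x) ∧
      ∀ ℓ : ℕ, ℓ.Prime → ∃ f : Vl k K M ℓ →*
            (∀ i, Vl k (K₁ i ⊔ K₂ i : IntermediateField k M) M ℓ),
          Function.Injective f := by
    intro E hE1 hE2 hE3 hfix
    obtain ⟨K₁, K₂, h1, h2, h3, h4, h5, h6, h7⟩ := exists_curves hiso E hE1 hE2 hE3
    have hL := halg _ h6
    refine ⟨1, fun _ => K₁, fun _ => K₂, fun _ => ⟨h1, h2, h3, h4, hL⟩, fun ℓ hℓ => ?_⟩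
    obtain ⟨f, hf⟩ := inj_one K (K₁ ⊔ K₂) hKfg (IntermediateField.fg_sup h1 h2) hKalg hL (by
      intro g hg
      rw [hK, Fx_adjoin]
      have hgy : ∀ i, g (y i) = y i := fun i => hg _ (h6 i)
      have hgz : ∀ j, g (z j) = z j := fun j => hg _ (h7 j)
      have hgE : g ∈ Fx k (E : Set M) := fun x hx => hg x (h5 hx)
      rintro _ (⟨i, rfl⟩ | ⟨j, rfl⟩)
      · exact hfix g hgE hgy hgz i
      · exact hgz j) hℓ
    refine ⟨MonoidHom.mk' (fun a _ => f a) fun a b => funext fun _ => map_mul f a b,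
      fun a b hab => hf (congrFun hab 0)⟩
  rcases config htr hy hP with ⟨E, hE⟩ | ⟨P₁, P₂, E₀, E₁, E₂, hP₁, hP₂, hE₀, hE₁, hE₂⟩
  · exact hone E hE.fg hE.tr hE.ker fun g hg hgy _ => hE.fix g hg hgy
  -- conjugacy over `k(z)`
  by_cases hc₁ : ∃ t : M ≃ₐ[k] M, (∀ j, t (z j) = z j) ∧ ∀ i, t (P i) = P₁ i
  swap
  · refine hone E₀ hE₀.fg hE₀.tr hE₀.ker fun g hg hgy hgz => ?_
    rcases hE₀.prs g hg hgy with h | h
    · exact fun i => (h i).1
    · exact absurd ⟨g, hgz, fun i => (h i).1⟩ hc₁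
  by_cases hc₂ : ∃ t : M ≃ₐ[k] M, (∀ j, t (z j) = z j) ∧ ∀ i, t (P i) = P₂ i
  swap
  · refine hone E₁ hE₁.fg hE₁.tr hE₁.ker fun g hg hgy hgz => ?_
    rcases hE₁.prs g hg hgy with h | h
    · exact fun i => (h i).1
    · exact absurd ⟨g, hgz, fun i => (h i).1⟩ hc₂
  obtain ⟨t₁, ht₁z, ht₁⟩ := hc₁
  obtain ⟨t₂, ht₂z, ht₂⟩ := hc₂
  obtain ⟨A₀, B₀, a1, a2, a3, a4, a5, a6, a7⟩ := exists_curves hiso E₀ hE₀.fg hE₀.tr hE₀.ker
  obtain ⟨A₁, B₁, b1, b2, b3, b4, b5, b6, b7⟩ := exists_curves hiso E₁ hE₁.fg hE₁.tr hE₁.ker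
  obtain ⟨A₂, B₂, c1, c2, c3, c4, c5, c6, c7⟩ := exists_curves hiso E₂ hE₂.fg hE₂.tr hE₂.ker
  have key : ∀ (L E : IntermediateField k M) (Q R : Fin 2 → M) (s t : M ≃ₐ[k] M),
      TwoL y Q R E → E ≤ L → (∀ i, y i ∈ L) → (∀ j, z j ∈ L) → (∀ i, s (P i) = Q i) →
      (∀ i, t (P i) = R i) → (∀ j, s (z j) = z j) → (∀ j, t (z j) = z j) →
      Prs (L : Set M) (K : Set M) s t := by
    intro L E Q R s t hE hEL hyL hzL hs ht hsz htz g hg
    have hgy : ∀ i, g (y i) = y i := fun i => hg _ (hyL i)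
    have hgz : ∀ j, g (z j) = z j := fun j => hg _ (hzL j)
    have hgE : g ∈ Fx k (E : Set M) := fun x hx => hg x (hEL hx)
    rw [hK]
    rcases hE.prs g hgE hgy with h | h
    · left
      have h1 := agree_adjoin s s g (Set.range P ∪ Set.range z) (by
        rintro _ (⟨i, rfl⟩ | ⟨j, rfl⟩)
        · rw [hs]
          exact (h i).1
        · rw [hsz]
          exact hgz j)
      have h2 := agree_adjoin t t g (Set.range P ∪ Set.range z) (by
        rintro _ (⟨i, rfl⟩ | ⟨j, rfl⟩)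
        · rw [ht]
          exact (h i).2
        · rw [htz]
          exact hgz j)
      exact fun x hx => ⟨h1 x hx, h2 x hx⟩
    · right
      have h1 := agree_adjoin s t g (Set.range P ∪ Set.range z) (by
        rintro _ (⟨i, rfl⟩ | ⟨j, rfl⟩)
        · rw [hs, ht]
          exact (h i).1
        · rw [hsz, htz]
          exact hgz j)
      have h2 := agree_adjoin t s g (Set.range P ∪ Set.range z) (by
        rintro _ (⟨i, rfl⟩ | ⟨j, rfl⟩)
        · rw [ht, hs]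
          exact (h i).2
        · rw [htz, hsz]
          exact hgz j)
      exact fun x hx => ⟨h1 x hx, h2 x hx⟩
  have p₀ := key (A₀ ⊔ B₀) E₀ P P₁ 1 t₁ hE₀ a5 a6 a7 (fun _ => rfl) ht₁ (fun _ => rfl) ht₁z
  have p₁ := key (A₁ ⊔ B₁) E₁ P P₂ 1 t₂ hE₁ b5 b6 b7 (fun _ => rfl) ht₂ (fun _ => rfl) ht₂z
  have p₂ := key (A₂ ⊔ B₂) E₂ P₁ P₂ t₁ t₂ hE₂ c5 c6 c7 ht₁ ht₂ ht₁z ht₂z
  refine ⟨3, ![A₀, A₁, A₂], ![B₀, B₁, B₂], fun i => ?_, fun ℓ hℓ => ?_⟩
  · fin_cases i
    · exact ⟨a1, a2, a3, a4, halg _ a6⟩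
    · exact ⟨b1, b2, b3, b4, halg _ b6⟩
    · exact ⟨c1, c2, c3, c4, halg _ c6⟩
  · exact inj_three K (fun i => ![A₀, A₁, A₂] i ⊔ ![B₀, B₁, B₂] i) hKfg (fun i => by
      fin_cases i
      · exact IntermediateField.fg_sup a1 a2
      · exact IntermediateField.fg_sup b1 b2
      · exact IntermediateField.fg_sup c1 c2) hKalg (fun i => by
      fin_cases i
      · exact halg _ a6
      · exact halg _ b6
      · exact halg _ c6) t₁ t₂ p₀ p₁ p₂ hℓ

end

end Pool.Agent.NOC
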