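import Pool.Agent.TUQ.Vl

/-!
# Embeddings of the groups of unramified invariant elements, in terms of systems of cochains
-/

set_option autoImplicit false

namespace Pool.Agent.NOC

universe u

open Pool.Agent.T1B Pool.Agent.TUQ

/-- `V_ℓ(K)` is isomorphic to a subgroup of the product of the `V_ℓ(L i)`: there is a map `Ψ` which
assigns to the systems `c` which represent unramified invariant elements of `T_ℓ Br(K k^s)` such
systems for the fields `L i`; it is additive up to trivial systems, and `Ψ c` is trivial iff `c` is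
trivial. -/
def Embeds (k : Type u) {M : Type u} [Field k] [Field M] [Algebra k M] (ℓ : ℕ)
    (K : IntermediateField k M) {m : ℕ} (L : Fin m → IntermediateField k M) : Prop :=
  ∃ Ψ : (ℕ → (M ≃ₐ[K] M) → (M ≃ₐ[K] M) → Mˣ) → ∀ i, ℕ → (M ≃ₐ[L i] M) → (M ≃ₐ[L i] M) → Mˣ,
    (∀ c, Sys k ℓ c → ∀ i, Sys k ℓ (Ψ c i)) ∧
    (∀ c c', Sys k ℓ c → Sys k ℓ c' → ∀ i n, Triv (geo k (L i) M)
      (fun σ τ => Ψ (fun n σ τ => c n σ τ * c' n σ τ) i n σ τ *
        (Ψ c i n σ τ * Ψ c' i n σ τ)⁻¹)) ∧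
    (∀ c, Sys k ℓ c → ((∀ i n, Triv (geo k (L i) M) (Ψ c i n)) ↔ ∀ n, Triv (geo k K M) (c n)))

theorem embeds_of_hom {k M : Type u} [Field k] [Field M] [Algebra k M]
    (K : IntermediateField k M) {m : ℕ} (L : Fin m → IntermediateField k M) (ℓ : ℕ)
    (h : ∃ ψ : Vl k K M ℓ →* (∀ i, Vl k (L i) M ℓ), Function.Injective ψ) :
    Embeds k ℓ K L := by
  classical
  obtain ⟨ψ, hψ⟩ := h
  let Φ : (ℕ → (M ≃ₐ[K] M) → (M ≃ₐ[K] M) → Mˣ) → ∀ i, sysG k (L i) M ℓ := fun c i =>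
    if h : Sys k ℓ c then
      (QuotientGroup.mk_surjective
        (ψ (QuotientGroup.mk (⟨c, h⟩ : sysG k K M ℓ)) i)).choose else 1
  have hΦ : ∀ (c : ℕ → (M ≃ₐ[K] M) → (M ≃ₐ[K] M) → Mˣ) (h : Sys k ℓ c) i,
      (QuotientGroup.mk (Φ c i) : Vl k (L i) M ℓ) =
        ψ (QuotientGroup.mk (⟨c, h⟩ : sysG k K M ℓ)) i := by
    intro c h i
    show (QuotientGroup.mk (if h : Sys k ℓ c then
      (QuotientGroup.mk_surjective
        (ψ (QuotientGroup.mk (⟨c, h⟩ : sysG k K M ℓ)) i)).choose else 1) : Vl k (L i) M ℓ) = _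
    rw [dif_pos h]
    exact (QuotientGroup.mk_surjective
      (ψ (QuotientGroup.mk (⟨c, h⟩ : sysG k K M ℓ)) i)).choose_spec
  refine ⟨fun c i => (Φ c i).1, fun c _ i => (Φ c i).2, ?_, ?_⟩
  · intro c c' hc hc' i n
    have hcc : Sys k ℓ (fun n σ τ => c n σ τ * c' n σ τ) := (sysG k K M ℓ).mul_mem hc hc'
    have h1 : (QuotientGroup.mk (Φ c i * Φ c' i) : Vl k (L i) M ℓ) =
        QuotientGroup.mk (Φ (fun n σ τ => c n σ τ * c' n σ τ) i) := by
      rw [QuotientGroup.mk_mul, hΦ c hc, hΦ c' hc', hΦ _ hcc]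
      have h2 := congrFun (map_mul ψ (QuotientGroup.mk (⟨c, hc⟩ : sysG k K M ℓ))
        (QuotientGroup.mk (⟨c', hc'⟩ : sysG k K M ℓ))) i
      rw [← QuotientGroup.mk_mul] at h2
      exact h2.symm
    have h3 := QuotientGroup.eq.1 h1
    have h4 := h3 n
    refine h4.congr fun σ _ τ _ => ?_
    show ((Φ c i).1 n σ τ * (Φ c' i).1 n σ τ)⁻¹ *
      (Φ (fun n σ τ => c n σ τ * c' n σ τ) i).1 n σ τ = _
    exact mul_comm _ _
  · intro c hc
    constructor
    · intro h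
      have h1 : ψ (QuotientGroup.mk (⟨c, hc⟩ : sysG k K M ℓ)) = 1 := by
        funext i
        rw [← hΦ c hc i]
        exact (QuotientGroup.eq_one_iff _).2 fun n => h i n
      have h2 : (QuotientGroup.mk (⟨c, hc⟩ : sysG k K M ℓ) : Vl k K M ℓ) = 1 :=
        hψ (by rw [h1, map_one])
      exact (QuotientGroup.eq_one_iff _).1 h2
    · intro h i
      have h2 : (QuotientGroup.mk (⟨c, hc⟩ : sysG k K M ℓ) : Vl k K M ℓ) = 1 :=
        (QuotientGroup.eq_one_iff _).2 h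
      have h3 := hΦ c hc i
      rw [h2, map_one] at h3
      exact (QuotientGroup.eq_one_iff _).1 h3

end Pool.Agent.NOC
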