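import Pool.Agent.NOC.Net

/-!
# The configuration of lines through a generic point
-/

set_option autoImplicit false

namespace Pool.Agent.NOC

open Pool.Agent.TBR Cardinal

universe u

section

variable {k M : Type u} [Field k] [Field M] [Algebra k M]

/-- `E` is the field of a line which contains no point of the fibre except `Q` -/
structure OneL (y Q : Fin 2 → M) (E : IntermediateField k M) : Prop where
  fg : E.FG
  tr : Algebra.trdeg k E ≤ 1
  ker : ∃ a : Fin 3 → M, a ≠ 0 ∧ (∀ i, a i ∈ E) ∧ a 0 + a 1 * y 0 + a 2 * y 1 = 0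
  fix : ∀ g ∈ Fx k (E : Set M), (∀ i, g (y i) = y i) → ∀ i, g (Q i) = Q i

/-- `E` is the field of a line which contains no point of the fibre except `Q` and `R` -/
structure TwoL (y Q R : Fin 2 → M) (E : IntermediateField k M) : Prop where
  fg : E.FG
  tr : Algebra.trdeg k E ≤ 1
  ker : ∃ a : Fin 3 → M, a ≠ 0 ∧ (∀ i, a i ∈ E) ∧ a 0 + a 1 * y 0 + a 2 * y 1 = 0
  prs : ∀ g ∈ Fx k (E : Set M), (∀ i, g (y i) = y i) →
    (∀ i, g (Q i) = Q i ∧ g (R i) = R i) ∨ (∀ i, g (Q i) = R i ∧ g (R i) = Q i)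

theorem Ln.ker' {c : Fin 3 → Fin 6 → k} {y A d : Fin 2 → M} {E : IntermediateField k M}
    (h : Ln c A d E) (hA : Fb c y A) :
    ∃ a : Fin 3 → M, a ≠ 0 ∧ (∀ i, a i ∈ E) ∧ a 0 + a 1 * y 0 + a 2 * y 1 = 0 := by
  obtain ⟨a, ha0, ha, h1⟩ := h.ker
  refine ⟨a, ha0, ha, ?_⟩
  rw [hA.2.1, hA.2.2] at h1
  have h2 : (a 0 + a 1 * y 0 + a 2 * y 1) * Fv (cM M c) A 0 = 0 := by
    rw [← h1]
    ring
  exact (mul_eq_zero.1 h2).resolve_right hA.1

theorem oneL_of {c : Fin 3 → Fin 6 → k} {y A d : Fin 2 → M} {E : IntermediateField k M}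
    (h : Ln c A d E) (hA : Fb c y A) (h1 : ∀ s : M, Fb c y (A + s • d) → A + s • d = A) :
    OneL y A E := by
  refine ⟨h.fg, h.tr, h.ker' hA, fun g hg hgy i => ?_⟩
  obtain ⟨s, hs⟩ := h.pres g hg 0
  have e0 : A + (0 : M) • d = A := by rw [zero_smul, add_zero]
  rw [e0] at hs
  have h2 := hA.map hgy
  rw [hs] at h2
  have h3 := h1 s h2
  rw [h3] at hs
  exact congrFun hs i

theorem smul_inj' {d : Fin 2 → M} (hd : d ≠ 0) (A : Fin 2 → M) {s t : M}
    (h : A + s • d = A + t • d) : s = t := by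
  have h4 : s • d = t • d := add_left_cancel h
  have h5 : (s - t) • d = 0 := by rw [sub_smul, h4, sub_self]
  rcases smul_eq_zero.1 h5 with h6 | h6
  · exact sub_eq_zero.1 h6
  · exact absurd h6 hd

theorem twoL_of [IsAlgClosed M] {c : Fin 3 → Fin 6 → k} {y A d : Fin 2 → M}
    {E : IntermediateField k M} (hfin : {Q : Fin 2 → M | Fb c y Q}.Finite) (h : Ln c A d E)
    (hd : d ≠ 0) (hA : Fb c y A) (hR : Fb c y (A + d)) : TwoL y A (A + d) E := by
  refine ⟨h.fg, h.tr, h.ker' hA, fun g hg hgy => ?_⟩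
  have e0 : A + (0 : M) • d = A := by rw [zero_smul, add_zero]
  have e1 : A + (1 : M) • d = A + d := by rw [one_smul]
  have key : ∀ s : M, Fb c y (A + s • d) → s = 0 ∨ s = 1 := by
    intro s hs
    by_contra hcon
    push Not at hcon
    exact not_three hfin hA hd hcon.1 one_ne_zero hcon.2 hs (by rw [e1]; exact hR)
  obtain ⟨s, hs⟩ := h.pres g hg 0
  obtain ⟨t, ht⟩ := h.pres g hg 1
  rw [e0] at hs
  rw [e1] at ht
  have hs' := hA.map hgy
  rw [hs] at hs'
  have ht' := hR.map hgy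
  rw [ht] at ht'
  have hst : s ≠ t := by
    rintro rfl
    have h3 : (fun j => g (A j)) = fun j => g ((A + d) j) := hs.trans ht.symm
    have h4 : A = A + d := funext fun j => g.injective (congrFun h3 j)
    exact hd (left_eq_add.1 h4)
  rcases key s hs' with h1 | h1 <;> rcases key t ht' with h2 | h2
  · exact absurd (h1.trans h2.symm) hst
  · left
    rw [h1, e0] at hs
    rw [h2, e1] at ht
    exact fun i => ⟨congrFun hs i, congrFun ht i⟩
  · right
    rw [h1, e1] at hs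
    rw [h2, e0] at ht
    exact fun i => ⟨congrFun hs i, congrFun ht i⟩
  · exact absurd (h1.trans h2.symm) hst

/-- the condition on the lines is not empty for the lines through `P` -/
theorem exists_DD_ne {c : Fin 3 → Fin 6 → k} (hD : Dl c ≠ 0) (htr : Algebra.trdeg k M ≤ 2)
    {P : Fin 2 → M} (hP : AlgebraicIndependent k P) : ∃ d' : Fin 2 → M, DD (cM M c) P d' ≠ 0 := by
  refine ⟨![1, P 0], fun h0 => hD ?_⟩
  rw [DD_std, ← aeval_Dl] at h0
  have hind : AlgebraicIndependent k ![P 1 - P 0 * P 0, P 0] := by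
    refine indep_of_alg hP fun x => alg_mono ?_ (alg_of_indep htr hP x)
    rw [IntermediateField.adjoin_le_iff]
    have h1 : P 0 ∈ IntermediateField.adjoin k (Set.range ![P 1 - P 0 * P 0, P 0]) :=
      IntermediateField.subset_adjoin k _ ⟨1, rfl⟩
    have h2 : P 1 - P 0 * P 0 ∈
        IntermediateField.adjoin k (Set.range ![P 1 - P 0 * P 0, P 0]) :=
      IntermediateField.subset_adjoin k _ ⟨0, rfl⟩
    rintro _ ⟨i, rfl⟩
    fin_cases i
    · exact h1
    · show P 1 ∈ _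
      have h3 := add_mem h2 (mul_mem h1 h1)
      rwa [sub_add_cancel] at h3
  exact (map_eq_zero_iff _ hind).1 h0

theorem config [IsAlgClosed M] (htr : Algebra.trdeg k M ≤ 2) {c : Fin 3 → Fin 6 → k}
    {y P : Fin 2 → M} (hy : AlgebraicIndependent k y) (hP : Fb c y P) :
    (∃ E : IntermediateField k M, OneL y P E) ∨
      ∃ (P₁ P₂ : Fin 2 → M) (E₀ E₁ E₂ : IntermediateField k M), Fb c y P₁ ∧ Fb c y P₂ ∧
        TwoL y P P₁ E₀ ∧ TwoL y P P₂ E₁ ∧ TwoL y P₁ P₂ E₂ := by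
  have hfin := hP.finite htr hy
  by_cases hD : Dl c = 0
  · left
    obtain ⟨s, hs, hsQ⟩ : ∃ s : M, IsAlgebraic k s ∧
        ∀ Q, Fb c y Q → s ≠ (Q 1 - P 1) / (Q 0 - P 0) := by
      have h1 : (algebraicClosure k M : Set M).Infinite := by
        have h2 : IsAlgClosed (algebraicClosure k M) :=
          (algebraicClosure.isAlgClosure k M).isAlgClosed
        have h3 : Infinite (algebraicClosure k M) := IsAlgClosed.instInfinite
        exact Set.infinite_coe_iff.1 h3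
      obtain ⟨s, hs, hs'⟩ := h1.exists_notMem_finite
        (hfin.image fun Q : Fin 2 → M => (Q 1 - P 1) / (Q 0 - P 0))
      refine ⟨s, mem_algebraicClosure_iff.1 hs, fun Q hQ h => hs' ⟨Q, hQ, h.symm⟩⟩
    obtain ⟨E, hE⟩ := ln_of_Dl_zero hD P s hs
    refine ⟨E, oneL_of hE hP fun t ht => ?_⟩
    have h1 := hsQ _ ht
    have e0 : (P + t • (![1, s] : Fin 2 → M)) 0 - P 0 = t := by
      show P 0 + t * 1 - P 0 = t
      ring
    have e1 : (P + t • (![1, s] : Fin 2 → M)) 1 - P 1 = t * s := by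
      show P 1 + t * s - P 1 = t * s
      ring
    rw [e0, e1] at h1
    by_cases ht0 : t = 0
    · rw [ht0, zero_smul, add_zero]
    · exact absurd (mul_div_cancel_left₀ s ht0).symm h1
  · obtain ⟨d, hd, hdD⟩ := exists_first (cM M c) P
    obtain ⟨E, hE⟩ := ln_of_Dl hD P d hd hdD
    by_cases h1 : ∀ s : M, Fb c y (P + s • d) → P + s • d = P
    · exact Or.inl ⟨E, oneL_of hE hP h1⟩
    push Not at h1
    obtain ⟨s, hs, hsP⟩ := h1
    obtain ⟨d₁, hd₁⟩ : ∃ d₁, d₁ = s • d := ⟨_, rfl⟩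
    have hd₁0 : d₁ ≠ 0 := by
      rintro rfl
      exact hsP (by rw [← hd₁, add_zero])
    have hd₁D : DD (cM M c) P d₁ = 0 := by rw [hd₁, DD_smul, hdD, mul_zero]
    rw [← hd₁] at hs
    obtain ⟨E₀, hE₀⟩ := ln_of_Dl hD P d₁ hd₁0 hd₁D
    have hT₀ := twoL_of hfin hE₀ hd₁0 hP hs
    obtain ⟨μ, hμ⟩ := hP.prop hs
    have e1 : P + (1 : M) • d₁ = P + d₁ := by rw [one_smul]
    have hlq : lv (cM M c) P d₁ + qv (cM M c) d₁ = (μ - 1) • Fv (cM M c) P := by
      have h2 := Fv_add (cM M c) P d₁ 1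
      rw [e1, hμ, one_smul, one_pow, one_smul] at h2
      rw [sub_smul, one_smul, h2]
      abel
    obtain ⟨e, he⟩ : ∃ e : Fin 2 → M, d₁ 0 * e 1 - d₁ 1 * e 0 ≠ 0 := by
      by_cases h0 : d₁ 0 = 0
      · refine ⟨![1, 0], fun h => hd₁0 (funext fun i => ?_)⟩
        have h' : d₁ 0 * 0 - d₁ 1 * 1 = 0 := h
        fin_cases i
        · exact h0
        · show d₁ 1 = 0
          rw [mul_zero, mul_one, zero_sub, neg_eq_zero] at h'
          exact h'
      · refine ⟨![0, 1], fun h => h0 ?_⟩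
        have h' : d₁ 0 * 1 - d₁ 1 * 0 = 0 := h
        rwa [mul_zero, mul_one, sub_zero] at h'
    obtain ⟨x, hx⟩ := exists_second (cM M c) P d₁ e hlq hP.ne he (fun hJ => by
      obtain ⟨t, ht, -⟩ := Fb.aut htr hy hP hs
      have ht' : (fun j => t (P j)) = P + d₁ := funext ht
      rw [← ht', ← aut_Jv] at hJ
      exact (map_eq_zero t).1 hJ) (fun ν hν => by
      have h3 : qv (cM M c) d₁ = (μ - 1 - ν) • Fv (cM M c) P := by
        rw [sub_smul _ ν, ← hlq, hν]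
        abel
      exact no_line hfin hP hd₁0 hν h3) (exists_DD_ne hD htr (hP.indep htr hy))
    obtain ⟨d', hd'⟩ : ∃ d', d' = x • d₁ + e := ⟨_, rfl⟩
    rw [← hd'] at hx
    have hdet : d₁ 0 * d' 1 - d₁ 1 * d' 0 ≠ 0 := by
      have h2 : d₁ 0 * d' 1 - d₁ 1 * d' 0 = d₁ 0 * e 1 - d₁ 1 * e 0 := by
        rw [hd']
        simp only [Pi.add_apply, Pi.smul_apply, smul_eq_mul]
        ring
      rwa [h2]
    have hd'0 : d' ≠ 0 := by
      intro h2
      apply hdet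
      rw [h2]
      simp
    obtain ⟨E', hE'⟩ := ln_of_Dl hD P d' hd'0 hx
    by_cases h2 : ∀ s : M, Fb c y (P + s • d') → P + s • d' = P
    · exact Or.inl ⟨E', oneL_of hE' hP h2⟩
    push Not at h2
    obtain ⟨r, hr, hrP⟩ := h2
    obtain ⟨d₂, hd₂⟩ : ∃ d₂, d₂ = r • d' := ⟨_, rfl⟩
    have hr0 : r ≠ 0 := by
      rintro rfl
      exact hrP (by rw [zero_smul, add_zero])
    have hd₂0 : d₂ ≠ 0 := by
      rw [hd₂]
      exact smul_ne_zero hr0 hd'0
    have hd₂D : DD (cM M c) P d₂ = 0 := by rw [hd₂, DD_smul, hx, mul_zero]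
    rw [← hd₂] at hr
    obtain ⟨E₁, hE₁⟩ := ln_of_Dl hD P d₂ hd₂0 hd₂D
    have hT₁ := twoL_of hfin hE₁ hd₂0 hP hr
    obtain ⟨d₃, hd₃⟩ : ∃ d₃, d₃ = d₂ - d₁ := ⟨_, rfl⟩
    have hd₃0 : d₃ ≠ 0 := by
      intro h3
      rw [hd₃, sub_eq_zero] at h3
      apply hdet
      rw [← h3, hd₂]
      simp only [Pi.smul_apply, smul_eq_mul]
      ring
    have e3 : P + d₁ + d₃ = P + d₂ := by
      rw [hd₃]
      abel
    have hr' : Fb c y (P + d₁ + d₃) := by rwa [e3]
    obtain ⟨ν, hν⟩ := hs.prop hr'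
    have hlq' : lv (cM M c) (P + d₁) d₃ + qv (cM M c) d₃ = (ν - 1) • Fv (cM M c) (P + d₁) := by
      have h2 := Fv_add (cM M c) (P + d₁) d₃ 1
      rw [one_smul, hν, one_smul, one_pow, one_smul] at h2
      rw [sub_smul, one_smul, h2]
      abel
    have hd₃D : DD (cM M c) (P + d₁) d₃ = 0 := DD_of_two _ _ _ hlq'
    obtain ⟨E₂, hE₂⟩ := ln_of_Dl hD (P + d₁) d₃ hd₃0 hd₃D
    have hT₂ := twoL_of hfin hE₂ hd₃0 hs hr'
    rw [e3] at hT₂
    exact Or.inr ⟨P + d₁, P + d₂, E₀, E₁, E₂, hs, hr, hT₀, hT₁, hT₂⟩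

end

end Pool.Agent.NOC
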