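import Mathlib

/-!
# The corestriction of 2-cocycles, for an explicit section
-/

set_option autoImplicit false

namespace Pool.Agent.NOC

variable {G M X : Type*} [Group G] [CommGroup M] [MulDistribMulAction G M]

/-- `D` acts on `X` by `a`, and `s x` are representatives: `s (a σ x)⁻¹ σ s x` is in `F` -/
structure Sct (D F : Subgroup G) (a : G → X → X) (s : X → G) : Prop where
  one : ∀ x, a 1 x = x
  mul : ∀ σ ∈ D, ∀ τ ∈ D, ∀ x, a (σ * τ) x = a σ (a τ x)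
  memF : ∀ σ ∈ D, ∀ x, (s (a σ x))⁻¹ * σ * s x ∈ F

/-- the component of `σ` at `x` -/
def nu (a : G → X → X) (s : X → G) (σ : G) (x : X) : G := (s (a σ x))⁻¹ * σ * s x

/-- the corestriction of a 2-cochain -/
def cr [Fintype X] (a : G → X → X) (s : X → G) (C : G → G → M) (σ τ : G) : M :=
  ∏ x, s (a (σ * τ) x) • C (nu a s σ (a τ x)) (nu a s τ x)

/-- the corestriction of a 1-cochain -/
def cr1 [Fintype X] (a : G → X → X) (s : X → G) (β : G → M) (σ : G) : M :=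
  ∏ x, s (a σ x) • β (nu a s σ x)

/-- the correction term for the change of the section -/
def hc [Fintype X] (a : G → X → X) (s n : X → G) (C : G → G → M) (σ : G) : M :=
  ∏ x, s (a σ x) • (C (n (a σ x)) (nu a (fun y => s y * n y) σ x) *
    (C (nu a s σ x) (n x))⁻¹)

variable {D F : Subgroup G} {a : G → X → X} {s : X → G}

theorem Sct.perm (h : Sct D F a s) {σ : G} (hσ : σ ∈ D) : Function.Bijective (a σ) := by
  have h1 : ∀ x, a σ⁻¹ (a σ x) = x := fun x => by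
    rw [← h.mul _ (D.inv_mem hσ) _ hσ, inv_mul_cancel, h.one]
  have h2 : ∀ x, a σ (a σ⁻¹ x) = x := fun x => by
    rw [← h.mul _ hσ _ (D.inv_mem hσ), mul_inv_cancel, h.one]
  exact Function.bijective_iff_has_inverse.2 ⟨a σ⁻¹, h1, h2⟩

theorem Sct.nu_mem (h : Sct D F a s) {σ : G} (hσ : σ ∈ D) (x : X) : nu a s σ x ∈ F :=
  h.memF σ hσ x

theorem Sct.nu_mul (h : Sct D F a s) {σ τ : G} (hσ : σ ∈ D) (hτ : τ ∈ D) (x : X) :
    nu a s (σ * τ) x = nu a s σ (a τ x) * nu a s τ x := by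
  unfold nu
  rw [h.mul σ hσ τ hτ]
  group

theorem s_mul_nu (a : G → X → X) (s : X → G) (σ : G) (x : X) :
    s (a σ x) * nu a s σ x = σ * s x := by
  unfold nu
  group

omit [MulDistribMulAction G M] in
theorem prod_perm [Fintype X] (h : Sct D F a s) {σ : G} (hσ : σ ∈ D) (f : X → M) :
    ∏ x, f (a σ x) = ∏ x, f x :=
  Fintype.prod_bijective _ (h.perm hσ) _ _ (fun _ => rfl)

theorem cr_coc [Fintype X] (h : Sct D F a s) {C : G → G → M}
    (hC : ∀ σ ∈ F, ∀ τ ∈ F, ∀ ρ ∈ F, C σ τ * C (σ * τ) ρ = σ • C τ ρ * C σ (τ * ρ)) :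
    ∀ σ ∈ D, ∀ τ ∈ D, ∀ ρ ∈ D, cr a s C σ τ * cr a s C (σ * τ) ρ =
      σ • cr a s C τ ρ * cr a s C σ (τ * ρ) := by
  intro σ hσ τ hτ ρ hρ
  have e1 : cr a s C σ τ = ∏ x, s (a (σ * τ) (a ρ x)) •
      C (nu a s σ (a τ (a ρ x))) (nu a s τ (a ρ x)) :=
    (prod_perm h hρ (fun x => s (a (σ * τ) x) • C (nu a s σ (a τ x)) (nu a s τ x))).symm
  have e2 : σ • cr a s C τ ρ = ∏ x, σ • s (a (τ * ρ) x) • C (nu a s τ (a ρ x)) (nu a s ρ x) := by
    unfold cr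
    rw [Finset.smul_prod']
  rw [e1, e2]
  unfold cr
  rw [← Finset.prod_mul_distrib, ← Finset.prod_mul_distrib]
  refine Finset.prod_congr rfl fun x _ => ?_
  have hστ := D.mul_mem hσ hτ
  have hτρ := D.mul_mem hτ hρ
  have f1 : a (σ * τ * ρ) x = a (σ * τ) (a ρ x) := h.mul _ hστ _ hρ x
  have f2 : a (σ * (τ * ρ)) x = a (σ * τ) (a ρ x) := by rw [← mul_assoc, f1]
  have f3 : a (τ * ρ) x = a τ (a ρ x) := h.mul _ hτ _ hρ x
  have f4 : σ • s (a (τ * ρ) x) • C (nu a s τ (a ρ x)) (nu a s ρ x) =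
      s (a (σ * τ) (a ρ x)) • nu a s σ (a τ (a ρ x)) •
        C (nu a s τ (a ρ x)) (nu a s ρ x) := by
    rw [← mul_smul, ← mul_smul, h.mul σ hσ τ hτ, s_mul_nu, f3]
  rw [f4, f1, f2, f3, h.nu_mul hσ hτ, h.nu_mul hτ hρ, ← smul_mul', ← smul_mul',
    hC _ (h.nu_mem hσ _) _ (h.nu_mem hτ _) _ (h.nu_mem hρ _)]

theorem cr_cob [Fintype X] (h : Sct D F a s) {C : G → G → M} {β : G → M}
    (hC : ∀ σ ∈ F, ∀ τ ∈ F, C σ τ * β (σ * τ) = β σ * σ • β τ) :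
    ∀ σ ∈ D, ∀ τ ∈ D, cr a s C σ τ * cr1 a s β (σ * τ) = cr1 a s β σ * σ • cr1 a s β τ := by
  intro σ hσ τ hτ
  have e1 : cr1 a s β σ = ∏ x, s (a σ (a τ x)) • β (nu a s σ (a τ x)) :=
    (prod_perm h hτ (fun x => s (a σ x) • β (nu a s σ x))).symm
  have e2 : σ • cr1 a s β τ = ∏ x, σ • s (a τ x) • β (nu a s τ x) := by
    unfold cr1
    rw [Finset.smul_prod']
  rw [e1, e2]
  unfold cr cr1
  rw [← Finset.prod_mul_distrib, ← Finset.prod_mul_distrib]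
  refine Finset.prod_congr rfl fun x _ => ?_
  have f1 : a (σ * τ) x = a σ (a τ x) := h.mul _ hσ _ hτ x
  have f4 : σ • s (a τ x) • β (nu a s τ x) =
      s (a σ (a τ x)) • nu a s σ (a τ x) • β (nu a s τ x) := by
    rw [← mul_smul, ← mul_smul, s_mul_nu]
  rw [f4, f1, h.nu_mul hσ hτ, ← smul_mul', ← smul_mul',
    hC _ (h.nu_mem hσ _) _ (h.nu_mem hτ _)]

/-- change of the section -/
theorem cr_sec [Fintype X] (h : Sct D F a s) {n : X → G} (hn : ∀ x, n x ∈ F)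
    {C : G → G → M}
    (hC : ∀ σ ∈ F, ∀ τ ∈ F, ∀ ρ ∈ F, C σ τ * C (σ * τ) ρ = σ • C τ ρ * C σ (τ * ρ)) :
    ∀ σ ∈ D, ∀ τ ∈ D, cr a (fun x => s x * n x) C σ τ * hc a s n C (σ * τ) =
      cr a s C σ τ * (hc a s n C σ * σ • hc a s n C τ) := by
  intro σ hσ τ hτ
  have e1 : hc a s n C σ = ∏ x, s (a σ (a τ x)) • (C (n (a σ (a τ x)))
      (nu a (fun y => s y * n y) σ (a τ x)) * (C (nu a s σ (a τ x)) (n (a τ x)))⁻¹) :=
    (prod_perm h hτ (fun x => s (a σ x) • (C (n (a σ x)) (nu a (fun y => s y * n y) σ x) *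
      (C (nu a s σ x) (n x))⁻¹))).symm
  have e2 : σ • hc a s n C τ = ∏ x, σ • s (a τ x) • (C (n (a τ x))
      (nu a (fun y => s y * n y) τ x) * (C (nu a s τ x) (n x))⁻¹) := by
    unfold hc
    rw [Finset.smul_prod']
  rw [e1, e2]
  unfold cr hc
  rw [← Finset.prod_mul_distrib, ← Finset.prod_mul_distrib, ← Finset.prod_mul_distrib]
  refine Finset.prod_congr rfl fun x _ => ?_
  have f1 : a (σ * τ) x = a σ (a τ x) := h.mul _ hσ _ hτ x
  have hν : ∀ ρ ∈ D, ∀ y, nu a (fun y => s y * n y) ρ y =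
      (n (a ρ y))⁻¹ * nu a s ρ y * n y := by
    intro ρ _ y
    unfold nu
    group
  have hνm : ∀ ρ ∈ D, ∀ y, nu a (fun y => s y * n y) ρ y ∈ F := by
    intro ρ hρ y
    rw [hν ρ hρ y]
    exact F.mul_mem (F.mul_mem (F.inv_mem (hn _)) (h.nu_mem hρ y)) (hn y)
  obtain ⟨z, hz⟩ : ∃ z, z = a σ (a τ x) := ⟨_, rfl⟩
  obtain ⟨y, hy⟩ : ∃ y, y = a τ x := ⟨_, rfl⟩
  obtain ⟨α, hα⟩ : ∃ α, α = nu a s σ y := ⟨_, rfl⟩
  obtain ⟨β, hβ⟩ : ∃ β, β = nu a s τ x := ⟨_, rfl⟩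
  obtain ⟨α', hα'⟩ : ∃ α', α' = nu a (fun y => s y * n y) σ y := ⟨_, rfl⟩
  obtain ⟨β', hβ'⟩ : ∃ β', β' = nu a (fun y => s y * n y) τ x := ⟨_, rfl⟩
  have hαF : α ∈ F := by rw [hα]; exact h.nu_mem hσ _
  have hβF : β ∈ F := by rw [hβ]; exact h.nu_mem hτ _
  have hα'F : α' ∈ F := by rw [hα']; exact hνm σ hσ _
  have hβ'F : β' ∈ F := by rw [hβ']; exact hνm τ hτ _
  have k1 : n z * α' = α * n y := by
    rw [hα', hν σ hσ, hα, hz, hy]
    group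
  have k2 : n y * β' = β * n x := by
    rw [hβ', hν τ hτ, hβ, hy]
    group
  have k3 : nu a s (σ * τ) x = α * β := by rw [h.nu_mul hσ hτ, hα, hβ, hy]
  have k4 : nu a (fun y => s y * n y) (σ * τ) x = α' * β' := by
    rw [hν _ (D.mul_mem hσ hτ), hα', hβ', hν σ hσ, hν τ hτ, k3, hα, hβ, f1, hy]
    group
  have f4 : ∀ m : M, σ • s (a τ x) • m = s z • α • m := by
    intro m
    rw [← mul_smul, ← mul_smul, hz, hα, hy, s_mul_nu]
  have hz' : a σ y = z := by rw [hz, hy]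
  rw [f4, f1, k3, k4, ← hy, hz', ← hα, ← hβ, ← hα', ← hβ']
  beta_reduce
  rw [mul_smul, ← smul_mul', ← smul_mul', ← smul_mul']
  congr 1
  have c1 := hC _ (hn z) _ hα'F _ hβ'F
  have c2 := hC _ hαF _ (hn y) _ hβ'F
  have c3 := hC _ hαF _ hβF _ (hn x)
  rw [k1] at c1
  rw [k2] at c2
  have d1 : n z • C α' β' = C (n z) α' * C (α * n y) β' * (C (n z) (α' * β'))⁻¹ := by
    rw [c1, mul_inv_cancel_right]
  have d2 : α • C (n y) β' = C α (n y) * C (α * n y) β' * (C α (β * n x))⁻¹ := by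
    rw [c2, mul_inv_cancel_right]
  have d3 : α • C β (n x) = C α β * C (α * β) (n x) * (C α (β * n x))⁻¹ := by
    rw [c3, mul_inv_cancel_right]
  rw [smul_mul', smul_inv', d1, d2, d3]
  apply Additive.ofMul.injective
  simp only [ofMul_mul, ofMul_inv]
  abel

end Pool.Agent.NOC
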