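import Pool.Agent.NOC.Aut

/-!
# Covers which become trivial over every line
-/

set_option autoImplicit false

namespace Pool.Agent.NOC

open Pool.Agent.TBR Cardinal

universe u

section

variable {k M : Type u} [Field k] [Field M] [Algebra k M]

/-- A linear relation between `y 0` and `y 1` with coefficients in an algebraically closed field
`κ` gives two fields of transcendence degree one (one of them in `κ`) which generate a field
containing `y` and `z`. -/
def IsoC {ι : Type} (y : Fin 2 → M) (z : ι → M) : Prop :=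
  ∀ κ : IntermediateField k M, IsAlgClosed κ → ∀ a : Fin 3 → M, a ≠ 0 → (∀ i, a i ∈ κ) →
    a 0 + a 1 * y 0 + a 2 * y 1 = 0 →
      ∃ K₁ K₂ : IntermediateField k M, K₁.FG ∧ K₁ ≤ κ ∧ K₂.FG ∧ Algebra.trdeg k K₂ ≤ 1 ∧
        (∀ i, y i ∈ K₁ ⊔ K₂) ∧ ∀ j, z j ∈ K₁ ⊔ K₂

theorem mem_of_algebraic (κ : IntermediateField k M) (hκ : IsAlgClosed κ) {x : M}
    (hx : IsAlgebraic κ x) : x ∈ κ := by
  have h1 : (minpoly κ x).degree = 1 :=
    IsAlgClosed.degree_eq_one_of_irreducible _ (minpoly.irreducible hx.isIntegral)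
  obtain ⟨y, hy⟩ := minpoly.mem_range_of_degree_eq_one κ x h1
  rw [← hy]
  exact y.2

theorem mem_of_pow_mem (κ : IntermediateField k M) (hκ : IsAlgClosed κ) {x : M} {n : ℕ}
    (hn : 0 < n) (hx : x ^ n ∈ κ) : x ∈ κ := by
  refine mem_of_algebraic κ hκ ?_
  have h1 : IsAlgebraic κ (x ^ n) := isAlgebraic_algebraMap (⟨x ^ n, hx⟩ : κ)
  exact h1.of_pow hn

theorem exists_root_mem (κ : IntermediateField k M) (hκ : IsAlgClosed κ) {x : M} (hx : x ∈ κ)
    {n : ℕ} (hn : 0 < n) : ∃ μ ∈ κ, μ ^ n = x := by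
  obtain ⟨μ, hμ⟩ := IsAlgClosed.exists_pow_nat_eq (⟨x, hx⟩ : κ) hn
  exact ⟨μ, μ.2, congrArg Subtype.val hμ⟩

/-- the last step -/
theorem iso_finish [IsAlgClosed M] {ι : Type} [Fintype ι] (κ : IntermediateField k M)
    (hκ : IsAlgClosed κ) (G : Finset M) (hG : ∀ x ∈ G, x ∈ κ) (r w : M) (hr0 : r ≠ 0)
    (hr1 : r - 1 ≠ 0) (hw0 : w ≠ 0) (y : Fin 2 → M)
    (hy : ∀ i, y i ∈ IntermediateField.adjoin k ((G : Set M) ∪ {r}))
    (hw : w ∈ IntermediateField.adjoin k ((G : Set M) ∪ {r})) (z : ι → M) (N : ι → ℕ)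
    (hN : ∀ j, 0 < N j) (lam : ι → M) (hl : ∀ j, lam j ∈ κ) (hl0 : ∀ j, lam j ≠ 0)
    (A B q : ι → ℤ)
    (hz : ∀ j, z j ^ N j = lam j * r ^ A j * (r - 1) ^ B j * (w ^ q j) ^ N j) :
    ∃ K₁ K₂ : IntermediateField k M, K₁.FG ∧ K₁ ≤ κ ∧ K₂.FG ∧ Algebra.trdeg k K₂ ≤ 1 ∧
      (∀ i, y i ∈ K₁ ⊔ K₂) ∧ ∀ j, z j ∈ K₁ ⊔ K₂ := by
  classical
  obtain ⟨Nt, hNt⟩ : ∃ Nt, Nt = ∏ j, N j := ⟨_, rfl⟩
  have hNt0 : 0 < Nt := by
    rw [hNt]
    exact Finset.prod_pos fun j _ => hN j
  obtain ⟨ρ, hρ⟩ := IsAlgClosed.exists_pow_nat_eq r hNt0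
  obtain ⟨ρ', hρ'⟩ := IsAlgClosed.exists_pow_nat_eq (r - 1) hNt0
  have hdvd : ∀ j, ∃ n, Nt = n * N j := fun j => by
    obtain ⟨n, hn⟩ := Finset.dvd_prod_of_mem N (Finset.mem_univ j)
    exact ⟨n, by rw [hNt, hn, mul_comm]⟩
  choose n hn using hdvd
  have hρj : ∀ j, (ρ ^ n j) ^ N j = r := fun j => by rw [← pow_mul, ← hn, hρ]
  have hρj' : ∀ j, (ρ' ^ n j) ^ N j = r - 1 := fun j => by rw [← pow_mul, ← hn, hρ']
  choose μ hμ hμN using fun j => exists_root_mem κ hκ (hl j) (hN j)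
  obtain ⟨s, hs⟩ : ∃ s : ι → M, ∀ j, s j = (ρ ^ n j) ^ A j * (ρ' ^ n j) ^ B j := ⟨_, fun _ => rfl⟩
  have hsN : ∀ j, s j ^ N j = r ^ A j * (r - 1) ^ B j := by
    intro j
    rw [hs, mul_pow, ← zpow_natCast ((ρ ^ n j) ^ A j), ← zpow_natCast ((ρ' ^ n j) ^ B j),
      ← zpow_mul, ← zpow_mul, mul_comm (A j), mul_comm (B j), zpow_mul, zpow_mul, zpow_natCast,
      zpow_natCast, hρj, hρj']
  have hρ0 : ρ ≠ 0 := by
    rintro rfl
    rw [zero_pow hNt0.ne'] at hρ
    exact hr0 hρ.symm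
  have hρ0' : ρ' ≠ 0 := by
    rintro rfl
    rw [zero_pow hNt0.ne'] at hρ'
    exact hr1 hρ'.symm
  have hs0 : ∀ j, s j ≠ 0 := fun j => by
    rw [hs]
    exact mul_ne_zero (zpow_ne_zero _ (pow_ne_zero _ hρ0)) (zpow_ne_zero _ (pow_ne_zero _ hρ0'))
  have hμ0 : ∀ j, μ j ≠ 0 := by
    intro j h0
    have := hμN j
    rw [h0, zero_pow (hN j).ne'] at this
    exact hl0 j this.symm
  obtain ⟨ζ, hζ⟩ : ∃ ζ : ι → M, ∀ j, ζ j = z j / (μ j * s j * w ^ q j) := ⟨_, fun _ => rfl⟩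
  have hden : ∀ j, μ j * s j * w ^ q j ≠ 0 := fun j =>
    mul_ne_zero (mul_ne_zero (hμ0 j) (hs0 j)) (zpow_ne_zero _ hw0)
  have hζN : ∀ j, ζ j ^ N j = 1 := by
    intro j
    rw [hζ, div_pow, hz, mul_pow, mul_pow, hμN, hsN, div_eq_one_iff_eq]
    · ring
    · rw [← hμN, ← hsN, ← mul_pow, ← mul_pow]
      exact pow_ne_zero _ (hden j)
  have hζκ : ∀ j, ζ j ∈ κ := fun j => mem_of_pow_mem κ hκ (hN j) (by rw [hζN]; exact one_mem _)
  have hzj : ∀ j, z j = ζ j * (μ j * s j * w ^ q j) := fun j => by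
    rw [hζ, div_mul_cancel₀ _ (hden j)]
  refine ⟨IntermediateField.adjoin k ((G : Set M) ∪ Set.range μ ∪ Set.range ζ),
    IntermediateField.adjoin k {r, ρ, ρ'}, ?_, ?_, ?_, ?_, ?_, ?_⟩
  · exact IntermediateField.fg_adjoin_of_finite
      ((G.finite_toSet.union (Set.finite_range μ)).union (Set.finite_range ζ))
  · rw [IntermediateField.adjoin_le_iff]
    rintro x ((hx | ⟨j, rfl⟩) | ⟨j, rfl⟩)
    · exact hG x hx
    · exact hμ j
    · exact hζκ j
  · exact IntermediateField.fg_adjoin_of_finite (by simp)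
  · refine trdeg_one_of_single _ r fun x hx => ?_
    refine alg_trans (S := {r, ρ, ρ'}) ?_ (isAlgebraic_algebraMap
      (⟨x, hx⟩ : IntermediateField.adjoin k {r, ρ, ρ'}))
    have hrr : IsAlgebraic (IntermediateField.adjoin k {r}) r := isAlgebraic_algebraMap
      (⟨r, IntermediateField.mem_adjoin_simple_self k r⟩ : IntermediateField.adjoin k {r})
    rintro x (rfl | rfl | hx)
    · exact hrr
    · rw [← hρ] at hrr
      rw [← hρ]
      exact hrr.of_pow hNt0
    · rw [Set.mem_singleton_iff] at hx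
      rw [hx]
      have h1 : IsAlgebraic (IntermediateField.adjoin k {r}) (ρ' ^ Nt) := by
        rw [hρ']
        exact hrr.sub isAlgebraic_one
      exact h1.of_pow hNt0
  · intro i
    have hle : IntermediateField.adjoin k ((G : Set M) ∪ {r}) ≤
        IntermediateField.adjoin k ((G : Set M) ∪ Set.range μ ∪ Set.range ζ) ⊔
          IntermediateField.adjoin k {r, ρ, ρ'} := by
      rw [IntermediateField.adjoin_le_iff]
      rintro x (hx | hx)
      · exact (le_sup_left : IntermediateField.adjoin k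
          ((G : Set M) ∪ Set.range μ ∪ Set.range ζ) ≤ _)
          (IntermediateField.subset_adjoin k _ (Or.inl (Or.inl hx)))
      · exact (le_sup_right : IntermediateField.adjoin k {r, ρ, ρ'} ≤ _)
          (IntermediateField.subset_adjoin k _ (Or.inl hx))
    exact hle (hy i)
  · intro j
    have hle : IntermediateField.adjoin k ((G : Set M) ∪ {r}) ≤
        IntermediateField.adjoin k ((G : Set M) ∪ Set.range μ ∪ Set.range ζ) ⊔
          IntermediateField.adjoin k {r, ρ, ρ'} := by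
      rw [IntermediateField.adjoin_le_iff]
      rintro x (hx | hx)
      · exact (le_sup_left : IntermediateField.adjoin k
          ((G : Set M) ∪ Set.range μ ∪ Set.range ζ) ≤ _)
          (IntermediateField.subset_adjoin k _ (Or.inl (Or.inl hx)))
      · exact (le_sup_right : IntermediateField.adjoin k {r, ρ, ρ'} ≤ _)
          (IntermediateField.subset_adjoin k _ (Or.inl hx))
    have h1 : ∀ x, x ∈ Set.range μ ∪ Set.range ζ →
        x ∈ IntermediateField.adjoin k ((G : Set M) ∪ Set.range μ ∪ Set.range ζ) ⊔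
          IntermediateField.adjoin k {r, ρ, ρ'} := by
      intro x hx
      refine (le_sup_left : IntermediateField.adjoin k
          ((G : Set M) ∪ Set.range μ ∪ Set.range ζ) ≤ _)
          (IntermediateField.subset_adjoin k _ ?_)
      rcases hx with hx | hx
      · exact Or.inl (Or.inr hx)
      · exact Or.inr hx
    have h2 : ∀ x ∈ ({r, ρ, ρ'} : Set M),
        x ∈ IntermediateField.adjoin k ((G : Set M) ∪ Set.range μ ∪ Set.range ζ) ⊔
          IntermediateField.adjoin k {r, ρ, ρ'} := fun x hx =>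
      (le_sup_right : IntermediateField.adjoin k {r, ρ, ρ'} ≤ _)
        (IntermediateField.subset_adjoin k _ hx)
    rw [hzj, hs]
    refine mul_mem (h1 _ (Or.inr ⟨j, rfl⟩)) (mul_mem (mul_mem (h1 _ (Or.inl ⟨j, rfl⟩))
      (mul_mem (zpow_mem (pow_mem (h2 _ ?_) _) _) (zpow_mem (pow_mem (h2 _ ?_) _) _)))
      (zpow_mem (hle hw) _))
    · exact Or.inr (Or.inl rfl)
    · exact Or.inr (Or.inr rfl)

/-- the parametrization of a line -/
theorem exists_param (κ : IntermediateField k M) (y : Fin 2 → M) (a : Fin 3 → M) (ha0 : a ≠ 0)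
    (ha : ∀ i, a i ∈ κ) (hrel : a 0 + a 1 * y 0 + a 2 * y 1 = 0) :
    ∃ (α β : Fin 2 → M) (u : M), (∀ i, α i ∈ κ) ∧ (∀ i, β i ∈ κ) ∧ (∀ i, y i = α i + β i * u) := by
  by_cases h2 : a 2 = 0
  · have h1 : a 1 ≠ 0 := by
      intro h1
      rw [h1, h2, zero_mul, zero_mul, add_zero, add_zero] at hrel
      apply ha0
      funext i
      fin_cases i
      · exact hrel
      · exact h1
      · exact h2
    refine ⟨![-(a 0 / a 1), 0], ![0, 1], y 1, fun i => ?_, fun i => ?_, fun i => ?_⟩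
    · fin_cases i
      · exact neg_mem (div_mem (ha 0) (ha 1))
      · exact zero_mem _
    · fin_cases i
      · exact zero_mem _
      · exact one_mem _
    · fin_cases i
      · show y 0 = -(a 0 / a 1) + 0 * y 1
        rw [h2] at hrel
        field_simp
        linear_combination hrel
      · show y 1 = 0 + 1 * y 1
        ring
  · refine ⟨![0, -(a 0 / a 2)], ![1, -(a 1 / a 2)], y 0, fun i => ?_, fun i => ?_,
      fun i => ?_⟩
    · fin_cases i
      · exact zero_mem _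
      · exact neg_mem (div_mem (ha 0) (ha 2))
    · fin_cases i
      · exact one_mem _
      · exact neg_mem (div_mem (ha 1) (ha 2))
    · fin_cases i
      · show y 0 = 0 + 1 * y 0
        ring
      · show y 1 = -(a 0 / a 2) + -(a 1 / a 2) * y 0
        field_simp
        linear_combination hrel

end

end Pool.Agent.NOC
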