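import Pool.Agent.NOC.Quad
import Pool.Agent.NOC.Aut

/-!
# The fibre of a net of conics and its lines
-/

set_option autoImplicit false

namespace Pool.Agent.NOC

open Pool.Agent.TBR Cardinal

universe u

section

variable {k M : Type u} [Field k] [Field M] [Algebra k M]

/-- the coefficients in `M` -/
def cM (M : Type u) [Field M] [Algebra k M] (c : Fin 3 → Fin 6 → k) : Fin 3 → Fin 6 → M :=
  fun i j => algebraMap k M (c i j)

/-- `Q` is a point of the fibre over `y` -/
def Fb (c : Fin 3 → Fin 6 → k) (y Q : Fin 2 → M) : Prop :=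
  Fv (cM M c) Q 0 ≠ 0 ∧ Fv (cM M c) Q 1 = y 0 * Fv (cM M c) Q 0 ∧
    Fv (cM M c) Q 2 = y 1 * Fv (cM M c) Q 0

theorem aut_cM (g : M ≃ₐ[k] M) (c : Fin 3 → Fin 6 → k) :
    (fun i j => (g : M →+* M) (cM M c i j)) = cM M c := by
  funext i j
  exact g.commutes _

theorem aut_Fv (g : M ≃ₐ[k] M) (c : Fin 3 → Fin 6 → k) (A : Fin 2 → M) (i : Fin 3) :
    g (Fv (cM M c) A i) = Fv (cM M c) (fun j => g (A j)) i := by
  have h := map_Fv (g : M →+* M) (cM M c) A i
  rw [aut_cM] at h
  exact h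

theorem aut_Jv (g : M ≃ₐ[k] M) (c : Fin 3 → Fin 6 → k) (A : Fin 2 → M) :
    g (Jv (cM M c) A) = Jv (cM M c) (fun j => g (A j)) := by
  have h := map_Jv (g : M →+* M) (cM M c) A
  rw [aut_cM] at h
  exact h

theorem Fb.map {c : Fin 3 → Fin 6 → k} {y Q : Fin 2 → M} (h : Fb c y Q) {g : M ≃ₐ[k] M}
    (hg : ∀ i, g (y i) = y i) : Fb c y (fun j => g (Q j)) := by
  obtain ⟨h0, h1, h2⟩ := h
  refine ⟨?_, ?_, ?_⟩
  · rw [← aut_Fv]
    exact (map_ne_zero g).2 h0
  · rw [← aut_Fv, ← aut_Fv, h1, map_mul, hg]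
  · rw [← aut_Fv, ← aut_Fv, h2, map_mul, hg]

theorem Fb.ne {c : Fin 3 → Fin 6 → k} {y Q : Fin 2 → M} (h : Fb c y Q) :
    Fv (cM M c) Q ≠ 0 := fun h0 => h.1 (congrFun h0 0)

/-- two points of the fibre have proportional values -/
theorem Fb.prop {c : Fin 3 → Fin 6 → k} {y A Q : Fin 2 → M} (hA : Fb c y A) (hQ : Fb c y Q) :
    ∃ μ : M, Fv (cM M c) Q = μ • Fv (cM M c) A := by
  obtain ⟨a0, a1, a2⟩ := hA
  obtain ⟨-, q1, q2⟩ := hQ
  refine ⟨Fv (cM M c) Q 0 / Fv (cM M c) A 0, funext fun i => ?_⟩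
  rw [Pi.smul_apply, smul_eq_mul, div_mul_eq_mul_div, eq_div_iff a0]
  fin_cases i
  · rfl
  · show Fv (cM M c) Q 1 * Fv (cM M c) A 0 = Fv (cM M c) Q 0 * Fv (cM M c) A 1
    rw [q1, a1]
    ring
  · show Fv (cM M c) Q 2 * Fv (cM M c) A 0 = Fv (cM M c) Q 0 * Fv (cM M c) A 2
    rw [q2, a2]
    ring

theorem Fv_mem (c : Fin 3 → Fin 6 → k) (E : IntermediateField k M) (A : Fin 2 → M)
    (hA : ∀ i, A i ∈ E) (i : Fin 3) : Fv (cM M c) A i ∈ E := by
  have hc : ∀ i j, cM M c i j ∈ E := fun i j => E.algebraMap_mem _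
  unfold Fv
  exact add_mem (add_mem (add_mem (add_mem (add_mem (hc _ _) (mul_mem (hc _ _) (hA 0)))
    (mul_mem (hc _ _) (hA 1))) (mul_mem (hc _ _) (pow_mem (hA 0) 2)))
    (mul_mem (mul_mem (hc _ _) (hA 0)) (hA 1))) (mul_mem (hc _ _) (pow_mem (hA 1) 2))

theorem lv_mem (c : Fin 3 → Fin 6 → k) (E : IntermediateField k M) (A d : Fin 2 → M)
    (hA : ∀ i, A i ∈ E) (hd : ∀ i, d i ∈ E) (i : Fin 3) : lv (cM M c) A d i ∈ E := by
  have hc : ∀ i j, cM M c i j ∈ E := fun i j => E.algebraMap_mem _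
  have h2 : (2 : M) ∈ E := ofNat_mem E 2
  unfold lv
  exact add_mem (add_mem (add_mem (add_mem (mul_mem (hc _ _) (hd 0)) (mul_mem (hc _ _) (hd 1)))
    (mul_mem (mul_mem (mul_mem h2 (hc _ _)) (hA 0)) (hd 0)))
    (mul_mem (hc _ _) (add_mem (mul_mem (hA 0) (hd 1)) (mul_mem (hA 1) (hd 0)))))
    (mul_mem (mul_mem (mul_mem h2 (hc _ _)) (hA 1)) (hd 1))

theorem qv_mem (c : Fin 3 → Fin 6 → k) (E : IntermediateField k M) (d : Fin 2 → M)
    (hd : ∀ i, d i ∈ E) (i : Fin 3) : qv (cM M c) d i ∈ E := by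
  have hc : ∀ i j, cM M c i j ∈ E := fun i j => E.algebraMap_mem _
  unfold qv
  exact add_mem (add_mem (mul_mem (hc _ _) (pow_mem (hd 0) 2))
    (mul_mem (mul_mem (hc _ _) (hd 0)) (hd 1))) (mul_mem (hc _ _) (pow_mem (hd 1) 2))

theorem Fb.mem {c : Fin 3 → Fin 6 → k} {y Q : Fin 2 → M} (h : Fb c y Q) (i : Fin 2) :
    y i ∈ IntermediateField.adjoin k (Set.range Q) := by
  obtain ⟨h0, h1, h2⟩ := h
  have hQ : ∀ i, Q i ∈ IntermediateField.adjoin k (Set.range Q) := fun i =>
    IntermediateField.subset_adjoin k _ ⟨i, rfl⟩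
  have hF := Fv_mem c _ Q hQ
  fin_cases i
  · show y 0 ∈ _
    rw [eq_div_of_mul_eq h0 h1.symm]
    exact div_mem (hF 1) (hF 0)
  · show y 1 ∈ _
    rw [eq_div_of_mul_eq h0 h2.symm]
    exact div_mem (hF 2) (hF 0)

/-- the points of the fibre over a generic point are generic -/
theorem Fb.indep (htr : Algebra.trdeg k M ≤ 2) {c : Fin 3 → Fin 6 → k} {y Q : Fin 2 → M}
    (hy : AlgebraicIndependent k y) (h : Fb c y Q) : AlgebraicIndependent k Q := by
  refine indep_of_alg hy fun x => alg_mono ?_ (alg_of_indep htr hy x)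
  rw [IntermediateField.adjoin_le_iff]
  rintro _ ⟨i, rfl⟩
  exact h.mem i

/-- the points of the fibre are conjugate over `k(y)` -/
theorem Fb.aut [IsAlgClosed M] (htr : Algebra.trdeg k M ≤ 2) {c : Fin 3 → Fin 6 → k}
    {y P Q : Fin 2 → M} (hy : AlgebraicIndependent k y) (hP : Fb c y P) (hQ : Fb c y Q) :
    ∃ t : M ≃ₐ[k] M, (∀ i, t (P i) = Q i) ∧ ∀ i, t (y i) = y i := by
  obtain ⟨t, ht⟩ := exists_aut htr (hP.indep htr hy) (hQ.indep htr hy)
  have ht' : (fun j => t (P j)) = Q := funext ht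
  have hF : ∀ i, t (Fv (cM M c) P i) = Fv (cM M c) Q i := fun i => by rw [aut_Fv, ht']
  refine ⟨t, ht, fun i => ?_⟩
  fin_cases i
  · show t (y 0) = y 0
    have h1 := congrArg t hP.2.1
    rw [map_mul, hF, hF, hQ.2.1] at h1
    exact (mul_right_cancel₀ hQ.1 h1).symm
  · show t (y 1) = y 1
    have h1 := congrArg t hP.2.2
    rw [map_mul, hF, hF, hQ.2.2] at h1
    exact (mul_right_cancel₀ hQ.1 h1).symm

theorem Fb.finite [IsAlgClosed M] (htr : Algebra.trdeg k M ≤ 2) {c : Fin 3 → Fin 6 → k}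
    {y P : Fin 2 → M} (hy : AlgebraicIndependent k y) (hP : Fb c y P) :
    {Q : Fin 2 → M | Fb c y Q}.Finite := by
  refine (Set.Finite.pi' (t := fun j => {x : M | ∃ σ ∈ Fx k (Set.range y), σ (P j) = x})
    fun j => orbit_finite (alg_of_indep htr hy (P j))).subset ?_
  intro Q hQ j
  obtain ⟨t, h1, h2⟩ := Fb.aut htr hy hP hQ
  refine ⟨t, ?_, h1 j⟩
  rintro _ ⟨i, rfl⟩
  exact h2 i

/-- the fibre contains no line -/
theorem no_line [IsAlgClosed M] {c : Fin 3 → Fin 6 → k} {y A d : Fin 2 → M}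
    (hfin : {Q : Fin 2 → M | Fb c y Q}.Finite) (hA : Fb c y A) (hd : d ≠ 0) {a b : M}
    (h1 : lv (cM M c) A d = a • Fv (cM M c) A) (h2 : qv (cM M c) d = b • Fv (cM M c) A) :
    False := by
  have hinj : Function.Injective (fun s : M => A + s • d) := by
    intro s s' hs
    have h3 : A + s • d = A + s' • d := hs
    have h4 : s • d = s' • d := add_left_cancel h3
    have h5 : (s - s') • d = 0 := by rw [sub_smul, h4, sub_self]
    rcases smul_eq_zero.1 h5 with h6 | h6
    · exact sub_eq_zero.1 h6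
    · exact absurd h6 hd
  have hF : ∀ s : M, Fv (cM M c) (A + s • d) = (1 + s * a + s ^ 2 * b) • Fv (cM M c) A := by
    intro s
    rw [Fv_add, h1, h2, add_smul, add_smul, one_smul, mul_smul, mul_smul]
  have hT : {s : M | 1 + s * a + s ^ 2 * b ≠ 0}.Finite := by
    refine (hfin.preimage hinj.injOn).subset ?_
    intro s hs
    have hs' : 1 + s * a + s ^ 2 * b ≠ 0 := hs
    show Fb c y (A + s • d)
    obtain ⟨a0, a1, a2⟩ := hA
    refine ⟨?_, ?_, ?_⟩
    · rw [hF, Pi.smul_apply, smul_eq_mul]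
      exact mul_ne_zero hs' a0
    · rw [hF, Pi.smul_apply, Pi.smul_apply, smul_eq_mul, smul_eq_mul, a1]
      ring
    · rw [hF, Pi.smul_apply, Pi.smul_apply, smul_eq_mul, smul_eq_mul, a2]
      ring
  have hT' : {s : M | 1 + s * a + s ^ 2 * b = 0}.Finite := by
    let p : Polynomial M := Polynomial.C b * Polynomial.X ^ 2 + Polynomial.C a * Polynomial.X +
      Polynomial.C 1
    have hp : p ≠ 0 := by
      intro h0
      have h3 : p.eval 0 = 1 := by simp [p]
      rw [h0, Polynomial.eval_zero] at h3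
      exact zero_ne_one h3
    refine (Polynomial.finite_setOfPred_isRoot hp).subset ?_
    intro s hs
    have hs' : 1 + s * a + s ^ 2 * b = 0 := hs
    show p.eval s = 0
    simp only [p, Polynomial.eval_add, Polynomial.eval_mul, Polynomial.eval_C,
      Polynomial.eval_pow, Polynomial.eval_X]
    rw [← hs']
    ring
  have : Infinite M := IsAlgClosed.instInfinite
  refine Set.infinite_univ (α := M) ((hT.union hT').subset fun s _ => ?_)
  by_cases h : 1 + s * a + s ^ 2 * b = 0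
  · exact Or.inr h
  · exact Or.inl h

/-- no three points of the fibre are on a line -/
theorem not_three [IsAlgClosed M] {c : Fin 3 → Fin 6 → k} {y A d : Fin 2 → M}
    (hfin : {Q : Fin 2 → M | Fb c y Q}.Finite) (hA : Fb c y A) (hd : d ≠ 0) {s t : M}
    (hs : s ≠ 0) (ht : t ≠ 0) (hst : s ≠ t) (h1 : Fb c y (A + s • d))
    (h2 : Fb c y (A + t • d)) : False := by
  obtain ⟨μ, hμ⟩ := hA.prop h1
  obtain ⟨ν, hν⟩ := hA.prop h2
  obtain ⟨⟨a, ha⟩, b, hb⟩ := line_of_three (cM M c) A d hs ht hst hμ hν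
  exact no_line hfin hA hd ha hb

/-- `E` contains the coefficients of the line through `A` in the direction `d` and of a line
containing its image -/
structure Ln (c : Fin 3 → Fin 6 → k) (A d : Fin 2 → M) (E : IntermediateField k M) : Prop where
  fg : E.FG
  tr : Algebra.trdeg k E ≤ 1
  pres : ∀ g ∈ Fx k (E : Set M), ∀ s : M, ∃ s' : M, (fun j => g ((A + s • d) j)) = A + s' • d
  ker : ∃ a : Fin 3 → M, a ≠ 0 ∧ (∀ i, a i ∈ E) ∧
    a 0 * Fv (cM M c) A 0 + a 1 * Fv (cM M c) A 1 + a 2 * Fv (cM M c) A 2 = 0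

theorem ker_of (c : Fin 3 → Fin 6 → k) (E : IntermediateField k M) (A B D : Fin 2 → M) (s : M)
    (hA : A = B + s • D) (hB : ∀ i, B i ∈ E) (hD : ∀ i, D i ∈ E)
    (hDD : DD (cM M c) B D = 0) : ∃ a : Fin 3 → M, a ≠ 0 ∧ (∀ i, a i ∈ E) ∧
      a 0 * Fv (cM M c) A 0 + a 1 * Fv (cM M c) A 1 + a 2 * Fv (cM M c) A 2 = 0 := by
  let N : Matrix (Fin 3) (Fin 3) E := ![fun i => ⟨_, Fv_mem c E B hB i⟩,
    fun i => ⟨_, lv_mem c E B D hB hD i⟩, fun i => ⟨_, qv_mem c E D hD i⟩]
  have hdet : N.det = 0 := by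
    apply Subtype.ext
    rw [Matrix.det_fin_three]
    show _ = (0 : M)
    rw [← hDD]
    show Fv (cM M c) B 0 * lv (cM M c) B D 1 * qv (cM M c) D 2 -
      Fv (cM M c) B 0 * lv (cM M c) B D 2 * qv (cM M c) D 1 -
      Fv (cM M c) B 1 * lv (cM M c) B D 0 * qv (cM M c) D 2 +
      Fv (cM M c) B 1 * lv (cM M c) B D 2 * qv (cM M c) D 0 +
      Fv (cM M c) B 2 * lv (cM M c) B D 0 * qv (cM M c) D 1 -
      Fv (cM M c) B 2 * lv (cM M c) B D 1 * qv (cM M c) D 0 = DD (cM M c) B D
    unfold DD dt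
    ring
  obtain ⟨v, hv0, hv⟩ := Matrix.exists_mulVec_eq_zero_iff.2 hdet
  refine ⟨fun i => v i, ?_, fun i => (v i).2, ?_⟩
  · intro h0
    exact hv0 (funext fun i => Subtype.ext (congrFun h0 i))
  · have e : ∀ i, (N i 0 : M) * v 0 + N i 1 * v 1 + N i 2 * v 2 = 0 := by
      intro i
      have h1 := congrArg Subtype.val (congrFun hv i)
      rw [Matrix.mulVec, dotProduct, Fin.sum_univ_three] at h1
      exact h1
    have e0 : Fv (cM M c) B 0 * v 0 + Fv (cM M c) B 1 * v 1 + Fv (cM M c) B 2 * v 2 = 0 := e 0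
    have e1 : lv (cM M c) B D 0 * v 0 + lv (cM M c) B D 1 * v 1 + lv (cM M c) B D 2 * v 2 = 0 :=
      e 1
    have e2 : qv (cM M c) D 0 * v 0 + qv (cM M c) D 1 * v 1 + qv (cM M c) D 2 * v 2 = 0 := e 2
    rw [hA, Fv_add]
    simp only [Pi.add_apply, Pi.smul_apply, smul_eq_mul]
    linear_combination e0 + s * e1 + s ^ 2 * e2

/-- lines on which the three polynomials are dependent -/
theorem exists_ln (c : Fin 3 → Fin 6 → k) (A d : Fin 2 → M) (hd : d ≠ 0)
    (hDD : DD (cM M c) A d = 0)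
    (hdep : d 0 ≠ 0 → ¬ AlgebraicIndependent k ![A 1 - d 1 / d 0 * A 0, d 1 / d 0]) :
    ∃ E : IntermediateField k M, Ln c A d E := by
  by_cases h0 : d 0 = 0
  · have h1 : d 1 ≠ 0 := by
      intro h1
      apply hd
      funext i
      fin_cases i
      · exact h0
      · exact h1
    have hmem : A 0 ∈ IntermediateField.adjoin k {A 0} :=
      IntermediateField.mem_adjoin_simple_self k _
    refine ⟨IntermediateField.adjoin k {A 0}, ⟨?_, ?_, ?_, ?_⟩⟩
    · exact ⟨{A 0}, by simp⟩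
    · refine trdeg_one_of_single _ (A 0) fun x hx => ?_
      exact isAlgebraic_algebraMap (⟨x, hx⟩ : IntermediateField.adjoin k {A 0})
    · intro g hg s
      refine ⟨(g ((A + s • d) 1) - A 1) / d 1, funext fun j => ?_⟩
      fin_cases j
      · show g (A 0 + s * d 0) = A 0 + _ * d 0
        rw [h0, mul_zero, mul_zero, add_zero]
        exact hg _ hmem
      · show g ((A + s • d) 1) = A 1 + (g ((A + s • d) 1) - A 1) / d 1 * d 1
        rw [div_mul_cancel₀ _ h1]
        ring
    · refine ker_of c _ A ![A 0, 0] ![0, 1] (A 1) ?_ ?_ ?_ ?_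
      · funext j
        fin_cases j
        · show A 0 = A 0 + A 1 * 0
          rw [mul_zero, add_zero]
        · show A 1 = 0 + A 1 * 1
          rw [mul_one, zero_add]
      · intro i
        fin_cases i
        · exact hmem
        · exact zero_mem _
      · intro i
        fin_cases i
        · exact zero_mem _
        · exact one_mem _
      · have e1 : d = d 1 • (![0, 1] : Fin 2 → M) := by
          funext j
          fin_cases j
          · show d 0 = d 1 * 0
            rw [h0, mul_zero]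
          · show d 1 = d 1 * 1
            rw [mul_one]
        have e2 : A = ![A 0, 0] + A 1 • (![0, 1] : Fin 2 → M) := by
          funext j
          fin_cases j
          · show A 0 = A 0 + A 1 * 0
            rw [mul_zero, add_zero]
          · show A 1 = 0 + A 1 * 1
            rw [mul_one, zero_add]
        rw [e1, DD_smul, e2, DD_shift] at hDD
        exact (mul_eq_zero.1 hDD).resolve_left (pow_ne_zero 3 h1)
  · obtain ⟨D, hD⟩ : ∃ D, D = d 1 / d 0 := ⟨_, rfl⟩
    obtain ⟨B, hB⟩ : ∃ B, B = A 1 - D * A 0 := ⟨_, rfl⟩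
    have h3 := hdep h0
    rw [← hD, ← hB] at h3
    have hDm : D ∈ IntermediateField.adjoin k {B, D} :=
      IntermediateField.subset_adjoin k _ (Or.inr rfl)
    have hBm : B ∈ IntermediateField.adjoin k {B, D} :=
      IntermediateField.subset_adjoin k _ (Or.inl rfl)
    have hd1 : d 1 = D * d 0 := by rw [hD, div_mul_cancel₀ _ h0]
    have hA1 : A 1 = B + D * A 0 := by rw [hB]; ring
    refine ⟨IntermediateField.adjoin k {B, D}, ⟨?_, trdeg_pair h3, ?_, ?_⟩⟩
    · classical
      exact ⟨{B, D}, by simp⟩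
    · intro g hg s
      have hgD : g D = D := hg _ hDm
      have hgB : g B = B := hg _ hBm
      refine ⟨(g (A 0 + s * d 0) - A 0) / d 0, funext fun j => ?_⟩
      fin_cases j
      · show g (A 0 + s * d 0) = A 0 + (g (A 0 + s * d 0) - A 0) / d 0 * d 0
        rw [div_mul_cancel₀ _ h0]
        ring
      · show g (A 1 + s * d 1) = A 1 + (g (A 0 + s * d 0) - A 0) / d 0 * d 1
        have e1 : A 1 + s * d 1 = B + D * (A 0 + s * d 0) := by
          rw [hA1, hd1]
          ring
        rw [e1, map_add, map_mul, hgB, hgD, hd1, hA1]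
        have e2 : (g (A 0 + s * d 0) - A 0) / d 0 * (D * d 0) =
            D * (g (A 0 + s * d 0) - A 0) := by
          field_simp
        rw [e2]
        ring
    · have e1 : d = d 0 • (![1, D] : Fin 2 → M) := by
        funext j
        fin_cases j
        · show d 0 = d 0 * 1
          rw [mul_one]
        · show d 1 = d 0 * D
          rw [hd1, mul_comm]
      have e2 : A = ![0, B] + A 0 • (![1, D] : Fin 2 → M) := by
        funext j
        fin_cases j
        · show A 0 = 0 + A 0 * 1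
          rw [mul_one, zero_add]
        · show A 1 = B + A 0 * D
          rw [hA1, mul_comm]
      refine ker_of c _ A ![0, B] ![1, D] (A 0) e2 ?_ ?_ ?_
      · intro i
        fin_cases i
        · exact zero_mem _
        · exact hBm
      · intro i
        fin_cases i
        · exact one_mem _
        · exact hDm
      · rw [e1, DD_smul, e2, DD_shift] at hDD
        exact (mul_eq_zero.1 hDD).resolve_left (pow_ne_zero 3 h0)

/-- the condition on the lines with all slopes -/
noncomputable def Dl (c : Fin 3 → Fin 6 → k) : MvPolynomial (Fin 2) k :=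
  DD (fun i j => MvPolynomial.C (c i j)) ![0, MvPolynomial.X 0] ![1, MvPolynomial.X 1]

theorem aeval_Dl (c : Fin 3 → Fin 6 → k) (B D : M) :
    MvPolynomial.aeval ![B, D] (Dl c) = DD (cM M c) ![0, B] ![1, D] := by
  have h := map_DD (MvPolynomial.aeval (R := k) ![B, D] : MvPolynomial (Fin 2) k →+* M)
    (fun i j => MvPolynomial.C (c i j)) ![0, MvPolynomial.X 0] ![1, MvPolynomial.X 1]
  have e0 : (fun i j => (MvPolynomial.aeval (R := k) ![B, D] : MvPolynomial (Fin 2) k →+* M)
      (MvPolynomial.C (c i j))) = cM M c := by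
    funext i j
    exact MvPolynomial.aeval_C _ _
  have e1 : (fun j => (MvPolynomial.aeval (R := k) ![B, D] : MvPolynomial (Fin 2) k →+* M)
      ((![0, MvPolynomial.X 0] : Fin 2 → MvPolynomial (Fin 2) k) j)) = ![0, B] := by
    funext j
    fin_cases j
    · exact map_zero _
    · exact MvPolynomial.aeval_X _ _
  have e2 : (fun j => (MvPolynomial.aeval (R := k) ![B, D] : MvPolynomial (Fin 2) k →+* M)
      ((![1, MvPolynomial.X 1] : Fin 2 → MvPolynomial (Fin 2) k) j)) = ![1, D] := by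
    funext j
    fin_cases j
    · exact map_one _
    · exact MvPolynomial.aeval_X _ _
  rw [e0, e1, e2] at h
  exact h

theorem DD_std (c : Fin 3 → Fin 6 → M) (A : Fin 2 → M) (D : M) :
    DD c A ![1, D] = DD c ![0, A 1 - D * A 0] ![1, D] := by
  have e2 : A = ![0, A 1 - D * A 0] + A 0 • (![1, D] : Fin 2 → M) := by
    funext j
    fin_cases j
    · show A 0 = 0 + A 0 * 1
      rw [mul_one, zero_add]
    · show A 1 = A 1 - D * A 0 + A 0 * D
      ring
  conv_lhs => rw [e2]
  exact DD_shift _ _ _ _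

/-- if the condition is not empty all lines which satisfy it belong to a family with one
parameter -/
theorem ln_of_Dl {c : Fin 3 → Fin 6 → k} (hD : Dl c ≠ 0) (A d : Fin 2 → M) (hd : d ≠ 0)
    (hDD : DD (cM M c) A d = 0) : ∃ E : IntermediateField k M, Ln c A d E := by
  refine exists_ln c A d hd hDD fun h0 hind => hD ?_
  have h1 : MvPolynomial.aeval ![A 1 - d 1 / d 0 * A 0, d 1 / d 0] (Dl c) = 0 := by
    rw [aeval_Dl, ← DD_std]
    have e1 : d = d 0 • (![1, d 1 / d 0] : Fin 2 → M) := by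
      funext j
      fin_cases j
      · show d 0 = d 0 * 1
        rw [mul_one]
      · show d 1 = d 0 * (d 1 / d 0)
        rw [mul_div_cancel₀ _ h0]
    rw [e1, DD_smul] at hDD
    exact (mul_eq_zero.1 hDD).resolve_left (pow_ne_zero 3 h0)
  exact (map_eq_zero_iff _ hind).1 h1

/-- if the condition is empty the lines whose slope is constant belong to a family with one
parameter -/
theorem ln_of_Dl_zero {c : Fin 3 → Fin 6 → k} (hD : Dl c = 0) (A : Fin 2 → M) (s : M)
    (hs : IsAlgebraic k s) : ∃ E : IntermediateField k M, Ln c A ![1, s] E := by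
  refine exists_ln c A ![1, s] (fun h => one_ne_zero (congrFun h 0)) ?_ fun _ hind => ?_
  · rw [DD_std, ← aeval_Dl, hD, map_zero]
  · have h1 := hind.transcendental 1
    apply h1
    show IsAlgebraic k (s / 1)
    rwa [div_one]

end

end Pool.Agent.NOC
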