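import Mathlib

/-!
# Nets of conics: lines on which the three quadratic polynomials are linearly dependent
-/

set_option autoImplicit false

namespace Pool.Agent.NOC

section

variable {M : Type*} [CommRing M]

/-- the determinant of three vectors -/
def dt (u v w : Fin 3 → M) : M :=
  u 0 * (v 1 * w 2 - v 2 * w 1) - u 1 * (v 0 * w 2 - v 2 * w 0) + u 2 * (v 0 * w 1 - v 1 * w 0)

/-- the values of three quadratic polynomials -/
def Fv (c : Fin 3 → Fin 6 → M) (A : Fin 2 → M) (i : Fin 3) : M :=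
  c i 0 + c i 1 * A 0 + c i 2 * A 1 + c i 3 * A 0 ^ 2 + c i 4 * A 0 * A 1 + c i 5 * A 1 ^ 2

/-- the derivatives in the direction `d` -/
def lv (c : Fin 3 → Fin 6 → M) (A d : Fin 2 → M) (i : Fin 3) : M :=
  c i 1 * d 0 + c i 2 * d 1 + 2 * c i 3 * A 0 * d 0 + c i 4 * (A 0 * d 1 + A 1 * d 0) +
    2 * c i 5 * A 1 * d 1

/-- the quadratic parts -/
def qv (c : Fin 3 → Fin 6 → M) (d : Fin 2 → M) (i : Fin 3) : M :=
  c i 3 * d 0 ^ 2 + c i 4 * d 0 * d 1 + c i 5 * d 1 ^ 2

/-- the polar forms of the quadratic parts -/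
def bv (c : Fin 3 → Fin 6 → M) (d e : Fin 2 → M) (i : Fin 3) : M :=
  2 * c i 3 * d 0 * e 0 + c i 4 * (d 0 * e 1 + d 1 * e 0) + 2 * c i 5 * d 1 * e 1

/-- the condition for the line through `A` in the direction `d` -/
def DD (c : Fin 3 → Fin 6 → M) (A d : Fin 2 → M) : M := dt (Fv c A) (lv c A d) (qv c d)

/-- the Jacobian determinant -/
def Jv (c : Fin 3 → Fin 6 → M) (A : Fin 2 → M) : M :=
  dt (Fv c A) (lv c A ![1, 0]) (lv c A ![0, 1])

end

section

variable {R S : Type*} [CommRing R] [CommRing S] (φ : R →+* S)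

theorem map_Fv (c : Fin 3 → Fin 6 → R) (A : Fin 2 → R) (i : Fin 3) :
    φ (Fv c A i) = Fv (fun i j => φ (c i j)) (fun j => φ (A j)) i := by
  simp only [Fv, map_add, map_mul, map_pow]

theorem map_lv (c : Fin 3 → Fin 6 → R) (A d : Fin 2 → R) (i : Fin 3) :
    φ (lv c A d i) = lv (fun i j => φ (c i j)) (fun j => φ (A j)) (fun j => φ (d j)) i := by
  simp only [lv, map_add, map_mul, map_ofNat]

theorem map_qv (c : Fin 3 → Fin 6 → R) (d : Fin 2 → R) (i : Fin 3) :
    φ (qv c d i) = qv (fun i j => φ (c i j)) (fun j => φ (d j)) i := by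
  simp only [qv, map_add, map_mul, map_pow]

theorem map_dt (u v w : Fin 3 → R) :
    φ (dt u v w) = dt (fun i => φ (u i)) (fun i => φ (v i)) (fun i => φ (w i)) := by
  simp only [dt, map_add, map_sub, map_mul]

theorem map_DD (c : Fin 3 → Fin 6 → R) (A d : Fin 2 → R) :
    φ (DD c A d) = DD (fun i j => φ (c i j)) (fun j => φ (A j)) (fun j => φ (d j)) := by
  unfold DD
  rw [map_dt]
  simp only [map_Fv, map_lv, map_qv]

theorem map_Jv (c : Fin 3 → Fin 6 → R) (A : Fin 2 → R) :
    φ (Jv c A) = Jv (fun i j => φ (c i j)) (fun j => φ (A j)) := by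
  unfold Jv
  rw [map_dt]
  have e0 : (fun j => φ ((![1, 0] : Fin 2 → R) j)) = ![1, 0] := by
    funext j
    fin_cases j <;> simp
  have e1 : (fun j => φ ((![0, 1] : Fin 2 → R) j)) = ![0, 1] := by
    funext j
    fin_cases j <;> simp
  simp only [map_Fv, map_lv, e0, e1]

end

section

variable {M : Type*} [Field M]

theorem Fv_add (c : Fin 3 → Fin 6 → M) (A d : Fin 2 → M) (s : M) :
    Fv c (A + s • d) = Fv c A + s • lv c A d + s ^ 2 • qv c d := by
  funext i
  simp only [Fv, lv, qv, Pi.add_apply, Pi.smul_apply, smul_eq_mul]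
  ring

theorem lv_add (c : Fin 3 → Fin 6 → M) (A d e : Fin 2 → M) (s : M) :
    lv c (A + s • d) e = lv c A e + s • bv c d e := by
  funext i
  simp only [lv, bv, Pi.add_apply, Pi.smul_apply, smul_eq_mul]
  ring

theorem bv_self (c : Fin 3 → Fin 6 → M) (d : Fin 2 → M) : bv c d d = (2 : M) • qv c d := by
  funext i
  simp only [bv, qv, Pi.smul_apply, smul_eq_mul]
  ring

theorem lv_comb (c : Fin 3 → Fin 6 → M) (A d e : Fin 2 → M) (x y : M) :
    lv c A (x • d + y • e) = x • lv c A d + y • lv c A e := by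
  funext i
  simp only [lv, Pi.add_apply, Pi.smul_apply, smul_eq_mul]
  ring

theorem qv_comb (c : Fin 3 → Fin 6 → M) (d e : Fin 2 → M) (x y : M) :
    qv c (x • d + y • e) = x ^ 2 • qv c d + (x * y) • bv c d e + y ^ 2 • qv c e := by
  funext i
  simp only [qv, bv, Pi.add_apply, Pi.smul_apply, smul_eq_mul]
  ring

theorem DD_shift (c : Fin 3 → Fin 6 → M) (A d : Fin 2 → M) (s : M) :
    DD c (A + s • d) d = DD c A d := by
  unfold DD
  rw [Fv_add, lv_add, bv_self]
  simp only [dt, Pi.add_apply, Pi.smul_apply, smul_eq_mul]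
  ring

theorem DD_smul (c : Fin 3 → Fin 6 → M) (A d : Fin 2 → M) (s : M) :
    DD c A (s • d) = s ^ 3 * DD c A d := by
  simp only [DD, dt, lv, qv, Pi.smul_apply, smul_eq_mul]
  ring

/-- two points with proportional values -/
theorem DD_of_two (c : Fin 3 → Fin 6 → M) (A d : Fin 2 → M) {μ : M}
    (h : lv c A d + qv c d = μ • Fv c A) : DD c A d = 0 := by
  have h' : ∀ i, qv c d i = μ * Fv c A i - lv c A d i := by
    intro i
    have := congrFun h i
    simp only [Pi.add_apply, Pi.smul_apply, smul_eq_mul] at this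
    rw [← this]
    ring
  unfold DD dt
  rw [h', h', h']
  ring

/-- the form `DD` in the coordinates given by a second point -/
theorem DD_comb (c : Fin 3 → Fin 6 → M) (A d e : Fin 2 → M) {μ : M}
    (h : lv c A d + qv c d = μ • Fv c A) (x y : M) :
    DD c A (x • d + y • e) = y * (x ^ 2 * (dt (Fv c A) (lv c A d) (bv c d e) +
      dt (Fv c A) (lv c A d) (lv c A e)) +
      x * y * (dt (Fv c A) (lv c A d) (qv c e) + dt (Fv c A) (lv c A e) (bv c d e)) +
      y ^ 2 * dt (Fv c A) (lv c A e) (qv c e)) := by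
  have h' : ∀ i, qv c d i = μ * Fv c A i - lv c A d i := by
    intro i
    have := congrFun h i
    simp only [Pi.add_apply, Pi.smul_apply, smul_eq_mul] at this
    rw [← this]
    ring
  unfold DD
  rw [lv_comb, qv_comb]
  simp only [dt, Pi.add_apply, Pi.smul_apply, smul_eq_mul]
  rw [h', h', h']
  ring

theorem Jv_eq (c : Fin 3 → Fin 6 → M) (A d e : Fin 2 → M) :
    dt (Fv c A) (lv c A d) (lv c A e) = (d 0 * e 1 - d 1 * e 0) * Jv c A := by
  simp only [Jv, dt, lv, Matrix.cons_val_zero, Matrix.cons_val_one]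
  ring

/-- the Jacobian determinant at the second point -/
theorem Jv_second (c : Fin 3 → Fin 6 → M) (A d e : Fin 2 → M) {μ : M}
    (h : lv c A d + qv c d = μ • Fv c A) :
    (d 0 * e 1 - d 1 * e 0) * Jv c (A + d) = -((1 + μ) *
      (dt (Fv c A) (lv c A d) (bv c d e) + dt (Fv c A) (lv c A d) (lv c A e))) := by
  have h' : ∀ i, qv c d i = μ * Fv c A i - lv c A d i := by
    intro i
    have := congrFun h i
    simp only [Pi.add_apply, Pi.smul_apply, smul_eq_mul] at this
    rw [← this]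
    ring
  have e0 : A + d = A + (1 : M) • d := by rw [one_smul]
  rw [← Jv_eq, e0, Fv_add, lv_add, lv_add, bv_self]
  simp only [dt, Pi.add_apply, Pi.smul_apply, smul_eq_mul]
  rw [h', h', h']
  ring

theorem plucker (f v a b w : Fin 3 → M) :
    dt f v a * dt f b w - dt f v b * dt f a w + dt f v w * dt f a b = 0 := by
  simp only [dt]
  ring

theorem dt_swap (f a b : Fin 3 → M) : dt f a b = -dt f b a := by
  simp only [dt]
  ring

/-- a vector which is not proportional to `f` has a nonzero pairing -/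
theorem exists_dt_ne {f v : Fin 3 → M} (hf : f ≠ 0) (hv : ∀ ν : M, v ≠ ν • f) :
    ∃ w, dt f v w ≠ 0 := by
  by_contra hcon
  push Not at hcon
  have h0 := hcon ![1, 0, 0]
  have h1 := hcon ![0, 1, 0]
  have h2 := hcon ![0, 0, 1]
  simp only [dt, Matrix.cons_val_zero, Matrix.cons_val_one, Matrix.cons_val_two,
    Matrix.head_cons, Matrix.tail_cons, mul_zero, mul_one, sub_zero, zero_sub] at h0 h1 h2
  obtain ⟨i, hi⟩ := Function.ne_iff.1 hf
  have hi' : f i ≠ 0 := hi
  refine hv (v i / f i) (funext fun j => ?_)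
  rw [Pi.smul_apply, smul_eq_mul, div_mul_eq_mul_div, eq_div_iff hi']
  fin_cases i <;> fin_cases j <;> simp only [Fin.zero_eta, Fin.mk_one, Fin.reduceFinMk] <;>
    first
      | ring1
      | linear_combination h0
      | linear_combination -h0
      | linear_combination h1
      | linear_combination -h1
      | linear_combination h2
      | linear_combination -h2

/-- If `d` is a root of the cubic form `DD c A`, coming from a second point, and the form is not
zero, then the form has a root which is not proportional to `d`. -/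
theorem exists_second [IsAlgClosed M] (c : Fin 3 → Fin 6 → M) (A d e : Fin 2 → M) {μ : M}
    (h : lv c A d + qv c d = μ • Fv c A) (hF : Fv c A ≠ 0) (hde : d 0 * e 1 - d 1 * e 0 ≠ 0)
    (hJ : Jv c (A + d) = 0 → Jv c A = 0) (hv : ∀ ν : M, lv c A d ≠ ν • Fv c A)
    (hD : ∃ d', DD c A d' ≠ 0) : ∃ x : M, DD c A (x • d + e) = 0 := by
  obtain ⟨α, hα⟩ : ∃ α, α = dt (Fv c A) (lv c A d) (bv c d e) +
    dt (Fv c A) (lv c A d) (lv c A e) := ⟨_, rfl⟩
  obtain ⟨β, hβ⟩ : ∃ β, β = dt (Fv c A) (lv c A d) (qv c e) +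
    dt (Fv c A) (lv c A e) (bv c d e) := ⟨_, rfl⟩
  obtain ⟨γ, hγ⟩ : ∃ γ, γ = dt (Fv c A) (lv c A e) (qv c e) := ⟨_, rfl⟩
  have key : ∀ x y : M, DD c A (x • d + y • e) = y * (x ^ 2 * α + x * y * β + y ^ 2 * γ) := by
    intro x y
    rw [DD_comb c A d e h, hα, hβ, hγ]
  have h1 : ∀ x : M, DD c A (x • d + e) = α * x ^ 2 + β * x + γ := by
    intro x
    have := key x 1
    rw [one_smul] at this
    rw [this]
    ring
  by_cases hα0 : α = 0
  · by_cases hβ0 : β = 0
    · exfalso
      have h2 : Jv c (A + d) = 0 := by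
        have h3 := Jv_second c A d e h
        rw [← hα, hα0, mul_zero, neg_zero] at h3
        exact (mul_eq_zero.1 h3).resolve_left hde
      have h3 := hJ h2
      have h4 : dt (Fv c A) (lv c A d) (lv c A e) = 0 := by rw [Jv_eq, h3, mul_zero]
      have h5 : dt (Fv c A) (lv c A d) (bv c d e) = 0 := by
        rw [hα0, h4, add_zero] at hα
        exact hα.symm
      obtain ⟨w, hw⟩ := exists_dt_ne hF hv
      have h6 : dt (Fv c A) (lv c A e) (bv c d e) = 0 := by
        have := plucker (Fv c A) (lv c A d) (lv c A e) (bv c d e) w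
        rw [h4, h5, zero_mul, zero_mul, sub_zero, zero_add] at this
        exact (mul_eq_zero.1 this).resolve_left hw
      have h7 : dt (Fv c A) (lv c A d) (qv c e) = 0 := by
        rw [hβ0, h6, add_zero] at hβ
        exact hβ.symm
      have h8 : γ = 0 := by
        have := plucker (Fv c A) (lv c A d) (lv c A e) (qv c e) w
        rw [h4, h7, zero_mul, zero_mul, sub_zero, zero_add] at this
        rw [hγ]
        exact (mul_eq_zero.1 this).resolve_left hw
      obtain ⟨d', hd'⟩ := hD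
      apply hd'
      obtain ⟨x, y, hxy⟩ : ∃ x y : M, d' = x • d + y • e := by
        refine ⟨(d' 0 * e 1 - d' 1 * e 0) / (d 0 * e 1 - d 1 * e 0),
          (d 0 * d' 1 - d 1 * d' 0) / (d 0 * e 1 - d 1 * e 0), ?_⟩
        funext i
        fin_cases i
        · simp only [Fin.zero_eta, Pi.add_apply, Pi.smul_apply, smul_eq_mul]
          rw [div_mul_eq_mul_div, div_mul_eq_mul_div, ← add_div, eq_div_iff hde]
          ring
        · simp only [Fin.mk_one, Pi.add_apply, Pi.smul_apply, smul_eq_mul]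
          rw [div_mul_eq_mul_div, div_mul_eq_mul_div, ← add_div, eq_div_iff hde]
          ring
      rw [hxy, key, hα0, hβ0, h8]
      ring
    · refine ⟨-γ / β, ?_⟩
      rw [h1, hα0]
      field_simp
      ring
  · obtain ⟨x, hx⟩ := IsAlgClosed.exists_root
      (Polynomial.C α * Polynomial.X ^ 2 + Polynomial.C β * Polynomial.X + Polynomial.C γ)
      (by rw [Polynomial.degree_quadratic hα0]; decide)
    refine ⟨x, ?_⟩
    rw [h1]
    simpa using hx

/-- the cubic form has a root -/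
theorem exists_first [IsAlgClosed M] (c : Fin 3 → Fin 6 → M) (A : Fin 2 → M) :
    ∃ d : Fin 2 → M, d ≠ 0 ∧ DD c A d = 0 := by
  by_cases h0 : DD c A ![0, 1] = 0
  · exact ⟨![0, 1], fun h => one_ne_zero (congrFun h 1), h0⟩
  · obtain ⟨a₀, a₁, a₂, hk⟩ : ∃ a₀ a₁ a₂ : M, ∀ x, DD c A ![1, x] =
        DD c A ![0, 1] * x ^ 3 + a₂ * x ^ 2 + a₁ * x + a₀ := by
      refine ⟨DD c A ![1, 0],
        dt (Fv c A) (lv c A ![1, 0]) (bv c ![1, 0] ![0, 1]) +
          dt (Fv c A) (lv c A ![0, 1]) (qv c ![1, 0]),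
        dt (Fv c A) (lv c A ![1, 0]) (qv c ![0, 1]) +
          dt (Fv c A) (lv c A ![0, 1]) (bv c ![1, 0] ![0, 1]), fun x => ?_⟩
      simp only [DD, dt, Fv, lv, qv, bv, Matrix.cons_val_zero, Matrix.cons_val_one]
      ring
    obtain ⟨x, hx⟩ := IsAlgClosed.exists_root
      (Polynomial.C (DD c A ![0, 1]) * Polynomial.X ^ 3 + Polynomial.C a₂ * Polynomial.X ^ 2 +
        Polynomial.C a₁ * Polynomial.X + Polynomial.C a₀)
      (by rw [Polynomial.degree_cubic h0]; decide)
    refine ⟨![1, x], fun h => one_ne_zero (congrFun h 0), ?_⟩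
    rw [hk]
    simpa using hx

/-- three points with proportional values -/
theorem line_of_three (c : Fin 3 → Fin 6 → M) (A d : Fin 2 → M) {s t μ ν : M} (hs : s ≠ 0)
    (ht : t ≠ 0) (hst : s ≠ t) (h1 : Fv c (A + s • d) = μ • Fv c A)
    (h2 : Fv c (A + t • d) = ν • Fv c A) :
    (∃ a : M, lv c A d = a • Fv c A) ∧ ∃ b : M, qv c d = b • Fv c A := by
  rw [Fv_add] at h1 h2
  have e1 : ∀ i, s * lv c A d i + s ^ 2 * qv c d i = (μ - 1) * Fv c A i := by
    intro i
    have := congrFun h1 i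
    simp only [Pi.add_apply, Pi.smul_apply, smul_eq_mul] at this
    linear_combination this
  have e2 : ∀ i, t * lv c A d i + t ^ 2 * qv c d i = (ν - 1) * Fv c A i := by
    intro i
    have := congrFun h2 i
    simp only [Pi.add_apply, Pi.smul_apply, smul_eq_mul] at this
    linear_combination this
  have hst' : s - t ≠ 0 := sub_ne_zero.2 hst
  have hne : s * t * (s - t) ≠ 0 := mul_ne_zero (mul_ne_zero hs ht) hst'
  refine ⟨⟨(s ^ 2 * (ν - 1) - t ^ 2 * (μ - 1)) / (s * t * (s - t)), funext fun i => ?_⟩,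
    ⟨(t * (μ - 1) - s * (ν - 1)) / (s * t * (s - t)), funext fun i => ?_⟩⟩
  · rw [Pi.smul_apply, smul_eq_mul, div_mul_eq_mul_div, eq_div_iff hne]
    linear_combination s ^ 2 * e2 i - t ^ 2 * e1 i
  · rw [Pi.smul_apply, smul_eq_mul, div_mul_eq_mul_div, eq_div_iff hne]
    linear_combination t * e1 i - s * e2 i

end

end Pool.Agent.NOC
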