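import Pool.Agent.NOC.Cores

/-!
# The corestriction from a subgroup, with a section of the quotient
-/

set_option autoImplicit false

namespace Pool.Agent.NOC

section

variable {G M X : Type*} [Group G] [CommGroup M] [MulDistribMulAction G M]
variable {D F : Subgroup G} {a : G → X → X} {s s' : X → G}

/-- the corestriction of a family of 1-cochains -/
def cr1' [Fintype X] (a : G → X → X) (s : X → G) (β : X → G → M) (σ : G) : M :=
  ∏ x, s (a σ x) • β x (nu a s σ x)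

theorem cr_cob' [Fintype X] (h : Sct D F a s) {C : G → G → M} {β : X → G → M}
    (hβ : ∀ σ ∈ D, ∀ x, β (a σ x) = β x)
    (hC : ∀ x, ∀ σ ∈ D, ∀ τ ∈ D, C (nu a s σ (a τ x)) (nu a s τ x) *
      β x (nu a s σ (a τ x) * nu a s τ x) =
        β x (nu a s σ (a τ x)) * nu a s σ (a τ x) • β x (nu a s τ x)) :
    ∀ σ ∈ D, ∀ τ ∈ D, cr a s C σ τ * cr1' a s β (σ * τ) = cr1' a s β σ * σ • cr1' a s β τ := by
  intro σ hσ τ hτ
  have e1 : cr1' a s β σ = ∏ x, s (a σ (a τ x)) • β (a τ x) (nu a s σ (a τ x)) :=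
    (prod_perm h hτ (fun x => s (a σ x) • β x (nu a s σ x))).symm
  have e2 : σ • cr1' a s β τ = ∏ x, σ • s (a τ x) • β x (nu a s τ x) := by
    unfold cr1'
    rw [Finset.smul_prod']
  rw [e1, e2]
  unfold cr cr1'
  rw [← Finset.prod_mul_distrib, ← Finset.prod_mul_distrib]
  refine Finset.prod_congr rfl fun x _ => ?_
  have f1 : a (σ * τ) x = a σ (a τ x) := h.mul _ hσ _ hτ x
  have f4 : σ • s (a τ x) • β x (nu a s τ x) =
      s (a σ (a τ x)) • nu a s σ (a τ x) • β x (nu a s τ x) := by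
    rw [← mul_smul, ← mul_smul, s_mul_nu]
  rw [f4, f1, h.nu_mul hσ hτ, ← smul_mul', ← smul_mul', hβ τ hτ, hC x σ hσ τ hτ]

theorem cr_conj [Fintype X] {g : G} {γ : X → X} (hγ : Function.Bijective γ)
    (ha : ∀ σ ∈ D, ∀ x, a σ (γ x) = γ (a (g⁻¹ * σ * g) x))
    (hs : ∀ x, s' (γ x) = g * s x * g⁻¹) (C : G → G → M) :
    ∀ σ ∈ D, ∀ τ ∈ D, g • cr a s C (g⁻¹ * σ * g) (g⁻¹ * τ * g) =
      cr a s' (fun σ τ => g • C (g⁻¹ * σ * g) (g⁻¹ * τ * g)) σ τ := by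
  intro σ hσ τ hτ
  unfold cr
  rw [Finset.smul_prod']
  refine Fintype.prod_bijective _ hγ _ _ fun x => ?_
  have hnu : ∀ ρ ∈ D, ∀ y, g⁻¹ * nu a s' ρ (γ y) * g = nu a s (g⁻¹ * ρ * g) y := by
    intro ρ hρ y
    unfold nu
    rw [ha ρ hρ, hs, hs]
    group
  have e : g⁻¹ * σ * g * (g⁻¹ * τ * g) = g⁻¹ * (σ * τ) * g := by group
  rw [e, ha _ (D.mul_mem hσ hτ), hs]
  beta_reduce
  rw [hnu τ hτ, ha τ hτ, hnu σ hσ, ← mul_smul, ← mul_smul]
  congr 1
  group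

theorem Sct.mono (h : Sct D F a s) {D' : Subgroup G} (hD : D' ≤ D) : Sct D' F a s :=
  ⟨h.one, fun σ hσ τ hτ => h.mul σ (hD hσ) τ (hD hτ), fun σ hσ => h.memF σ (hD hσ)⟩

end

section

variable {G : Type*} [Group G] (D F : Subgroup G)

/-- the cosets of `F` in `D` -/
abbrev QX := D ⧸ F.subgroupOf D

open Classical in
/-- the action of `D` on the cosets -/
noncomputable def qa (σ : G) (x : QX D F) : QX D F :=
  if h : σ ∈ D then (⟨σ, h⟩ : D) • x else x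

/-- representatives -/
noncomputable def qs (x : QX D F) : G := ((Quotient.out x : D) : G)

theorem qs_mem (x : QX D F) : qs D F x ∈ D := (Quotient.out x : D).2

/-- the class of an element of `D` -/
def qm {σ : G} (h : σ ∈ D) : QX D F := QuotientGroup.mk ⟨σ, h⟩

theorem qm_qs (x : QX D F) : qm D F (qs_mem D F x) = x := QuotientGroup.out_eq' x

theorem qm_eq {σ τ : G} (hσ : σ ∈ D) (hτ : τ ∈ D) : qm D F hσ = qm D F hτ ↔ σ⁻¹ * τ ∈ F := by
  unfold qm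
  rw [QuotientGroup.eq, Subgroup.mem_subgroupOf]
  rfl

theorem qa_qm {σ τ : G} (hσ : σ ∈ D) (hτ : τ ∈ D) :
    qa D F σ (qm D F hτ) = qm D F (D.mul_mem hσ hτ) := by
  unfold qa
  rw [dif_pos hσ]
  rfl

/-- a section of the quotient -/
structure Sec (s : QX D F → G) : Prop where
  mem : ∀ x, s x ∈ D
  eq : ∀ x, qm D F (mem x) = x

variable {D F}

theorem sec_qs : Sec D F (qs D F) := ⟨qs_mem D F, qm_qs D F⟩

theorem Sec.qa_eq {s : QX D F → G} (h : Sec D F s) {σ : G} (hσ : σ ∈ D) (x : QX D F) :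
    qa D F σ x = qm D F (D.mul_mem hσ (h.mem x)) := by
  rw [← qa_qm D F hσ (h.mem x), h.eq]

theorem Sec.sct {s : QX D F → G} (h : Sec D F s) : Sct D F (qa D F) s := by
  refine ⟨fun x => ?_, fun σ hσ τ hτ x => ?_, fun σ hσ x => ?_⟩
  · unfold qa
    rw [dif_pos D.one_mem]
    exact one_smul D x
  · unfold qa
    rw [dif_pos hσ, dif_pos hτ, dif_pos (D.mul_mem hσ hτ), ← mul_smul]
    rfl
  · have h1 : qm D F (h.mem (qa D F σ x)) = qm D F (D.mul_mem hσ (h.mem x)) := by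
      rw [h.eq, h.qa_eq hσ]
    rw [qm_eq, ← mul_assoc] at h1
    exact h1

theorem Sec.diff {s s' : QX D F → G} (h : Sec D F s) (h' : Sec D F s') (x : QX D F) :
    (s x)⁻¹ * s' x ∈ F := by
  rw [← qm_eq D F (h.mem x) (h'.mem x), h.eq, h'.eq]

/-- a section adapted to the orbits of a subgroup `D'` -/
theorem exists_adapted {D' : Subgroup G} (hD : D' ≤ D) : ∃ (r : QX D F → QX D F) (p : QX D F → G),
    (∀ x, p x ∈ D') ∧ (∀ σ ∈ D', ∀ x, r (qa D F σ x) = r x) ∧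
      Sec D F (fun x => p x * qs D F (r x)) := by
  classical
  have hS : Sct D F (qa D F) (qs D F) := sec_qs.sct
  let st : Setoid (QX D F) :=
    { r := fun x y => ∃ σ ∈ D', qa D F σ x = y
      iseqv :=
        { refl := fun x => ⟨1, D'.one_mem, hS.one x⟩
          symm := by
            rintro x y ⟨σ, hσ, rfl⟩
            refine ⟨σ⁻¹, D'.inv_mem hσ, ?_⟩
            rw [← hS.mul _ (hD (D'.inv_mem hσ)) _ (hD hσ), inv_mul_cancel, hS.one]
          trans := by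
            rintro x y z ⟨σ, hσ, rfl⟩ ⟨τ, hτ, rfl⟩
            exact ⟨τ * σ, D'.mul_mem hτ hσ, hS.mul _ (hD hτ) _ (hD hσ) x⟩ } }
  let r : QX D F → QX D F := fun x => (Quotient.mk st x).out
  have hr : ∀ x, ∃ σ ∈ D', qa D F σ (r x) = x := fun x =>
    Quotient.exact (s := st) (Quotient.out_eq (Quotient.mk st x))
  choose p hp hpe using hr
  refine ⟨r, p, hp, fun σ hσ x => ?_, ⟨fun x => D.mul_mem (hD (hp x)) (qs_mem D F _), fun x => ?_⟩⟩
  · show (Quotient.mk st (qa D F σ x)).out = (Quotient.mk st x).out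
    have h1 : Quotient.mk st x = Quotient.mk st (qa D F σ x) := Quotient.sound ⟨σ, hσ, rfl⟩
    rw [h1]
  · rw [← qa_qm D F (hD (hp x)) (qs_mem D F (r x)), qm_qs, hpe]

theorem qa_triv (hn : ∀ g ∈ D, ∀ σ ∈ F, g⁻¹ * σ * g ∈ F) (hle : F ≤ D) {σ : G} (hσ : σ ∈ F)
    (x : QX D F) : qa D F σ x = x := by
  have h1 := sec_qs.qa_eq (hle hσ) x
  rw [h1]
  conv_rhs => rw [← qm_qs D F x]
  rw [qm_eq, mul_inv_rev]
  have h2 := F.inv_mem (hn _ (qs_mem D F x) σ hσ)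
  have e : (qs D F x)⁻¹ * σ⁻¹ * qs D F x = ((qs D F x)⁻¹ * σ * qs D F x)⁻¹ := by group
  rw [e]
  exact h2

/-- conjugation by `g` on the cosets -/
theorem exists_conj [Finite (QX D F)] {g : G} (hD : ∀ σ, g⁻¹ * σ * g ∈ D ↔ σ ∈ D)
    (hF : ∀ σ, g⁻¹ * σ * g ∈ F ↔ σ ∈ F) : ∃ γ : QX D F → QX D F, Function.Bijective γ ∧
      (∀ σ ∈ D, ∀ x, qa D F σ (γ x) = γ (qa D F (g⁻¹ * σ * g) x)) ∧
      ∃ s' : QX D F → G, Sec D F s' ∧ ∀ x, s' (γ x) = g * qs D F x * g⁻¹ := by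
  classical
  have hD' : ∀ σ ∈ D, g * σ * g⁻¹ ∈ D := by
    intro σ hσ
    rw [← hD]
    have e : g⁻¹ * (g * σ * g⁻¹) * g = σ := by group
    rwa [e]
  have hF' : ∀ σ ∈ F, g * σ * g⁻¹ ∈ F := by
    intro σ hσ
    rw [← hF]
    have e : g⁻¹ * (g * σ * g⁻¹) * g = σ := by group
    rwa [e]
  let γ : QX D F → QX D F := fun x => qm D F (hD' _ (qs_mem D F x))
  have hγ : ∀ x, γ x = qm D F (hD' _ (qs_mem D F x)) := fun _ => rfl
  have hinj : Function.Injective γ := by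
    intro x y hxy
    rw [hγ, hγ, qm_eq] at hxy
    have e : (g * qs D F x * g⁻¹)⁻¹ * (g * qs D F y * g⁻¹) =
        g * ((qs D F x)⁻¹ * qs D F y) * g⁻¹ := by group
    rw [e, ← hF] at hxy
    have e' : g⁻¹ * (g * ((qs D F x)⁻¹ * qs D F y) * g⁻¹) * g = (qs D F x)⁻¹ * qs D F y := by group
    rw [e', ← qm_eq D F (qs_mem D F x) (qs_mem D F y), qm_qs, qm_qs] at hxy
    exact hxy
  have hbij : Function.Bijective γ := Finite.injective_iff_bijective.1 hinj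
  refine ⟨γ, hbij, fun σ hσ x => ?_, ?_⟩
  · have hσ' : g⁻¹ * σ * g ∈ D := (hD σ).2 hσ
    rw [hγ, hγ, qa_qm D F hσ, qm_eq]
    have h1 : (qs D F (qa D F (g⁻¹ * σ * g) x))⁻¹ * (g⁻¹ * σ * g) * qs D F x ∈ F :=
      sec_qs.sct.memF _ hσ' x
    have h2 := hF' _ (F.inv_mem h1)
    have e : (σ * (g * qs D F x * g⁻¹))⁻¹ * (g * qs D F (qa D F (g⁻¹ * σ * g) x) * g⁻¹) =
        g * ((qs D F (qa D F (g⁻¹ * σ * g) x))⁻¹ * (g⁻¹ * σ * g) * qs D F x)⁻¹ * g⁻¹ := by group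
    rw [e]
    exact h2
  · let γi := (Equiv.ofBijective γ hbij).symm
    have h1 : ∀ x, γ (γi x) = x := fun x => (Equiv.ofBijective γ hbij).apply_symm_apply x
    have h2 : ∀ x, γi (γ x) = x := fun x => (Equiv.ofBijective γ hbij).symm_apply_apply x
    refine ⟨fun x => g * qs D F (γi x) * g⁻¹, ⟨fun x => hD' _ (qs_mem D F _), fun x => ?_⟩,
      fun x => ?_⟩
    · rw [← hγ (γi x), h1]
    · beta_reduce
      rw [h2]

end

end Pool.Agent.NOC
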