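import Pool.Agent.NOC.Cores
import Pool.Agent.TBM.Br

/-!
# Conjugation, restriction and corestriction of systems of 2-cocycles
-/

set_option autoImplicit false

namespace Pool.Agent.NOC

open Pool.Agent.TBR

universe u

variable {k Ω : Type u} [Field k] [Field Ω] [Algebra k Ω]

/-- the conjugate of a cochain -/
def cj (t : Ω ≃ₐ[k] Ω) (C : (Ω ≃ₐ[k] Ω) → (Ω ≃ₐ[k] Ω) → Ωˣ) (σ τ : Ω ≃ₐ[k] Ω) : Ωˣ :=
  t • C (t⁻¹ * σ * t) (t⁻¹ * τ * t)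

theorem cj_one (C : (Ω ≃ₐ[k] Ω) → (Ω ≃ₐ[k] Ω) → Ωˣ) : cj 1 C = C := by
  funext σ τ
  unfold cj
  rw [one_smul, inv_one, one_mul, one_mul, mul_one, mul_one]

theorem cj_cj (g t : Ω ≃ₐ[k] Ω) (C : (Ω ≃ₐ[k] Ω) → (Ω ≃ₐ[k] Ω) → Ωˣ) :
    cj g (cj t C) = cj (g * t) C := by
  funext σ τ
  unfold cj
  have e : ∀ ρ : Ω ≃ₐ[k] Ω, t⁻¹ * (g⁻¹ * ρ * g) * t = (g * t)⁻¹ * ρ * (g * t) := fun ρ => by group
  rw [e, e, mul_smul]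

theorem cj_mul (t : Ω ≃ₐ[k] Ω) (C C' : (Ω ≃ₐ[k] Ω) → (Ω ≃ₐ[k] Ω) → Ωˣ) :
    cj t (fun σ τ => C σ τ * C' σ τ) = fun σ τ => cj t C σ τ * cj t C' σ τ := by
  funext σ τ
  unfold cj
  rw [smul_mul']

theorem cj_inv (t : Ω ≃ₐ[k] Ω) (C : (Ω ≃ₐ[k] Ω) → (Ω ≃ₐ[k] Ω) → Ωˣ) :
    cj t (fun σ τ => (C σ τ)⁻¹) = fun σ τ => (cj t C σ τ)⁻¹ := by
  funext σ τ
  unfold cj
  rw [smul_inv']

theorem Tri.cj {D D' : Subgroup (Ω ≃ₐ[k] Ω)} (t : Ω ≃ₐ[k] Ω)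
    (ht : ∀ σ ∈ D', t⁻¹ * σ * t ∈ D) {C : (Ω ≃ₐ[k] Ω) → (Ω ≃ₐ[k] Ω) → Ωˣ} (h : Tri D C) :
    Tri D' (NOC.cj t C) := by
  obtain ⟨b, hb, h1⟩ := h
  refine ⟨fun σ => t • b (t⁻¹ * σ * t), (hb.conj t (fun x _ => Set.mem_univ _)).smul t, ?_⟩
  intro σ hσ τ hτ
  show t • C (t⁻¹ * σ * t) (t⁻¹ * τ * t) * t • b (t⁻¹ * (σ * τ) * t) =
    t • b (t⁻¹ * σ * t) * σ • t • b (t⁻¹ * τ * t)
  have e1 : t⁻¹ * (σ * τ) * t = (t⁻¹ * σ * t) * (t⁻¹ * τ * t) := by group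
  have e2 : σ • t • b (t⁻¹ * τ * t) = t • (t⁻¹ * σ * t) • b (t⁻¹ * τ * t) := by
    rw [← mul_smul, ← mul_smul]
    congr 1
    group
  rw [e1, e2, ← smul_mul', ← smul_mul', h1 _ (ht σ hσ) _ (ht τ hτ)]

theorem mem_Fx_image {S : Set Ω} {t σ : Ω ≃ₐ[k] Ω} :
    σ ∈ Fx k (t '' S) ↔ t⁻¹ * σ * t ∈ Fx k S := by
  constructor
  · intro h x hx
    show t⁻¹ (σ (t x)) = x
    rw [h _ ⟨x, hx, rfl⟩]
    exact t.symm_apply_apply x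
  · rintro h _ ⟨x, hx, rfl⟩
    have h1 : t⁻¹ (σ (t x)) = x := h x hx
    calc σ (t x) = t (t⁻¹ (σ (t x))) := (t.apply_symm_apply _).symm
      _ = t x := by rw [h1]

theorem alg_conj {t σ : Ω ≃ₐ[k] Ω} (h : σ ∈ Fx k {x : Ω | IsAlgebraic k x}) :
    t⁻¹ * σ * t ∈ Fx k {x : Ω | IsAlgebraic k x} := by
  intro x hx
  show t⁻¹ (σ (t x)) = x
  rw [h (t x) (IsAlgebraic.algHom (t : Ω →ₐ[k] Ω) hx)]
  exact t.symm_apply_apply x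

theorem mem_Ge_image {S : Set Ω} {t σ : Ω ≃ₐ[k] Ω} (h : σ ∈ Ge k (t '' S)) :
    t⁻¹ * σ * t ∈ Ge k S := ⟨mem_Fx_image.1 h.1, alg_conj h.2⟩

theorem Ge_normal {S : Set Ω} {g σ : Ω ≃ₐ[k] Ω} (hg : g ∈ Fx k S) (h : σ ∈ Ge k S) :
    g⁻¹ * σ * g ∈ Ge k S :=
  ⟨(Fx k S).mul_mem ((Fx k S).mul_mem ((Fx k S).inv_mem hg) h.1) hg, alg_conj h.2⟩

/-- the conjugate of a system -/
theorem SysU.cj {S : Set Ω} {ℓ : ℕ} {C : ℕ → (Ω ≃ₐ[k] Ω) → (Ω ≃ₐ[k] Ω) → Ωˣ}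
    (hC : SysU S ℓ C) (t : Ω ≃ₐ[k] Ω) : SysU (t '' S) ℓ (fun n => NOC.cj t (C n)) where
  lc n := ((hC.lc n).conj t (fun x _ => Set.mem_univ _)).smul t
  coc n := by
    intro σ hσ τ hτ ρ hρ
    have h := hC.coc n _ (mem_Ge_image hσ) _ (mem_Ge_image hτ) _ (mem_Ge_image hρ)
    show t • C n (t⁻¹ * σ * t) (t⁻¹ * τ * t) * t • C n (t⁻¹ * (σ * τ) * t) (t⁻¹ * ρ * t) =
      σ • t • C n (t⁻¹ * τ * t) (t⁻¹ * ρ * t) * t • C n (t⁻¹ * σ * t) (t⁻¹ * (τ * ρ) * t)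
    have e1 : t⁻¹ * (σ * τ) * t = (t⁻¹ * σ * t) * (t⁻¹ * τ * t) := by group
    have e3 : t⁻¹ * (τ * ρ) * t = (t⁻¹ * τ * t) * (t⁻¹ * ρ * t) := by group
    have e2 : σ • t • C n (t⁻¹ * τ * t) (t⁻¹ * ρ * t) =
        t • (t⁻¹ * σ * t) • C n (t⁻¹ * τ * t) (t⁻¹ * ρ * t) := by
      rw [← mul_smul, ← mul_smul]
      congr 1
      group
    rw [e1, e2, e3, ← smul_mul', ← smul_mul', h]
  zero := Tri.cj t (fun _ h => mem_Ge_image h) hC.zero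
  step n := by
    refine (Tri.cj t (fun _ h => mem_Ge_image h) (hC.step n)).congr fun σ _ τ _ => ?_
    show t • (C (n + 1) (t⁻¹ * σ * t) (t⁻¹ * τ * t) ^ ℓ * (C n (t⁻¹ * σ * t) (t⁻¹ * τ * t))⁻¹) =
      (t • C (n + 1) (t⁻¹ * σ * t) (t⁻¹ * τ * t)) ^ ℓ *
        (t • C n (t⁻¹ * σ * t) (t⁻¹ * τ * t))⁻¹
    rw [smul_mul', smul_inv', smul_pow']
  inv n g hg := by
    have h1 : t⁻¹ * g * t ∈ Fx k S := mem_Fx_image.1 hg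
    refine (Tri.cj t (fun _ h => mem_Ge_image h) (hC.inv n _ h1)).congr fun σ _ τ _ => ?_
    show t • ((t⁻¹ * g * t) • C n ((t⁻¹ * g * t)⁻¹ * (t⁻¹ * σ * t) * (t⁻¹ * g * t))
        ((t⁻¹ * g * t)⁻¹ * (t⁻¹ * τ * t) * (t⁻¹ * g * t)) *
        (C n (t⁻¹ * σ * t) (t⁻¹ * τ * t))⁻¹) =
      g • t • C n (t⁻¹ * (g⁻¹ * σ * g) * t) (t⁻¹ * (g⁻¹ * τ * g) * t) *
        (t • C n (t⁻¹ * σ * t) (t⁻¹ * τ * t))⁻¹
    have e : ∀ ρ : Ω ≃ₐ[k] Ω, (t⁻¹ * g * t)⁻¹ * (t⁻¹ * ρ * t) * (t⁻¹ * g * t) =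
        t⁻¹ * (g⁻¹ * ρ * g) * t := fun ρ => by group
    rw [e, e, smul_mul', smul_inv', ← mul_smul, ← mul_smul]
    congr 2
    group
  unr n V hV hV' := by
    refine Tri.cj t ?_ (hC.unr n (V.comap (t : Ω →+* Ω)) ?_ ?_)
    · rintro σ ⟨hσ, hσV⟩
      refine ⟨mem_Ge_image hσ, fun x => ?_⟩
      show t (t⁻¹ (σ (t x))) ∈ V ↔ t x ∈ V
      have e : t (t⁻¹ (σ (t x))) = σ (t x) := t.apply_symm_apply _
      rw [e]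
      exact hσV (t x)
    · intro x
      show t (algebraMap k Ω x) ∈ V
      rw [t.commutes]
      exact hV x
    · intro htop
      refine hV' (top_le_iff.1 fun x _ => ?_)
      have h1 : t⁻¹ x ∈ V.comap (t : Ω →+* Ω) := by
        rw [htop]
        exact ValuationSubring.mem_top _
      have h2 : t (t⁻¹ x) ∈ V := h1
      have e : t (t⁻¹ x) = x := t.apply_symm_apply _
      rwa [e] at h2

/-- restriction of a system -/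
theorem SysU.res {S S' : Set Ω} (h : Fx k S' ≤ Fx k S) {ℓ : ℕ}
    {C : ℕ → (Ω ≃ₐ[k] Ω) → (Ω ≃ₐ[k] Ω) → Ωˣ} (hC : SysU S ℓ C) : SysU S' ℓ C := by
  have h1 : Ge k S' ≤ Ge k S := fun σ hσ => ⟨h hσ.1, hσ.2⟩
  exact ⟨hC.lc, fun n => (hC.coc n).mono h1, hC.zero.mono h1, fun n => (hC.step n).mono h1,
    fun n g hg => (hC.inv n g (h hg)).mono h1,
    fun n V hV hV' => (hC.unr n V hV hV').mono (inf_le_inf_right _ h1)⟩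

/-- a cochain which is a coboundary on `D` of a locally constant cochain -/
theorem tri_of_lo {D : Subgroup (Ω ≃ₐ[k] Ω)} {c : (Ω ≃ₐ[k] Ω) → (Ω ≃ₐ[k] Ω) → Ωˣ}
    {β : (Ω ≃ₐ[k] Ω) → Ωˣ} (hβ : Lo1 D Set.univ β) (h : Cob D c β) : Tri D c := by
  obtain ⟨b, hb, h1, -⟩ := hβ.extend
  refine ⟨b, hb, fun σ hσ τ hτ => ?_⟩
  rw [h1 σ hσ, h1 τ hτ, h1 (σ * τ) (D.mul_mem hσ hτ)]
  exact h σ hσ τ hτ

section

variable {X : Type*} [Fintype X] {D F : Subgroup (Ω ≃ₐ[k] Ω)} {a : (Ω ≃ₐ[k] Ω) → X → X}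
  {s : X → Ω ≃ₐ[k] Ω}

/-- the action is locally constant on `D` -/
def Loa (D : Subgroup (Ω ≃ₐ[k] Ω)) (a : (Ω ≃ₐ[k] Ω) → X → X) : Prop :=
  ∃ S : Finset Ω, ∀ σ ∈ D, ∀ σ' ∈ D, Ag (S : Set Ω) σ σ' → a σ = a σ'

/-- components of automorphisms which agree on a large finite set -/
theorem nu_ag (ha : Loa D a) (s : X → Ω ≃ₐ[k] Ω) (S : Finset Ω) :
    ∃ S' : Finset Ω, ∀ σ ∈ D, ∀ σ' ∈ D, Ag (S' : Set Ω) σ σ' → a σ = a σ' ∧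
      ∀ x, Ag (S : Set Ω) (nu a s σ x) (nu a s σ' x) := by
  classical
  obtain ⟨S0, h0⟩ := ha
  refine ⟨S0 ∪ Finset.univ.biUnion (fun x => S.image (s x)), fun σ hσ σ' hσ' h => ?_⟩
  have h1 : a σ = a σ' := h0 σ hσ σ' hσ' (h.mono (by
    rw [Finset.coe_union]
    exact Set.subset_union_left))
  refine ⟨h1, fun x y hy => ?_⟩
  unfold nu
  rw [h1]
  show (s (a σ' x))⁻¹ (σ (s x y)) = (s (a σ' x))⁻¹ (σ' (s x y))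
  rw [h (s x y)]
  rw [Finset.coe_union]
  refine Or.inr ?_
  rw [Finset.coe_biUnion]
  refine Set.mem_iUnion₂.2 ⟨x, Finset.mem_coe.2 (Finset.mem_univ x), ?_⟩
  rw [Finset.coe_image]
  exact ⟨y, hy, rfl⟩

theorem lo_cr1 (ha : Loa D a) (s : X → Ω ≃ₐ[k] Ω) {β : (Ω ≃ₐ[k] Ω) → Ωˣ}
    (hβ : Lc1 Set.univ β) : Lo1 D Set.univ (cr1 a s β) := by
  obtain ⟨S, -, hS⟩ := hβ
  obtain ⟨S', h'⟩ := nu_ag ha s S
  refine ⟨S', Set.subset_univ _, fun σ hσ σ' hσ' h => ?_⟩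
  obtain ⟨h1, h2⟩ := h' σ hσ σ' hσ' h
  unfold cr1
  refine Finset.prod_congr rfl fun x _ => ?_
  rw [hS _ _ (h2 x), h1]

theorem lo_hc (ha : Loa D a) (s n : X → Ω ≃ₐ[k] Ω) {C : (Ω ≃ₐ[k] Ω) → (Ω ≃ₐ[k] Ω) → Ωˣ}
    (hC : Lc2 Set.univ C) : Lo1 D Set.univ (hc a s n C) := by
  classical
  obtain ⟨S, -, hS⟩ := hC
  obtain ⟨S1, h1⟩ := nu_ag ha s S
  obtain ⟨S2, h2⟩ := nu_ag ha (fun y => s y * n y) S
  refine ⟨S1 ∪ S2, Set.subset_univ _, fun σ hσ σ' hσ' h => ?_⟩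
  rw [Finset.coe_union] at h
  obtain ⟨e1, e2⟩ := h1 σ hσ σ' hσ' (h.mono Set.subset_union_left)
  obtain ⟨-, e3⟩ := h2 σ hσ σ' hσ' (h.mono Set.subset_union_right)
  unfold hc
  refine Finset.prod_congr rfl fun x _ => ?_
  rw [hS _ _ _ _ (Ag.refl _ (n (a σ x))) (e3 x), hS _ _ _ _ (e2 x) (Ag.refl _ (n x)), e1]

theorem lo_cr (h : Sct D F a s) (ha : Loa D a) {C : (Ω ≃ₐ[k] Ω) → (Ω ≃ₐ[k] Ω) → Ωˣ}
    (hC : Lc2 Set.univ C) : Lo2 D Set.univ (cr a s C) := by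
  obtain ⟨S, -, hS⟩ := hC
  obtain ⟨S', h'⟩ := nu_ag ha s S
  refine ⟨S', Set.subset_univ _, fun σ hσ σ' hσ' τ hτ τ' hτ' h1 h2 => ?_⟩
  obtain ⟨e1, e2⟩ := h' σ hσ σ' hσ' h1
  obtain ⟨e3, e4⟩ := h' τ hτ τ' hτ' h2
  unfold cr
  refine Finset.prod_congr rfl fun x _ => ?_
  rw [h.mul σ hσ τ hτ, h.mul σ' hσ' τ' hτ', hS _ _ _ _ (e2 (a τ x)) (e4 x), e1, e3]

/-- the corestriction of a trivial cochain is trivial -/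
theorem tri_cr (h : Sct D F a s) (ha : Loa D a) {C : (Ω ≃ₐ[k] Ω) → (Ω ≃ₐ[k] Ω) → Ωˣ}
    (hC : Tri F C) : Tri D (cr a s C) := by
  obtain ⟨β, hβ, hcob⟩ := hC
  exact tri_of_lo (lo_cr1 ha s hβ) (cr_cob h hcob)

/-- the corestriction does not depend on the section -/
theorem tri_sec (h : Sct D F a s) (ha : Loa D a) {n : X → Ω ≃ₐ[k] Ω} (hn : ∀ x, n x ∈ F)
    {C : (Ω ≃ₐ[k] Ω) → (Ω ≃ₐ[k] Ω) → Ωˣ} (hC : Lc2 Set.univ C) (hc' : Coc F C) :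
    Tri D (fun σ τ => cr a (fun x => s x * n x) C σ τ * (cr a s C σ τ)⁻¹) := by
  refine tri_of_lo (lo_hc ha s n hC) fun σ hσ τ hτ => ?_
  have h1 := cr_sec h hn hc' σ hσ τ hτ
  show cr a (fun x => s x * n x) C σ τ * (cr a s C σ τ)⁻¹ * hc a s n C (σ * τ) =
    hc a s n C σ * σ • hc a s n C τ
  rw [mul_right_comm, h1, mul_comm (cr a s C σ τ), mul_inv_cancel_right]

theorem cr_mul (s : X → Ω ≃ₐ[k] Ω) (C C' : (Ω ≃ₐ[k] Ω) → (Ω ≃ₐ[k] Ω) → Ωˣ) (σ τ : Ω ≃ₐ[k] Ω) :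
    cr a s (fun σ τ => C σ τ * C' σ τ) σ τ = cr a s C σ τ * cr a s C' σ τ := by
  unfold cr
  rw [← Finset.prod_mul_distrib]
  exact Finset.prod_congr rfl fun x _ => smul_mul' _ _ _

theorem cr_inv (s : X → Ω ≃ₐ[k] Ω) (C : (Ω ≃ₐ[k] Ω) → (Ω ≃ₐ[k] Ω) → Ωˣ) (σ τ : Ω ≃ₐ[k] Ω) :
    cr a s (fun σ τ => (C σ τ)⁻¹) σ τ = (cr a s C σ τ)⁻¹ := by
  unfold cr
  rw [← Finset.prod_inv_distrib]
  exact Finset.prod_congr rfl fun x _ => smul_inv' _ _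

theorem cr_pow (s : X → Ω ≃ₐ[k] Ω) (C : (Ω ≃ₐ[k] Ω) → (Ω ≃ₐ[k] Ω) → Ωˣ) (m : ℕ)
    (σ τ : Ω ≃ₐ[k] Ω) :
    cr a s (fun σ τ => C σ τ ^ m) σ τ = cr a s C σ τ ^ m := by
  unfold cr
  rw [← Finset.prod_pow]
  exact Finset.prod_congr rfl fun x _ => smul_pow' _ _ _

end

/-- conjugation by an element of `D` does not change a class -/
theorem tri_inner {D : Subgroup (Ω ≃ₐ[k] Ω)} {C : (Ω ≃ₐ[k] Ω) → (Ω ≃ₐ[k] Ω) → Ωˣ}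
    (hC : Lc2 Set.univ C) (hc : Coc D C) {g : Ω ≃ₐ[k] Ω} (hg : g ∈ D) :
    Tri D (fun σ τ => cj g C σ τ * (C σ τ)⁻¹) := by
  have h : Sct D D (fun (_ : Ω ≃ₐ[k] Ω) (x : Unit) => x) (fun _ => (1 : Ω ≃ₐ[k] Ω)) := by
    refine ⟨fun _ => rfl, fun _ _ _ _ _ => rfl, fun σ hσ x => ?_⟩
    rw [inv_one, one_mul, mul_one]
    exact hσ
  have ha : Loa D (fun (_ : Ω ≃ₐ[k] Ω) (x : Unit) => x) := ⟨∅, fun _ _ _ _ _ => rfl⟩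
  refine (tri_sec h ha (n := fun _ => g) (fun _ => hg) hC hc).congr fun σ _ τ _ => ?_
  unfold cr nu cj
  simp only [Finset.univ_unique, Finset.prod_singleton, one_mul, inv_one, mul_one, one_smul]

end Pool.Agent.NOC
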