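import Pool.Agent.NOC.Sys
import Pool.Agent.NOC.Quo

/-!
# The corestriction of an invariant unramified system of 2-cocycles
-/

set_option autoImplicit false

namespace Pool.Agent.NOC

open Pool.Agent.TBR

universe u

variable {k Ω : Type u} [Field k] [Field Ω] [Algebra k Ω]

theorem Tri.one (D : Subgroup (Ω ≃ₐ[k] Ω)) :
    Tri D (fun _ _ : Ω ≃ₐ[k] Ω => (1 : Ωˣ)) := by
  refine ⟨fun _ => 1, Lc1.const _ _, fun σ _ τ _ => ?_⟩
  show (1 : Ωˣ) * 1 = 1 * σ • (1 : Ωˣ)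
  rw [smul_one]

theorem Tri.prod {ι : Type*} {D : Subgroup (Ω ≃ₐ[k] Ω)} (s : Finset ι)
    {c : ι → (Ω ≃ₐ[k] Ω) → (Ω ≃ₐ[k] Ω) → Ωˣ} (h : ∀ i, Tri D (c i)) :
    Tri D (fun σ τ => ∏ i ∈ s, c i σ τ) := by
  classical
  induction s using Finset.induction_on with
  | empty => exact (Tri.one D).congr fun σ _ τ _ => by rw [Finset.prod_empty]
  | insert i s hi ih =>
    exact ((h i).mul ih).congr fun σ _ τ _ => by rw [Finset.prod_insert hi]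

/-- the product of systems -/
theorem SysU.mul {S : Set Ω} {ℓ : ℕ} {C C' : ℕ → (Ω ≃ₐ[k] Ω) → (Ω ≃ₐ[k] Ω) → Ωˣ}
    (hC : SysU S ℓ C) (hC' : SysU S ℓ C') : SysU S ℓ (fun n σ τ => C n σ τ * C' n σ τ) where
  lc n := (hC.lc n).mul (hC'.lc n)
  coc n := (hC.coc n).mul (hC'.coc n)
  zero := hC.zero.mul hC'.zero
  step n := ((hC.step n).mul (hC'.step n)).congr fun σ _ τ _ => by
    rw [mul_pow, mul_inv, mul_mul_mul_comm]
  inv n g hg := ((hC.inv n g hg).mul (hC'.inv n g hg)).congr fun σ _ τ _ => by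
    rw [smul_mul', mul_inv, mul_mul_mul_comm]
  unr n V hV hV' := (hC.unr n V hV hV').mul (hC'.unr n V hV hV')

/-- powers of systems -/
theorem SysU.zpow {S : Set Ω} {ℓ : ℕ} {C : ℕ → (Ω ≃ₐ[k] Ω) → (Ω ≃ₐ[k] Ω) → Ωˣ}
    (hC : SysU S ℓ C) (e : ℤ) : SysU S ℓ (fun n σ τ => C n σ τ ^ e) where
  lc n := (hC.lc n).zpow e
  coc n := (hC.coc n).zpow e
  zero := hC.zero.zpow e
  step n := ((hC.step n).zpow e).congr fun σ _ τ _ => by
    rw [mul_zpow, inv_zpow, ← zpow_natCast, ← zpow_natCast, ← zpow_mul, ← zpow_mul,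
      mul_comm (ℓ : ℤ) e]
  inv n g hg := ((hC.inv n g hg).zpow e).congr fun σ _ τ _ => by
    rw [mul_zpow, inv_zpow, smul_zpow_units]
  unr n V hV hV' := (hC.unr n V hV hV').zpow e

theorem SysU.one (S : Set Ω) (ℓ : ℕ) : SysU S ℓ (fun _ (_ _ : Ω ≃ₐ[k] Ω) => (1 : Ωˣ)) where
  lc n := ⟨∅, by simp, fun _ _ _ _ _ _ => rfl⟩
  coc n σ _ τ _ ρ _ := by
    show (1 : Ωˣ) * 1 = σ • (1 : Ωˣ) * 1
    rw [smul_one]
  zero := Tri.one _
  step n := (Tri.one _).congr fun σ _ τ _ => by rw [one_pow, inv_one, mul_one]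
  inv n g hg := (Tri.one _).congr fun σ _ τ _ => by rw [smul_one, inv_one, mul_one]
  unr n V hV hV' := Tri.one _

theorem SysU.prod {ι : Type*} {S : Set Ω} {ℓ : ℕ} (s : Finset ι)
    {C : ι → ℕ → (Ω ≃ₐ[k] Ω) → (Ω ≃ₐ[k] Ω) → Ωˣ} (h : ∀ i, SysU S ℓ (C i)) :
    SysU S ℓ (fun n σ τ => ∏ i ∈ s, C i n σ τ) := by
  classical
  induction s using Finset.induction_on with
  | empty =>
    have : (fun n (σ τ : Ω ≃ₐ[k] Ω) => ∏ i ∈ (∅ : Finset ι), C i n σ τ) =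
        fun _ (_ _ : Ω ≃ₐ[k] Ω) => (1 : Ωˣ) := by
      funext n σ τ
      rw [Finset.prod_empty]
    rw [this]
    exact SysU.one S ℓ
  | insert i s hi ih =>
    have : (fun n (σ τ : Ω ≃ₐ[k] Ω) => ∏ i ∈ insert i s, C i n σ τ) =
        fun n (σ τ : Ω ≃ₐ[k] Ω) => C i n σ τ * ∏ i ∈ s, C i n σ τ := by
      funext n σ τ
      rw [Finset.prod_insert hi]
    rw [this]
    exact SysU.mul (h i) ih

section

variable {X : Type*} [Fintype X] {D F : Subgroup (Ω ≃ₐ[k] Ω)} {a : (Ω ≃ₐ[k] Ω) → X → X}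

theorem lo_cr1' (ha : Loa D a) (s : X → Ω ≃ₐ[k] Ω) {β : X → (Ω ≃ₐ[k] Ω) → Ωˣ}
    (hβ : ∀ x, Lc1 Set.univ (β x)) : Lo1 D Set.univ (cr1' a s β) := by
  classical
  choose S hS0 hS using hβ
  obtain ⟨S', h'⟩ := nu_ag ha s (Finset.univ.biUnion S)
  refine ⟨S', Set.subset_univ _, fun σ hσ σ' hσ' h => ?_⟩
  obtain ⟨h1, h2⟩ := h' σ hσ σ' hσ' h
  unfold cr1'
  refine Finset.prod_congr rfl fun x _ => ?_
  rw [hS x _ _ ((h2 x).mono (by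
    rw [Finset.coe_biUnion]
    intro y hy
    exact Set.mem_iUnion₂.2 ⟨x, Finset.mem_coe.2 (Finset.mem_univ x), hy⟩)), h1]

/-- a corestriction is trivial if the components are trivial, orbit by orbit -/
theorem tri_cr' {s : X → Ω ≃ₐ[k] Ω} (h : Sct D F a s) (ha : Loa D a)
    {C : (Ω ≃ₐ[k] Ω) → (Ω ≃ₐ[k] Ω) → Ωˣ}
    {H : X → Subgroup (Ω ≃ₐ[k] Ω)} (hC : ∀ x, Tri (H x) C) {r : X → X}
    (hr : ∀ σ ∈ D, ∀ x, r (a σ x) = r x) (hnu : ∀ σ ∈ D, ∀ x, nu a s σ x ∈ H (r x)) :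
    Tri D (cr a s C) := by
  choose β hβ hcob using hC
  refine tri_of_lo (lo_cr1' ha s fun x => hβ (r x)) (cr_cob' h ?_ ?_)
  · intro σ hσ x
    rw [hr σ hσ]
  · intro x σ hσ τ hτ
    have h1 : nu a s σ (a τ x) ∈ H (r x) := by
      rw [← hr τ hτ x]
      exact hnu σ hσ _
    exact hcob (r x) _ h1 _ (hnu τ hτ x)

end

variable {L S' : Set Ω}

/-- the action on the cosets is locally constant -/
theorem loa_qa [Finite (QX (Ge k L) (Ge k S'))] (T : Finset Ω)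
    (hT : ∀ σ ∈ Ge k L, σ ∈ Fx k (T : Set Ω) → σ ∈ Fx k S') :
    Loa (Ge k L) (qa (Ge k L) (Ge k S')) := by
  classical
  have := Fintype.ofFinite (QX (Ge k L) (Ge k S'))
  refine ⟨Finset.univ.biUnion fun x : QX (Ge k L) (Ge k S') =>
    T.image (fun y => (qs (Ge k L) (Ge k S') x : Ω ≃ₐ[k] Ω) y), fun σ hσ σ' hσ' h => ?_⟩
  funext x
  obtain ⟨ρ, hρ⟩ : ∃ ρ, ρ = qs (Ge k L) (Ge k S') x := ⟨_, rfl⟩
  have hρm : ρ ∈ Ge k L := by rw [hρ]; exact qs_mem _ _ x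
  rw [sec_qs.qa_eq hσ, sec_qs.qa_eq hσ', qm_eq, ← hρ]
  have h1 : (σ * ρ)⁻¹ * (σ' * ρ) ∈ Ge k L :=
    (Ge k L).mul_mem ((Ge k L).inv_mem ((Ge k L).mul_mem hσ hρm)) ((Ge k L).mul_mem hσ' hρm)
  refine ⟨hT _ h1 fun y hy => ?_, h1.2⟩
  have h2 : σ (ρ y) = σ' (ρ y) := by
    refine h _ ?_
    rw [Finset.coe_biUnion]
    refine Set.mem_iUnion₂.2 ⟨x, Finset.mem_coe.2 (Finset.mem_univ x), ?_⟩
    rw [Finset.coe_image, ← hρ]
    exact ⟨y, hy, rfl⟩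
  have h3 : (σ * ρ)⁻¹ ((σ * ρ) y) = y := (σ * ρ).symm_apply_apply y
  calc ((σ * ρ)⁻¹ * (σ' * ρ)) y = (σ * ρ)⁻¹ (σ' (ρ y)) := rfl
    _ = (σ * ρ)⁻¹ ((σ * ρ) y) := by rw [← h2]; rfl
    _ = y := h3

/-- The corestriction of an invariant system, and its restriction. -/
theorem sys_cores [Fintype (QX (Ge k L) (Ge k S'))] (hle : Fx k S' ≤ Fx k L)
    (hnor : ∀ g ∈ Fx k L, ∀ σ ∈ Fx k S', g⁻¹ * σ * g ∈ Fx k S') (T : Finset Ω)
    (hT : ∀ σ ∈ Ge k L, σ ∈ Fx k (T : Set Ω) → σ ∈ Fx k S') {ℓ : ℕ}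
    {C : ℕ → (Ω ≃ₐ[k] Ω) → (Ω ≃ₐ[k] Ω) → Ωˣ} (hC : SysU S' ℓ C)
    (hinv : ∀ n, ∀ g ∈ Fx k L, Tri (Ge k S') (fun σ τ => cj g (C n) σ τ * (C n σ τ)⁻¹)) :
    ∃ b : ℕ → (Ω ≃ₐ[k] Ω) → (Ω ≃ₐ[k] Ω) → Ωˣ, SysU L ℓ b ∧
      (∀ n, ∀ σ ∈ Ge k L, ∀ τ ∈ Ge k L, b n σ τ =
        cr (qa (Ge k L) (Ge k S')) (qs (Ge k L) (Ge k S')) (C n) σ τ) ∧
      ∀ n, Tri (Ge k S') (fun σ τ => b n σ τ *
        (C n σ τ ^ Nat.card (QX (Ge k L) (Ge k S')))⁻¹) := by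
  classical
  have hFD : Ge k S' ≤ Ge k L := fun σ hσ => ⟨hle hσ.1, hσ.2⟩
  have hDL : Ge k L ≤ Fx k L := inf_le_left
  have hsc := (sec_qs (D := Ge k L) (F := Ge k S')).sct
  have ha := loa_qa (k := k) (L := L) (S' := S') T hT
  have hcoc : ∀ n, Coc (Ge k L) (cr (qa (Ge k L) (Ge k S')) (qs (Ge k L) (Ge k S')) (C n)) :=
    fun n => cr_coc hsc (hC.coc n)
  have hex : ∀ n, ∃ b : (Ω ≃ₐ[k] Ω) → (Ω ≃ₐ[k] Ω) → Ωˣ, Lc2 Set.univ b ∧
      ∀ σ ∈ Ge k L, ∀ ρ ∈ Ge k L, b σ ρ =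
        cr (qa (Ge k L) (Ge k S')) (qs (Ge k L) (Ge k S')) (C n) σ ρ := by
    intro n
    obtain ⟨b, hb, h1, -, -⟩ := (lo_cr hsc ha (hC.lc n)).extend 1
    exact ⟨b, hb, h1⟩
  choose b hb hbe using hex
  have hmem : ∀ g ∈ Fx k L, ∀ σ, g⁻¹ * σ * g ∈ Ge k L ↔ σ ∈ Ge k L := by
    intro g hg σ
    constructor
    · intro h
      have := Ge_normal ((Fx k L).inv_mem hg) h
      have e : g⁻¹⁻¹ * (g⁻¹ * σ * g) * g⁻¹ = σ := by group
      rwa [e] at this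
    · exact fun h => Ge_normal hg h
  have hmem' : ∀ g ∈ Fx k L, ∀ σ, g⁻¹ * σ * g ∈ Ge k S' ↔ σ ∈ Ge k S' := by
    intro g hg σ
    constructor
    · intro h
      have h1 := hnor _ ((Fx k L).inv_mem hg) _ h.1
      have h2 := alg_conj (t := g⁻¹) h.2
      have e : g⁻¹⁻¹ * (g⁻¹ * σ * g) * g⁻¹ = σ := by group
      rw [e] at h1 h2
      exact ⟨h1, h2⟩
    · exact fun h => ⟨hnor g hg σ h.1, alg_conj h.2⟩
  refine ⟨b, ⟨hb, fun n => ?_, ?_, fun n => ?_, fun n g hg => ?_, fun n V hV hV' => ?_⟩, hbe,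
    fun n => ?_⟩
  · intro σ hσ ρ hρ π hπ
    rw [hbe n σ hσ ρ hρ, hbe n _ ((Ge k L).mul_mem hσ hρ) π hπ, hbe n ρ hρ π hπ,
      hbe n σ hσ _ ((Ge k L).mul_mem hρ hπ)]
    exact hcoc n σ hσ ρ hρ π hπ
  · exact (tri_cr hsc ha hC.zero).congr fun σ hσ ρ hρ => (hbe 0 σ hσ ρ hρ).symm
  · refine (tri_cr hsc ha (hC.step n)).congr fun σ hσ ρ hρ => ?_
    rw [cr_mul (a := qa (Ge k L) (Ge k S')) (qs (Ge k L) (Ge k S'))
      (fun σ τ => C (n + 1) σ τ ^ ℓ) (fun σ τ => (C n σ τ)⁻¹) σ ρ,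
      cr_pow, cr_inv, hbe n σ hσ ρ hρ, hbe (n + 1) σ hσ ρ hρ]
  · -- invariance
    obtain ⟨γ, hγ, hγa, s', hs', hs'e⟩ := exists_conj (hmem g hg) (hmem' g hg)
    have e1 : ∀ σ ∈ Ge k L, ∀ ρ ∈ Ge k L,
        cj g (cr (qa (Ge k L) (Ge k S')) (qs (Ge k L) (Ge k S')) (C n)) σ ρ =
          cr (qa (Ge k L) (Ge k S')) s' (cj g (C n)) σ ρ :=
      cr_conj hγ hγa hs'e (C n)
    have hss : s' = fun x => qs (Ge k L) (Ge k S') x * ((qs (Ge k L) (Ge k S') x)⁻¹ * s' x) := by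
      funext x
      group
    have e3 := tri_cr hs'.sct ha (hinv n g hg)
    have e4 := tri_sec hsc ha (sec_qs.diff hs') (hC.lc n) (hC.coc n)
    rw [← hss] at e4
    refine (e3.mul e4).congr fun σ hσ ρ hρ => ?_
    rw [cr_mul (a := qa (Ge k L) (Ge k S')) s' (cj g (C n)) (fun σ τ => (C n σ τ)⁻¹) σ ρ,
      cr_inv, ← e1 σ hσ ρ hρ]
    have h4 : ∀ σ ∈ Ge k L, g⁻¹ * σ * g ∈ Ge k L := fun σ hσ => Ge_normal hg hσ
    rw [hbe n _ (h4 σ hσ) _ (h4 ρ hρ), hbe n σ hσ ρ hρ]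
    show cj g (cr (qa (Ge k L) (Ge k S')) (qs (Ge k L) (Ge k S')) (C n)) σ ρ * _ * (_ * _) =
      cj g (cr (qa (Ge k L) (Ge k S')) (qs (Ge k L) (Ge k S')) (C n)) σ ρ * _
    rw [mul_assoc, inv_mul_cancel_left]
  · -- unramified
    have hle' : Ge k L ⊓ St k V ≤ Ge k L := inf_le_left
    obtain ⟨r, p, hp, hr, hsec⟩ := exists_adapted (D := Ge k L) (F := Ge k S') hle'
    obtain ⟨s', hs'⟩ : ∃ s' : QX (Ge k L) (Ge k S') → Ω ≃ₐ[k] Ω,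
      s' = fun x => p x * qs (Ge k L) (Ge k S') (r x) := ⟨_, rfl⟩
    rw [← hs'] at hsec
    have hss : s' = fun x => qs (Ge k L) (Ge k S') x * ((qs (Ge k L) (Ge k S') x)⁻¹ * s' x) := by
      funext x
      group
    have e4 := tri_sec hsc ha (sec_qs.diff hsec) (hC.lc n) (hC.coc n)
    rw [← hss] at e4
    have ha' : Loa (Ge k L ⊓ St k V) (qa (Ge k L) (Ge k S')) := by
      obtain ⟨S0, h0⟩ := ha
      exact ⟨S0, fun σ hσ σ' hσ' h => h0 σ hσ.1 σ' hσ'.1 h⟩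
    have e5 : Tri (Ge k L ⊓ St k V) (cr (qa (Ge k L) (Ge k S')) s' (C n)) := by
      refine tri_cr' (H := fun x => Ge k S' ⊓ St k (V.comap ((qs (Ge k L) (Ge k S') x : Ω ≃ₐ[k] Ω) : Ω →+* Ω)))
        (hsec.sct.mono hle') ha' (fun x => ?_) hr fun σ hσ x => ?_
      · refine hC.unr n _ ?_ ?_
        · intro c
          show qs (Ge k L) (Ge k S') x (algebraMap k Ω c) ∈ V
          rw [AlgEquiv.commutes]
          exact hV c
        · intro htop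
          refine hV' (top_le_iff.1 fun y _ => ?_)
          have h1 : (qs (Ge k L) (Ge k S') x)⁻¹ y ∈
              V.comap ((qs (Ge k L) (Ge k S') x : Ω ≃ₐ[k] Ω) : Ω →+* Ω) := by
            rw [htop]
            exact ValuationSubring.mem_top _
          have h2 : qs (Ge k L) (Ge k S') x ((qs (Ge k L) (Ge k S') x)⁻¹ y) ∈ V := h1
          have e : qs (Ge k L) (Ge k S') x ((qs (Ge k L) (Ge k S') x)⁻¹ y) = y :=
            (qs (Ge k L) (Ge k S') x).apply_symm_apply _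
          rwa [e] at h2
      · have h1 := hsec.sct.memF σ (hle' hσ) x
        refine ⟨h1, ?_⟩
        obtain ⟨q, hq⟩ : ∃ q, q = qs (Ge k L) (Ge k S') (r x) := ⟨_, rfl⟩
        obtain ⟨δ, hδ⟩ : ∃ δ, δ = (p (qa (Ge k L) (Ge k S') σ x))⁻¹ * σ * p x := ⟨_, rfl⟩
        have hδm : δ ∈ St k V := by
          rw [hδ]
          exact (St k V).mul_mem ((St k V).mul_mem ((St k V).inv_mem (hp _).2) hσ.2) (hp x).2
        have e6 : nu (qa (Ge k L) (Ge k S')) s' σ x = q⁻¹ * δ * q := by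
          unfold nu
          rw [hs', hδ, hq]
          beta_reduce
          rw [hr σ hσ]
          group
        rw [e6, ← hq]
        intro y
        show q (q⁻¹ (δ (q y))) ∈ V ↔ q y ∈ V
        have e7 : q (q⁻¹ (δ (q y))) = δ (q y) := q.apply_symm_apply _
        rw [e7]
        exact hδm (q y)
    refine (e5.mul (e4.mono hle').inv).congr fun σ hσ ρ hρ => ?_
    rw [hbe n σ (hle' hσ) ρ (hle' hρ), mul_inv, inv_inv, ← mul_assoc, mul_inv_cancel, one_mul]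
  · -- restriction
    have htr : ∀ σ ∈ Ge k S', ∀ x, qa (Ge k L) (Ge k S') σ x = x := fun σ hσ x =>
      qa_triv (fun g hg σ hσ => (hmem' g (hDL hg) σ).2 hσ) hFD hσ x
    have e1 : Tri (Ge k S') (fun σ τ => ∏ x : QX (Ge k L) (Ge k S'),
        (cj (qs (Ge k L) (Ge k S') x) (C n) σ τ * (C n σ τ)⁻¹)) :=
      Tri.prod _ fun x => hinv n _ (hDL (qs_mem _ _ x))
    refine e1.congr fun σ hσ ρ hρ => ?_
    rw [hbe n σ (hFD hσ) ρ (hFD hρ), Finset.prod_mul_distrib, Finset.prod_const,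
      Finset.card_univ, ← Nat.card_eq_fintype_card, inv_pow]
    congr 1
    unfold cr
    refine Finset.prod_congr rfl fun x _ => ?_
    rw [htr _ ((Ge k S').mul_mem hσ hρ), htr ρ hρ]
    unfold nu
    rw [htr σ hσ, htr ρ hρ]
    rfl

end Pool.Agent.NOC
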